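import Pool.Agent.P.MP_d483fb_an.Z.Su.Base
import Pool.Agent.P.MP_d483fb_an.Z.Su.Len2
import Pool.Agent.P.MP_d483fb_an.Z.Lie.Unip
import Pool.Agent.P.MP_d483fb_an.Z.Grp.Defs

/-!
The orbits of a closed subgroup on the base: free points, the orbit relation, the group element
and the holonomy between two points of an orbit. The case of a horospherical subgroup.
-/

open scoped Matrix Matrix.Norms.Operator InnerProductSpace RealInnerProductSpace Topology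
open NormedSpace MeasureTheory Filter Set

set_option linter.unusedSectionVars false

noncomputable section

namespace Pool.Agent.P.MP_d483fb_an.Z

namespace Lat

variable {G : Type} [Group G] [TopologicalSpace G] [IsTopologicalGroup G] [T2Space G]
  (L : Lat G) (N : Subgroup G)

/-- Points with trivial stabiliser in `N`. -/
def Free : Set L.B := {b | ∀ u ∈ N, u • b = b → u = 1}

/-- The orbit relation of `N` on the free points. -/
def Rb (b b1 : L.B) : Prop := b ∈ L.Free N ∧ ∃ u ∈ N, b1 = u • b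

open Classical in
/-- The element of `N` which moves `b` to `b1`. -/
def uu (b b1 : L.B) : G := if h : L.Rb N b b1 then h.2.choose else 1

variable {L N} {b b1 b2 : L.B} {g u : G}

theorem free_conj (hg : ∀ u ∈ N, g⁻¹ * u * g ∈ N) (hb : b ∈ L.Free N) : g • b ∈ L.Free N := by
  intro u hu e
  have h := hb _ (hg u hu) (by rw [mul_smul, mul_smul, e, inv_smul_smul])
  calc u = g * (g⁻¹ * u * g) * g⁻¹ := by group
    _ = 1 := by rw [h]; group

theorem free_smul (hu : u ∈ N) (hb : b ∈ L.Free N) : u • b ∈ L.Free N :=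
  free_conj (fun _ hv => N.mul_mem (N.mul_mem (N.inv_mem hu) hv) hu) hb

theorem Rb.mem (h : L.Rb N b b1) : b ∈ L.Free N := h.1

theorem Rb.mem' (h : L.Rb N b b1) : b1 ∈ L.Free N := by
  obtain ⟨hb, u, hu, rfl⟩ := h
  exact free_smul hu hb

theorem Rb_smul (hb : b ∈ L.Free N) (hu : u ∈ N) : L.Rb N b (u • b) := ⟨hb, u, hu, rfl⟩

theorem Rb_refl (hb : b ∈ L.Free N) : L.Rb N b b := ⟨hb, 1, N.one_mem, (one_smul _ _).symm⟩

theorem Rb.symm (h : L.Rb N b b1) : L.Rb N b1 b := by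
  obtain ⟨hb, u, hu, rfl⟩ := h
  exact ⟨free_smul hu hb, u⁻¹, N.inv_mem hu, (inv_smul_smul _ _).symm⟩

theorem Rb.trans (h : L.Rb N b b1) (h' : L.Rb N b1 b2) : L.Rb N b b2 := by
  obtain ⟨hb, u, hu, rfl⟩ := h
  obtain ⟨-, v, hv, rfl⟩ := h'
  exact ⟨hb, v * u, N.mul_mem hv hu, (mul_smul _ _ _).symm⟩

theorem Rb.conj (h : L.Rb N b b1) (hg : ∀ u ∈ N, g * u * g⁻¹ ∈ N)
    (hg' : ∀ u ∈ N, g⁻¹ * u * g ∈ N) : L.Rb N (g • b) (g • b1) := by
  obtain ⟨hb, u, hu, rfl⟩ := h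
  exact ⟨free_conj hg' hb, _, hg u hu, by rw [mul_smul, mul_smul, inv_smul_smul]⟩

theorem uu_mem (b b1 : L.B) : L.uu N b b1 ∈ N := by
  unfold uu
  split_ifs with h
  · exact h.2.choose_spec.1
  · exact N.one_mem

theorem Rb.uu_smul (h : L.Rb N b b1) : L.uu N b b1 • b = b1 := by
  rw [uu, dif_pos h]
  exact h.2.choose_spec.2.symm

theorem uu_of_not (h : ¬ L.Rb N b b1) : L.uu N b b1 = 1 := dif_neg h

theorem uu_eq (hb : b ∈ L.Free N) (hu : u ∈ N) : L.uu N b (u • b) = u := by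
  have h := hb _ (N.mul_mem (N.inv_mem hu) (uu_mem b (u • b)))
    (by rw [mul_smul, (Rb_smul hb hu).uu_smul, inv_smul_smul])
  exact (inv_mul_eq_one.1 h).symm

theorem uu_self (b : L.B) : L.uu N b b = 1 := by
  by_cases h : L.Rb N b b
  · exact h.1 _ (uu_mem b b) h.uu_smul
  · exact uu_of_not h

theorem Rb.uu_mul (h : L.Rb N b b1) (h' : L.Rb N b1 b2) :
    L.uu N b1 b2 * L.uu N b b1 = L.uu N b b2 := by
  rw [← uu_eq h.1 (N.mul_mem (uu_mem b1 b2) (uu_mem b b1)), mul_smul, h.uu_smul, h'.uu_smul]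

theorem Rb.uu_symm (h : L.Rb N b b1) : L.uu N b1 b = (L.uu N b b1)⁻¹ := by
  rw [eq_inv_iff_mul_eq_one, h.uu_mul h.symm, uu_self]

theorem Rb.uu_conj (h : L.Rb N b b1) (hg : ∀ u ∈ N, g * u * g⁻¹ ∈ N)
    (hg' : ∀ u ∈ N, g⁻¹ * u * g ∈ N) : L.uu N (g • b) (g • b1) = g * L.uu N b b1 * g⁻¹ := by
  rw [← uu_eq (free_conj hg' h.1) (hg _ (uu_mem b b1)), mul_smul, mul_smul, inv_smul_smul,
    h.uu_smul]

/-- Almost every point is free if `N` is contracted by a measure preserving element. -/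
theorem ae_free {m : Measure L.B} [IsFiniteMeasure m] {a : G}
    (ha : MeasurePreserving (fun b : L.B => a • b) m m)
    (hN : ∀ u ∈ N, Tendsto (fun i : ℕ => a ^ i * u * (a ^ i)⁻¹) atTop (𝓝 1)) :
    ∀ᵐ b ∂m, b ∈ L.Free N := by
  obtain ⟨r, hr, hinj⟩ := L.inj
  have h1 : ∀ R : ℕ, ∀ᵐ b ∂m, b ∈ {b | L.ht b ≤ R} →
      ∃ᶠ i in atTop, (fun b : L.B => a • b)^[i] b ∈ {b | L.ht b ≤ R} := fun R =>
    ha.conservative.ae_mem_imp_frequently_image_mem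
      (measurableSet_le L.measurable_ht measurable_const).nullMeasurableSet
  filter_upwards [ae_all_iff.2 h1] with b hb u hu e
  obtain ⟨R, hR⟩ := exists_nat_ge (L.ht b)
  have h2 : Tendsto (fun i : ℕ => L.len (a ^ i * u * (a ^ i)⁻¹)) atTop (𝓝 0) := by
    rw [← L.one]
    exact (L.cont.tendsto 1).comp (hN u hu)
  have h3 := h2.eventually (gt_mem_nhds (show 0 < r * Real.exp (-2 * R) by positivity))
  obtain ⟨i, h4, h5⟩ := ((hb R hR).and_eventually h3).exists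
  rw [smul_iterate_apply] at h4
  have h6 := hinj _ (a ^ i • b) (by rw [mul_smul, mul_smul, inv_smul_smul, e])
    (h5.trans_le (mul_le_mul_of_nonneg_left (Real.exp_le_exp.2 (by
      have : L.ht (a ^ i • b) ≤ R := h4
      linarith)) hr.le))
  calc u = (a ^ i)⁻¹ * (a ^ i * u * (a ^ i)⁻¹) * a ^ i := by group
    _ = 1 := by rw [h6]; group

/-- Small elements act freely on compact sets. -/
theorem inj_cpt (L : Lat G) (K : Set L.B) (hK : IsCompact K) :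
    ∃ W ∈ 𝓝 (1 : G), ∀ b ∈ K, ∀ g ∈ W, g • b = b → g = 1 := by
  obtain ⟨r, hr, hinj⟩ := L.inj
  obtain ⟨R, hR⟩ := hK.bddAbove_image L.continuous_ht.continuousOn
  refine ⟨{g | L.len g < r * Real.exp (-2 * R)},
    (isOpen_lt L.cont continuous_const).mem_nhds ?_, fun b hb g hg e => hinj g b e ?_⟩
  · show L.len 1 < _
    rw [L.one]
    positivity
  · have := hR (mem_image_of_mem _ hb)
    exact lt_of_lt_of_le hg (mul_le_mul_of_nonneg_left (Real.exp_le_exp.2 (by linarith)) hr.le)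

variable [MeasurableSpace G] [BorelSpace G]

theorem smul_eq_iff : u • b = b1 ↔ ∃ γ : L.Γ, u = L.sec b1 * γ * (L.sec b)⁻¹ := by
  constructor
  · rintro rfl
    exact ⟨L.c u b, by rw [L.sec_mul_c, mul_inv_cancel_right]⟩
  · rintro ⟨γ, rfl⟩
    conv_lhs => rw [← L.pj_sec b]
    rw [smul_pj, pj_sec, inv_mul_cancel_right, pj_mul, pj_sec]

theorem measurable_lift (γ : L.Γ) :
    Measurable fun p : L.B × L.B => L.sec p.2 * γ * (L.sec p.1)⁻¹ := by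
  have := L.polish
  exact ((L.measurable_sec.comp measurable_snd).mul measurable_const).mul
    (L.measurable_sec.comp measurable_fst).inv

theorem measurableSet_free (hN : IsClosed (N : Set G)) : MeasurableSet (L.Free N) := by
  have := L.polish
  have e : L.Free N = ⋂ γ : L.Γ, (fun b => L.sec b * γ * (L.sec b)⁻¹) ⁻¹' ((N : Set G)ᶜ ∪ {1}) := by
    ext b
    simp only [mem_iInter, mem_preimage, mem_union, mem_compl_iff, mem_singleton_iff,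
      SetLike.mem_coe, ← imp_iff_not_or]
    refine ⟨fun h γ hγ => h _ hγ (smul_eq_iff.2 ⟨γ, rfl⟩), fun h u hu e => ?_⟩
    obtain ⟨γ, rfl⟩ := smul_eq_iff.1 e
    exact h γ hu
  rw [e]
  exact MeasurableSet.iInter fun γ =>
    ((measurable_lift γ).comp (measurable_id.prodMk measurable_id))
      (hN.measurableSet.compl.union (measurableSet_singleton 1))

theorem measurableSet_uu (hN : IsClosed (N : Set G)) {A : Set G} (hA : MeasurableSet A) :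
    MeasurableSet {p : L.B × L.B | L.Rb N p.1 p.2 ∧ L.uu N p.1 p.2 ∈ A} := by
  have e : {p : L.B × L.B | L.Rb N p.1 p.2 ∧ L.uu N p.1 p.2 ∈ A} = Prod.fst ⁻¹' L.Free N ∩
      ⋃ γ : L.Γ, (fun p => L.sec p.2 * γ * (L.sec p.1)⁻¹) ⁻¹' ((N : Set G) ∩ A) := by
    ext ⟨b, b1⟩
    simp only [mem_iUnion, mem_preimage, mem_inter_iff, SetLike.mem_coe, mem_ofPred_eq]
    constructor
    · rintro ⟨h, hA⟩
      obtain ⟨γ, e⟩ := smul_eq_iff.1 h.uu_smul
      exact ⟨h.1, γ, e ▸ uu_mem b b1, e ▸ hA⟩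
    · rintro ⟨h, γ, h1, h2⟩
      have e := (smul_eq_iff (b := b) (b1 := b1)).2 ⟨γ, rfl⟩
      have h3 := uu_eq h h1
      rw [e] at h3
      exact ⟨⟨h, _, h1, e.symm⟩, h3 ▸ h2⟩
  rw [e]
  exact (measurable_fst (measurableSet_free hN)).inter
    (MeasurableSet.iUnion fun γ => measurable_lift γ (hN.measurableSet.inter hA))

theorem measurableSet_Rb (hN : IsClosed (N : Set G)) :
    MeasurableSet {p : L.B × L.B | L.Rb N p.1 p.2} := by
  simpa using measurableSet_uu (L := L) hN MeasurableSet.univ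

theorem measurable_uu (hN : IsClosed (N : Set G)) :
    Measurable fun p : L.B × L.B => L.uu N p.1 p.2 := by
  intro A hA
  have e : (fun p : L.B × L.B => L.uu N p.1 p.2) ⁻¹' A =
      {p : L.B × L.B | L.Rb N p.1 p.2 ∧ L.uu N p.1 p.2 ∈ A} ∪
        ({p : L.B × L.B | L.Rb N p.1 p.2}ᶜ ∩ {_p | (1 : G) ∈ A}) := by
    ext p
    by_cases h : L.Rb N p.1 p.2
    · simp [h]
    · simp [h, uu_of_not h]
  rw [e]
  exact (measurableSet_uu hN hA).union ((measurableSet_Rb hN).compl.inter (MeasurableSet.const _))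

variable (L N) in
/-- The holonomy from the fibre over `b1` to the fibre over `b`. -/
def gam (b b1 : L.B) : L.Γ := L.c (L.uu N b b1)⁻¹ b1

theorem measurable_gam (hN : IsClosed (N : Set G)) :
    Measurable fun p : L.B × L.B => L.gam N p.1 p.2 := by
  have := L.polish
  exact L.measurable_c.comp ((measurable_uu hN).inv.prodMk measurable_snd)

theorem gam_self (b : L.B) : L.gam N b b = 1 := by rw [gam, uu_self, inv_one, c_one]

theorem Rb.gam_eq (h : L.Rb N b b1) : L.gam N b1 b = L.c (L.uu N b b1) b := by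
  rw [gam, h.uu_symm, inv_inv]

theorem gam_smul (hb : b ∈ L.Free N) (hu : u ∈ N) : L.gam N (u • b) b = L.c u b := by
  rw [(Rb_smul hb hu).gam_eq, uu_eq hb hu]

theorem Rb.gam_mul (h : L.Rb N b b1) (h' : L.Rb N b1 b2) :
    L.gam N b b1 * L.gam N b1 b2 = L.gam N b b2 := by
  rw [h.symm.gam_eq, h'.symm.gam_eq, (h.trans h').symm.gam_eq, ← h'.symm.uu_mul h.symm, c_mul,
    h'.symm.uu_smul]

theorem Rb.gam_symm (h : L.Rb N b b1) : L.gam N b1 b = (L.gam N b b1)⁻¹ := by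
  rw [eq_inv_iff_mul_eq_one, h.symm.gam_mul h, gam_self]

theorem Rb.c_conj (h : L.Rb N b b1) (g : G) :
    L.c g b * L.gam N b b1 * (L.c g b1)⁻¹ = L.c (g * L.uu N b1 b * g⁻¹) (g • b1) := by
  rw [h.symm.gam_eq, c_mul, c_mul, c_inv, inv_smul_smul, h.symm.uu_smul]

theorem Rb.gam_conj (h : L.Rb N b b1) (hg : ∀ u ∈ N, g * u * g⁻¹ ∈ N)
    (hg' : ∀ u ∈ N, g⁻¹ * u * g ∈ N) :
    L.gam N (g • b) (g • b1) = L.c g b * L.gam N b b1 * (L.c g b1)⁻¹ := by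
  rw [h.c_conj, (h.symm.conj hg hg').gam_eq, h.symm.uu_conj hg hg']

theorem Rb.len_gam (h : L.Rb N b b1) :
    L.len (L.gam N b b1) ≤ L.len (L.uu N b b1) + (L.ht b + L.ht b1) := by
  have := L.len_c (L.uu N b1 b) b1
  rw [h.symm.uu_smul, ← h.symm.gam_eq, h.uu_symm, L.inv] at this
  linarith

end Lat

namespace Std

variable {G : Type} [Group G] [TopologicalSpace G] [IsTopologicalGroup G] [T2Space G] {n k : ℕ}
  (D : Std G n k) {H : Euc k}

theorem mem_N {u : G} : u ∈ D.N H ↔ ∃ Y ∈ D.np H, u = D.ex Y := D.mem_grp_grS (pos_half H)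

theorem ex_mem_N {Y : Mat n} (hY : Y ∈ D.np H) : D.ex Y ∈ D.N H := D.mem_N.2 ⟨Y, hY, rfl⟩

theorem N_closed (H : Euc k) : IsClosed (D.N H : Set G) := D.grp_grS_closed (pos_half H)

theorem a_conj_N (s : Euc k) : ∀ u ∈ D.N H, D.a s * u * (D.a s)⁻¹ ∈ D.N H := by
  intro u hu
  obtain ⟨Y, hY, rfl⟩ := D.mem_N.1 hu
  rw [D.conj_ex _ hY.1]
  exact D.ex_mem_N (D.Ad_a_grS s hY)

theorem a_conj_N' (s : Euc k) : ∀ u ∈ D.N H, (D.a s)⁻¹ * u * D.a s ∈ D.N H := by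
  intro u hu
  have := D.a_conj_N (-s) u hu
  rwa [D.a_neg, inv_inv] at this

theorem ex_inj_np {Y Z : Mat n} (hY : Y ∈ D.np H) (hZ : Z ∈ D.np H) (h : D.ex Y = D.ex Z) :
    Y = Z := by
  rw [← D.nlog_ρ_ex (pos_half H) hY, h, D.nlog_ρ_ex (pos_half H) hZ]

theorem exp_inj_np {Y Z : Mat n} (hY : Y ∈ D.np H) (hZ : Z ∈ D.np H) (h : exp Y = exp Z) :
    Y = Z := by
  rw [← D.nlog_ρ_ex (pos_half H) hY, D.ρ_ex _ hY.1, h, ← D.ρ_ex _ hZ.1,
    D.nlog_ρ_ex (pos_half H) hZ]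

/-- `ρ` is injective on the horospherical group. -/
theorem ρ_inj_N {u v : G} (hu : u ∈ D.N H) (hv : v ∈ D.N H) (h : D.ρ u = D.ρ v) : u = v := by
  obtain ⟨Y, hY, rfl⟩ := D.mem_N.1 hu
  obtain ⟨Z, hZ, rfl⟩ := D.mem_N.1 hv
  rw [D.ρ_ex _ hY.1, D.ρ_ex _ hZ.1] at h
  rw [D.exp_inj_np hY hZ h]

theorem ρ_inv_eq (g : G) : D.ρ g⁻¹ = (D.ρ g)⁻¹ := (Matrix.inv_eq_left_inv (D.ρ_inv_mul g)).symm

/-- Contraction of the horospherical algebra. -/
theorem norm_Ad_neg {c : ℝ} (hc : ∀ β ∈ D.wts, 0 < ⟪β, H⟫ → c ≤ ⟪β, H⟫) {Y : Mat n}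
    (hY : Y ∈ D.np H) {t : ℝ} (ht : 0 ≤ t) :
    ‖D.Ad (D.a (-(t • H))) Y‖ ≤ Real.exp (-(c * t)) * ‖Y‖ := by
  refine D.norm_Ad_a_le _ hY.2 fun β hβ hw => ?_
  rw [inner_neg_right, real_inner_smul_right, mul_comm c]
  exact neg_le_neg (mul_le_mul_of_nonneg_left (hc β hw hβ) ht)

theorem norm_Ad_neg' {Y : Mat n} (hY : Y ∈ D.np H) {t : ℝ} (ht : 0 ≤ t) :
    ‖D.Ad (D.a (-(t • H))) Y‖ ≤ ‖Y‖ := by
  simpa using D.norm_Ad_neg (c := 0) (fun _ _ h => h.le) hY ht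

variable {L : Lat G} {b b1 b2 : L.B}

theorem free_iff : b ∈ L.Free (D.N H) ↔ ∀ Y ∈ D.np H, D.ex Y • b = b → Y = 0 := by
  refine ⟨fun h Y hY e => D.ex_inj_np hY (zero_mem _) ?_, fun h u hu e => ?_⟩
  · rw [h _ (D.ex_mem_N hY) e, D.ex_zero]
  · obtain ⟨Y, hY, rfl⟩ := D.mem_N.1 hu
    rw [h Y hY e, D.ex_zero]

theorem free_a (s : Euc k) (hb : b ∈ L.Free (D.N H)) : D.a s • b ∈ L.Free (D.N H) :=
  Lat.free_conj (D.a_conj_N' s) hb

theorem Rb_a (s : Euc k) (h : L.Rb (D.N H) b b1) : L.Rb (D.N H) (D.a s • b) (D.a s • b1) :=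
  h.conj (D.a_conj_N s) (D.a_conj_N' s)

theorem Rb_iff : L.Rb (D.N H) b b1 ↔ b ∈ L.Free (D.N H) ∧ ∃ Y ∈ D.np H, b1 = D.ex Y • b := by
  refine and_congr_right fun _ => ⟨?_, ?_⟩
  · rintro ⟨u, hu, rfl⟩
    obtain ⟨Y, hY, rfl⟩ := D.mem_N.1 hu
    exact ⟨Y, hY, rfl⟩
  · rintro ⟨Y, hY, rfl⟩
    exact ⟨_, D.ex_mem_N hY, rfl⟩

theorem ae_free_N {m : Measure L.B} [IsFiniteMeasure m]
    (hm : MeasurePreserving (fun b : L.B => D.a (-H) • b) m m) :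
    ∀ᵐ b ∂m, b ∈ L.Free (D.N H) := by
  refine Lat.ae_free hm fun u hu => ?_
  obtain ⟨Y, hY, rfl⟩ := D.mem_N.1 hu
  refine ((D.tendsto_conj_ex hY).comp tendsto_natCast_atTop_atTop).congr fun i => ?_
  rw [Function.comp_apply, ← D.a_nsmul, ← D.a_neg, smul_neg, neg_neg]

variable (L H) in
/-- The logarithm of the element which moves `b` to `b1`. -/
def Yf (b b1 : L.B) : Mat n := NE.nlog (D.ρ (L.uu (D.N H) b b1))

theorem Yf_spec (b b1 : L.B) : D.Yf H L b b1 ∈ D.np H ∧ D.ex (D.Yf H L b b1) = L.uu (D.N H) b b1 := by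
  obtain ⟨Y, hY, e⟩ := D.mem_N.1 (Lat.uu_mem (L := L) (N := D.N H) b b1)
  rw [Yf, e, D.nlog_ρ_ex (pos_half H) hY]
  exact ⟨hY, rfl⟩

theorem Yf_mem (b b1 : L.B) : D.Yf H L b b1 ∈ D.np H := (D.Yf_spec b b1).1

theorem ex_Yf (b b1 : L.B) : D.ex (D.Yf H L b b1) = L.uu (D.N H) b b1 := (D.Yf_spec b b1).2

theorem exp_Yf (b b1 : L.B) : exp (D.Yf H L b b1) = D.ρ (L.uu (D.N H) b b1) := by
  rw [← D.ex_Yf, D.ρ_ex _ (D.Yf_mem b b1).1]

theorem exp_neg_Yf (b b1 : L.B) : exp (-D.Yf H L b b1) = D.ρ (L.uu (D.N H) b b1)⁻¹ := by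
  rw [← D.ex_Yf, ← D.ex_neg (D.Yf_mem b b1).1, D.ρ_ex _ (neg_mem (D.Yf_mem b b1).1)]

theorem Yf_smul (h : L.Rb (D.N H) b b1) : D.ex (D.Yf H L b b1) • b = b1 := by
  rw [D.ex_Yf, h.uu_smul]

theorem Yf_eq (hb : b ∈ L.Free (D.N H)) {Y : Mat n} (hY : Y ∈ D.np H) :
    D.Yf H L b (D.ex Y • b) = Y :=
  D.ex_inj_np (D.Yf_mem _ _) hY (by rw [D.ex_Yf, Lat.uu_eq hb (D.ex_mem_N hY)])

theorem Yf_self (b : L.B) : D.Yf H L b b = 0 :=
  D.ex_inj_np (D.Yf_mem _ _) (zero_mem _) (by rw [D.ex_Yf, Lat.uu_self, D.ex_zero])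

theorem eq_of_Yf (h : L.Rb (D.N H) b b1) (h0 : D.Yf H L b b1 = 0) : b = b1 := by
  rw [← D.Yf_smul h, h0, D.ex_zero, one_smul]

theorem Yf_symm (h : L.Rb (D.N H) b b1) : D.Yf H L b1 b = -D.Yf H L b b1 :=
  D.ex_inj_np (D.Yf_mem _ _) (neg_mem (D.Yf_mem _ _))
    (by rw [D.ex_neg (D.Yf_mem _ _).1, D.ex_Yf, D.ex_Yf, h.uu_symm])

theorem exp_Yf_mul (h : L.Rb (D.N H) b b1) (h' : L.Rb (D.N H) b1 b2) :
    exp (-D.Yf H L b b1) * exp (-D.Yf H L b1 b2) = exp (-D.Yf H L b b2) := by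
  rw [D.exp_neg_Yf, D.exp_neg_Yf, D.exp_neg_Yf, ← map_mul, ← mul_inv_rev, h.uu_mul h']

theorem Yf_a (s : Euc k) (h : L.Rb (D.N H) b b1) :
    D.Yf H L (D.a s • b) (D.a s • b1) = D.Ad (D.a s) (D.Yf H L b b1) :=
  D.ex_inj_np (D.Yf_mem _ _) (D.Ad_a_grS s (D.Yf_mem _ _)) (by
    rw [← D.conj_ex _ (D.Yf_mem _ _).1, D.ex_Yf, D.ex_Yf,
      h.uu_conj (D.a_conj_N s) (D.a_conj_N' s)])

theorem exp_Yf_a (s : Euc k) (h : L.Rb (D.N H) b b1) :
    exp (-D.Yf H L (D.a s • b) (D.a s • b1)) =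
      D.ρ (D.a s) * exp (-D.Yf H L b b1) * (D.ρ (D.a s))⁻¹ := by
  rw [D.exp_neg_Yf, D.exp_neg_Yf, h.uu_conj (D.a_conj_N s) (D.a_conj_N' s), ← D.ρ_inv_eq,
    ← map_mul, ← map_mul]
  congr 1
  group

/-- Two points of the orbit of `b` whose positions differ by `exp Y`. -/
theorem eq_smul_of_exp (h : L.Rb (D.N H) b b1) (h' : L.Rb (D.N H) b b2) {Y : Mat n}
    (hY : Y ∈ D.np H) (e : exp (-D.Yf H L b b2) = exp (-D.Yf H L b b1) * exp Y) :
    b2 = D.ex (-Y) • b1 := by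
  rw [D.exp_neg_Yf, D.exp_neg_Yf, ← D.ρ_ex _ hY.1, ← map_mul] at e
  have e1 := D.ρ_inj_N ((D.N H).inv_mem (Lat.uu_mem _ _))
    ((D.N H).mul_mem ((D.N H).inv_mem (Lat.uu_mem _ _)) (D.ex_mem_N hY)) e
  rw [inv_eq_iff_eq_inv, mul_inv_rev, inv_inv] at e1
  rw [← h'.uu_smul, e1, mul_smul, h.uu_smul, D.ex_neg hY.1]

variable [MeasurableSpace G] [BorelSpace G]

theorem measurable_Yf : Measurable fun p : L.B × L.B => D.Yf H L p.1 p.2 :=
  (Unip_nlog_cont.comp D.cont).measurable.comp (Lat.measurable_uu (D.N_closed H))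

theorem measurable_exp_Yf : Measurable fun p : L.B × L.B => exp (-D.Yf H L p.1 p.2) := by
  have := L.polish
  simp only [D.exp_neg_Yf]
  exact D.cont.measurable.comp (Lat.measurable_uu (D.N_closed H)).inv

theorem gam_eq (b b1 : L.B) : L.gam (D.N H) b b1 = L.c (D.ex (-D.Yf H L b b1)) b1 := by
  rw [D.ex_neg (D.Yf_mem _ _).1, D.ex_Yf, Lat.gam]

theorem gam_a (s : Euc k) (h : L.Rb (D.N H) b b1) :
    L.gam (D.N H) (D.a s • b) (D.a s • b1) =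
      L.c (D.a s) b * L.gam (D.N H) b b1 * (L.c (D.a s) b1)⁻¹ :=
  h.gam_conj (D.a_conj_N s) (D.a_conj_N' s)

variable [ConnectedSpace G]

theorem len_uu (b b1 : L.B) : D.len (L.uu (D.N H) b b1) ≤ ‖D.Yf H L b b1‖ := by
  rw [← D.ex_Yf]
  exact D.len_ex_le (D.Yf_mem _ _).1

theorem dist_Rb (hL : ∀ g, L.len g = D.len g) (h : L.Rb (D.N H) b b1) :
    dist b b1 ≤ ‖D.Yf H L b b1‖ := by
  have := L.dist_smul_self (L.uu (D.N H) b b1) b
  rw [h.uu_smul, dist_comm, hL] at this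
  exact this.trans (D.len_uu b b1)

/-- The holonomy along the orbit of the Cartan subgroup. -/
theorem len_hol (hL : ∀ g, L.len g = D.len g) (h : L.Rb (D.N H) b b1) (s : Euc k) :
    L.len (L.c (D.a s) b * L.gam (D.N H) b b1 * (L.c (D.a s) b1)⁻¹ : L.Γ) ≤
      ‖D.Ad (D.a s) (D.Yf H L b b1)‖ + (L.ht (D.a s • b) + L.ht (D.a s • b1)) := by
  rw [← D.gam_a s h, ← D.Yf_a s h]
  refine (D.Rb_a s h).len_gam.trans (add_le_add ?_ le_rfl)
  rw [hL]
  exact D.len_uu _ _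

/-- The holonomy along the backward orbit. -/
theorem len_hol_neg (hL : ∀ g, L.len g = D.len g) (h : L.Rb (D.N H) b b1) (i : ℕ) :
    L.len (L.c (D.a (-(i • H))) b * L.gam (D.N H) b b1 * (L.c (D.a (-(i • H))) b1)⁻¹ : L.Γ) ≤
      ‖D.Yf H L b b1‖ + (L.ht (D.a (-(i • H)) • b) + L.ht (D.a (-(i • H)) • b1)) := by
  refine (D.len_hol hL h _).trans (add_le_add ?_ le_rfl)
  rw [← Nat.cast_smul_eq_nsmul ℝ]
  exact D.norm_Ad_neg' (D.Yf_mem _ _) i.cast_nonneg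

end Std

end Pool.Agent.P.MP_d483fb_an.Z
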