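import Pool.Agent.P.MP_d483fb_an.Z.Grp.Gauge
import Pool.Agent.P.MP_d483fb_an.Z.Lie.Std1

/-!
Block diagonal matrices with two blocks.
-/

open scoped Matrix Matrix.Norms.Operator Topology
open NormedSpace Filter Set

set_option linter.unusedSectionVars false

noncomputable section

namespace Pool.Agent.P.MP_d483fb_an.Z.Geo

variable {ι κ : Type} [Fintype ι] [DecidableEq ι] [Fintype κ] [DecidableEq κ]

/-- The block diagonal matrix with blocks `A` and `B`. -/
def blk (A : Matrix ι ι ℝ) (B : Matrix κ κ ℝ) : Matrix (ι ⊕ κ) (ι ⊕ κ) ℝ :=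
  Matrix.fromBlocks A 0 0 B

variable (A A' : Matrix ι ι ℝ) (B B' : Matrix κ κ ℝ)

@[simp] theorem blk_ll (i j : ι) : blk A B (.inl i) (.inl j) = A i j := rfl

@[simp] theorem blk_lr (i : ι) (j : κ) : blk A B (.inl i) (.inr j) = 0 := rfl

@[simp] theorem blk_rl (i : κ) (j : ι) : blk A B (.inr i) (.inl j) = 0 := rfl

@[simp] theorem blk_rr (i j : κ) : blk A B (.inr i) (.inr j) = B i j := rfl

@[simp] theorem blk_11 : (blk A B).toBlocks₁₁ = A := rfl

@[simp] theorem blk_12 : (blk A B).toBlocks₁₂ = 0 := rfl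

@[simp] theorem blk_21 : (blk A B).toBlocks₂₁ = 0 := rfl

@[simp] theorem blk_22 : (blk A B).toBlocks₂₂ = B := rfl

theorem blk_mul : blk A B * blk A' B' = blk (A * A') (B * B') := by
  simp [blk, Matrix.fromBlocks_multiply]

theorem blk_one : blk (1 : Matrix ι ι ℝ) (1 : Matrix κ κ ℝ) = 1 := by
  exact Matrix.fromBlocks_one

theorem blk_eta {T : Matrix (ι ⊕ κ) (ι ⊕ κ) ℝ} (h1 : T.toBlocks₁₂ = 0) (h2 : T.toBlocks₂₁ = 0) :
    blk T.toBlocks₁₁ T.toBlocks₂₂ = T := by
  rw [blk, ← h1, ← h2, Matrix.fromBlocks_toBlocks]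

theorem blk_det : (blk A B).det = A.det * B.det := by
  exact Matrix.det_fromBlocks_zero₂₁ A 0 B

theorem blk_inv (hA : IsUnit A.det) (hB : IsUnit B.det) : (blk A B)⁻¹ = blk A⁻¹ B⁻¹ := by
  apply Matrix.inv_eq_right_inv
  rw [blk_mul, Matrix.mul_nonsing_inv _ hA, Matrix.mul_nonsing_inv _ hB, blk_one]

theorem blk_diagonal (u : ι ⊕ κ → ℝ) :
    blk (Matrix.diagonal fun i => u (.inl i)) (Matrix.diagonal fun i => u (.inr i)) =
      Matrix.diagonal u := by
  rw [blk, Matrix.fromBlocks_diagonal]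
  congr 1
  funext i
  cases i <;> rfl

theorem norm_blk_le {r : ℝ} (hA : ‖A‖ ≤ r) (hB : ‖B‖ ≤ r) : ‖blk A B‖ ≤ r := by
  have hr : 0 ≤ r := (norm_nonneg _).trans hA
  lift r to NNReal using hr
  have hA' : ‖A‖₊ ≤ r := by exact_mod_cast hA
  have hB' : ‖B‖₊ ≤ r := by exact_mod_cast hB
  have : ‖blk A B‖₊ ≤ r := by
    rw [Matrix.linfty_opNNNorm_def] at hA' hB' ⊢
    refine Finset.sup_le fun i _ => ?_
    rw [Fintype.sum_sum_type]
    cases i with
    | inl i =>
      have := (Finset.le_sup (f := fun i => ∑ j, ‖A i j‖₊) (Finset.mem_univ i)).trans hA'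
      simpa using this
    | inr i =>
      have := (Finset.le_sup (f := fun i => ∑ j, ‖B i j‖₊) (Finset.mem_univ i)).trans hB'
      simpa using this
  exact_mod_cast this

theorem norm_11_le (T : Matrix (ι ⊕ κ) (ι ⊕ κ) ℝ) : ‖T.toBlocks₁₁‖ ≤ ‖T‖ := by
  have : ‖T.toBlocks₁₁‖₊ ≤ ‖T‖₊ := by
    rw [Matrix.linfty_opNNNorm_def, Matrix.linfty_opNNNorm_def]
    refine Finset.sup_le fun i _ => ?_
    refine le_trans ?_ (Finset.le_sup (f := fun i => ∑ j, ‖T i j‖₊) (Finset.mem_univ (.inl i)))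
    simp only [Fintype.sum_sum_type]
    exact le_self_add
  exact_mod_cast this

theorem abs_entry_le (i j : ι) : |A i j| ≤ ‖A‖ := by
  exact Z.abs_entry_le A i j

theorem norm_one_le' : ‖(1 : Matrix ι ι ℝ)‖ ≤ 1 := by
  rw [← Matrix.diagonal_one, Matrix.linfty_opNorm_diagonal]
  exact (pi_norm_le_iff_of_nonneg zero_le_one).2 fun _ => by simp

theorem measurable_blk {Y : Type} [MeasurableSpace Y] {f : Y → Matrix ι ι ℝ} {g : Y → Matrix κ κ ℝ}
    (hf : Measurable f) (hg : Measurable g) : Measurable fun y => blk (f y) (g y) := by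
  refine measurable_pi_lambda _ fun i => measurable_pi_lambda _ fun j => ?_
  rcases i with i | i <;> rcases j with j | j
  · exact (measurable_pi_apply j).comp ((measurable_pi_apply i).comp hf)
  · exact measurable_const
  · exact measurable_const
  · exact (measurable_pi_apply j).comp ((measurable_pi_apply i).comp hg)

theorem measurable_exp_neg : Measurable fun Y : Matrix ι ι ℝ => exp (-Y) := by
  have h : Continuous fun Y : Matrix ι ι ℝ => exp (-Y) :=
    (exp_continuous (𝔸 := Matrix ι ι ℝ)).comp continuous_neg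
  exact h.measurable

/-- `blk` as a ring homomorphism. -/
def blkHom : Matrix ι ι ℝ × Matrix κ κ ℝ →+* Matrix (ι ⊕ κ) (ι ⊕ κ) ℝ where
  toFun p := blk p.1 p.2
  map_one' := blk_one
  map_mul' p q := (blk_mul _ _ _ _).symm
  map_zero' := Matrix.fromBlocks_zero
  map_add' p q := by simp [blk, Matrix.fromBlocks_add]

theorem continuous_blk :
    Continuous fun p : Matrix ι ι ℝ × Matrix κ κ ℝ => blk p.1 p.2 :=
  continuous_fst.matrix_fromBlocks continuous_const continuous_const continuous_snd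

theorem exp_blk : exp (blk A B) = blk (exp A) (exp B) := by
  have h : blkHom (exp (A, B)) = exp (blkHom (A, B)) :=
    map_exp (blkHom (ι := ι) (κ := κ)) continuous_blk (A, B)
  have h1 : (exp (A, B)).1 = exp A := Prod.fst_exp (A, B)
  have h2 : (exp (A, B)).2 = exp B := Prod.snd_exp (A, B)
  rw [← h1, ← h2]
  exact h.symm

theorem exp_22 {V : Matrix (ι ⊕ κ) (ι ⊕ κ) ℝ}
    (h : ∀ t : ℝ, (exp (t • V)).toBlocks₁₂ = 0 ∧ (exp (t • V)).toBlocks₂₁ = 0) (t : ℝ) :
    exp (t • V.toBlocks₂₂) = (exp (t • V)).toBlocks₂₂ := by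
  have hd := hasDerivAt_exp_smul_const (𝕂 := ℝ) V 0
  rw [zero_smul, exp_zero, one_mul] at hd
  have key : ∀ i j, (∀ t : ℝ, exp (t • V) i j = 0) → V i j = 0 := by
    intro i j h0
    have h1 : HasDerivAt (fun t : ℝ => exp (t • V) i j) (V i j) 0 :=
      (LinearMap.toContinuousLinearMap (Matrix.entryLinearMap ℝ ℝ i j)).hasFDerivAt.comp_hasDerivAt
        0 hd
    have h2 : HasDerivAt (fun t : ℝ => exp (t • V) i j) 0 0 := by
      simp only [h0]
      exact hasDerivAt_const _ _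
    exact h1.unique h2
  have h12 : V.toBlocks₁₂ = 0 := by
    ext i j
    exact key _ _ fun t => congrFun (congrFun (h t).1 i) j
  have h21 : V.toBlocks₂₁ = 0 := by
    ext i j
    exact key _ _ fun t => congrFun (congrFun (h t).2 i) j
  have e : t • V = blk (t • V.toBlocks₁₁) (t • V.toBlocks₂₂) := by
    conv_lhs => rw [← blk_eta h12 h21]
    simp [blk, Matrix.fromBlocks_smul]
  rw [e, exp_blk, blk_22]

/-- Block diagonal matrices with blocks in `U` and `V`. -/
def blkM (U : Submonoid (Matrix ι ι ℝ)) (V : Submonoid (Matrix κ κ ℝ)) :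
    Submonoid (Matrix (ι ⊕ κ) (ι ⊕ κ) ℝ) where
  carrier := {T | ∃ A ∈ U, ∃ B ∈ V, T = blk A B}
  one_mem' := ⟨1, U.one_mem, 1, V.one_mem, blk_one.symm⟩
  mul_mem' := by
    rintro _ _ ⟨A, hA, B, hB, rfl⟩ ⟨A', hA', B', hB', rfl⟩
    exact ⟨_, U.mul_mem hA hA', _, V.mul_mem hB hB', blk_mul _ _ _ _⟩

theorem mem_blkM {U : Submonoid (Matrix ι ι ℝ)} {V : Submonoid (Matrix κ κ ℝ)}
    {T : Matrix (ι ⊕ κ) (ι ⊕ κ) ℝ} : T ∈ blkM U V ↔ ∃ A ∈ U, ∃ B ∈ V, T = blk A B := Iff.rfl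

theorem blkM_cl {U : Submonoid (Matrix ι ι ℝ)} {V : Submonoid (Matrix κ κ ℝ)}
    (hU : IsClosed (U : Set (Matrix ι ι ℝ)))
    (hV : ∀ T, IsUnit T.det → T ∈ closure (V : Set (Matrix κ κ ℝ)) → T ∈ V)
    {T : Matrix (ι ⊕ κ) (ι ⊕ κ) ℝ} (h : IsUnit T.det)
    (hT : T ∈ closure (blkM U V : Set (Matrix (ι ⊕ κ) (ι ⊕ κ) ℝ))) : T ∈ blkM U V := by
  have hc : ∀ i j : ι ⊕ κ, Continuous fun T : Matrix (ι ⊕ κ) (ι ⊕ κ) ℝ => T i j :=
    fun i j => (continuous_apply j).comp (continuous_apply i)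
  have hz : ∀ i j : ι ⊕ κ, (∀ S ∈ blkM U V, S i j = 0) → T i j = 0 := fun i j h0 =>
    (isClosed_eq (hc i j) continuous_const).closure_subset_iff.2 h0 hT
  have h12 : T.toBlocks₁₂ = 0 := by
    ext i j
    refine hz _ _ ?_
    rintro _ ⟨A, -, B, -, rfl⟩
    rfl
  have h21 : T.toBlocks₂₁ = 0 := by
    ext i j
    refine hz _ _ ?_
    rintro _ ⟨A, -, B, -, rfl⟩
    rfl
  have c1 : Continuous fun T : Matrix (ι ⊕ κ) (ι ⊕ κ) ℝ => T.toBlocks₁₁ :=
    continuous_pi fun i => continuous_pi fun j => hc _ _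
  have c2 : Continuous fun T : Matrix (ι ⊕ κ) (ι ⊕ κ) ℝ => T.toBlocks₂₂ :=
    continuous_pi fun i => continuous_pi fun j => hc _ _
  have m1 : T.toBlocks₁₁ ∈ closure (U : Set (Matrix ι ι ℝ)) := by
    refine map_mem_closure c1 hT ?_
    rintro _ ⟨A, hA, B, -, rfl⟩
    exact hA
  have m2 : T.toBlocks₂₂ ∈ closure (V : Set (Matrix κ κ ℝ)) := by
    refine map_mem_closure c2 hT ?_
    rintro _ ⟨A, -, B, hB, rfl⟩
    exact hB
  have e := blk_eta h12 h21
  have hd : IsUnit (T.toBlocks₂₂).det := by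
    rw [← e, blk_det] at h
    exact isUnit_of_mul_isUnit_right h
  exact ⟨_, hU.closure_subset m1, _, hV _ hd m2, e.symm⟩

theorem nil_11 (w : Wt (ι ⊕ κ)) (hT : w.Tri (blk A B)) (hu : IsUnit (blk A B).det)
    (hA : ∀ i j, (A - 1) i j ≠ 0 → w.wa (.inl j) < w.wa (.inl i)) :
    (w.nil (blk A B)).toBlocks₁₁ = A := by
  ext i j
  have e := congrFun (congrFun (hT.nil_mul_lev hu) (.inl i)) (.inl j)
  rw [Matrix.mul_apply, Finset.sum_eq_single (.inl j)] at e
  · have h1 : A j j = 1 := by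
      by_contra h1
      exact lt_irrefl _ (hA j j (by simpa [sub_eq_zero] using h1))
    rw [Wt.lev_apply, if_pos rfl, blk_ll, h1, mul_one] at e
    exact e
  · rintro (k | k) - hk
    · rw [Wt.lev_apply]
      split_ifs with hw
      · have hk' : k ≠ j := fun h => hk (by rw [h])
        have : A k j = 0 := by
          by_contra h1
          exact (hA k j (by simpa [Matrix.one_apply_ne hk'] using h1)).ne' hw
        rw [blk_ll, this, mul_zero]
      · rw [mul_zero]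
    · rw [Wt.lev_apply, blk_rl, ite_self, mul_zero]
  · simp

theorem nil_col (w : Wt (ι ⊕ κ)) (hT : w.Tri (blk A B)) (hu : IsUnit (blk A B).det) {e : κ}
    (he : B e e = 1) (hw : ∀ m, m ≠ e → w.wa (.inr e) < w.wa (.inr m)) (m : κ) :
    w.nil (blk A B) (.inr m) (.inr e) = B m e := by
  have e0 := congrFun (congrFun (hT.nil_mul_lev hu) (.inr m)) (.inr e)
  rw [Matrix.mul_apply, Finset.sum_eq_single (.inr e)] at e0
  · rw [Wt.lev_apply, if_pos rfl, blk_rr, he, mul_one] at e0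
    exact e0
  · rintro (k | k) - hk
    · rw [Wt.lev_apply, blk_lr, ite_self, mul_zero]
    · have hk' : k ≠ e := fun h => hk (by rw [h])
      rw [Wt.lev_apply, if_neg (hw k hk').ne', mul_zero]
  · simp

end Pool.Agent.P.MP_d483fb_an.Z.Geo
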