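import Pool.Agent.P.MP_d483fb_an.Z.Geo.Defs
import Pool.Agent.P.MP_d483fb_an.Z.Erg.Generic

/-!
Generic directions, and a measurable selection lemma.
-/

open scoped InnerProductSpace RealInnerProductSpace Topology
open MeasureTheory Filter Set

set_option linter.unusedSectionVars false

noncomputable section

namespace Pool.Agent.P.MP_d483fb_an.Z.Geo

open Os

theorem inner_vec {k : ℕ} (l : Euc k →L[ℝ] ℝ) (s : Euc k) : ⟪vec l, s⟫ = l s :=
  InnerProductSpace.toDual_symm_apply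

theorem vec_inj {k : ℕ} : Function.Injective (vec (k := k)) :=
  (InnerProductSpace.toDual ℝ (Euc k)).symm.injective

theorem vec_zero {k : ℕ} : vec (0 : Euc k →L[ℝ] ℝ) = 0 := map_zero _

theorem vec_add {k : ℕ} (l l' : Euc k →L[ℝ] ℝ) : vec (l + l') = vec l + vec l' := map_add _ _ _

theorem vec_neg {k : ℕ} (l : Euc k →L[ℝ] ℝ) : vec (-l) = -vec l := map_neg _ _

variable {G : Type} [Group G] [TopologicalSpace G] {n k d : ℕ}

theorem lam_mem (D : Std G n k) (lam : Fin d → Euc k →L[ℝ] ℝ) (i : Fin n) :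
    D.lam i ∈ Lam D lam := AddSubgroup.subset_closure (Or.inl ⟨i, rfl⟩)

theorem vec_mem (D : Std G n k) {lam : Fin d → Euc k →L[ℝ] ℝ} {l : Euc k →L[ℝ] ℝ}
    (h : l ∈ AddSubgroup.closure (range lam)) : vec l ∈ Lam D lam := by
  induction h using AddSubgroup.closure_induction with
  | mem x hx =>
    obtain ⟨i, rfl⟩ := hx
    exact AddSubgroup.subset_closure (Or.inr ⟨i, rfl⟩)
  | zero => rw [vec_zero]; exact zero_mem _
  | add x y _ _ hx hy => rw [vec_add]; exact add_mem hx hy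
  | neg x _ hx => rw [vec_neg]; exact neg_mem hx

instance (D : Std G n k) (lam : Fin d → Euc k →L[ℝ] ℝ) : Countable (Lam D lam) := by
  have h : Countable (Submodule.span ℤ (range (Sum.elim D.lam fun i => vec (lam i)))) :=
    inferInstance
  rw [Sum.elim_range] at h
  have e : Lam D lam = (Submodule.span ℤ (range D.lam ∪ range fun i => vec (lam i))).toAddSubgroup :=
    (Submodule.span_int_eq_addSubgroupClosure _).symm
  rw [e]
  exact h

theorem orth_ne_top {v : Euc k} (hv : v ≠ 0) : (ℝ ∙ v)ᗮ ≠ ⊤ := by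
  rwa [Ne, Submodule.orthogonal_eq_top_iff, Submodule.span_singleton_eq_bot]

theorem exists_gnr (D : Std G n k) (lam : Fin d → Euc k →L[ℝ] ℝ) {X : Type} [MeasurableSpace X]
    [StandardBorelSpace X] {μ : Measure X} [IsProbabilityMeasure μ] (S : Sys (Euc k) X μ)
    (hm : Measurable fun p : Euc k × X => S.act p.1 p.2)
    (he : ∀ U : Set X, MeasurableSet U → (∀ s, S.act s ⁻¹' U =ᵐ[μ] U) → μ U = 0 ∨ μ Uᶜ = 0)
    {O : Set (Euc k)} (hO : IsOpen O) (hne : O.Nonempty) :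
    ∃ Ha ∈ O, ∃ Ph, Gnr D lam Ha Ph ∧ Ergodic (S.act Ha) μ := by
  obtain ⟨Ha, h1, h2, h3⟩ := exists_ergodic_generic S.zero S.add S.mp hm
    (fun U hU hi => eventuallyConst_set.2 ((he U hU hi).symm.imp (fun h => mem_ae_iff.2 h)
      fun h => measure_eq_zero_iff_ae_notMem.1 h))
    (fun v : {v : Lam D lam // (v : Euc k) ≠ 0} => (ℝ ∙ (v.1 : Euc k))ᗮ)
    (fun v => orth_ne_top v.2) hO hne
  let z : Lam D lam × Lam D lam → Euc k := fun p =>
    ⟪(p.2 : Euc k), Ha⟫ • (p.1 : Euc k) - ⟪(p.1 : Euc k), Ha⟫ • (p.2 : Euc k)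
  obtain ⟨Ph, -, h4⟩ := exists_mem_open_notMem
    (fun p : {p : Lam D lam × Lam D lam // z p ≠ 0} => (ℝ ∙ z p.1)ᗮ)
    (fun p => orth_ne_top p.2) isOpen_univ univ_nonempty
  refine ⟨Ha, h1, Ph, ⟨fun v hv h => ?_, fun v hv v' hv' hp hp' h => ?_⟩, h3⟩
  · by_contra h0
    exact h2 ⟨⟨v, hv⟩, h0⟩ (Submodule.mem_orthogonal_singleton_iff_inner_right.2 h)
  · have h0 : z (⟨v, hv⟩, ⟨v', hv'⟩) = 0 := by
      by_contra h0
      refine h4 ⟨_, h0⟩ (Submodule.mem_orthogonal_singleton_iff_inner_right.2 ?_)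
      show ⟪⟪v', Ha⟫ • v - ⟪v, Ha⟫ • v', Ph⟫ = 0
      rw [div_eq_div_iff hp.ne' hp'.ne'] at h
      rw [inner_sub_left, real_inner_smul_left, real_inner_smul_left]
      linarith
    refine ⟨⟪v, Ha⟫ / ⟪v', Ha⟫, div_pos hp hp', ?_⟩
    have h5 : ⟪v', Ha⟫ • v = ⟪v, Ha⟫ • v' := sub_eq_zero.1 h0
    rw [div_eq_inv_mul, mul_smul, ← h5, inv_smul_smul₀ hp'.ne']

theorem exists_rates (D : Std G n k) (lam : Fin d → Euc k →L[ℝ] ℝ) (a : Euc k) :
    ∃ s2 : ℝ, 0 < s2 ∧ (∀ i, 0 < lam i a → s2 < lam i a) ∧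
      ∀ β ∈ D.wts, 0 < ⟪β, a⟫ → s2 ≤ ⟪β, a⟫ := by
  have h : ∀ x : ℝ, ∀ᶠ c in 𝓝[>] (0 : ℝ), 0 < x → c < x := fun x => by
    by_cases hb : 0 < x
    · filter_upwards [nhdsWithin_le_nhds (Iio_mem_nhds hb)] with c hc _ using hc
    · exact Eventually.of_forall fun c hc => absurd hc hb
  have h1 := eventually_all.2 fun i => h (lam i a)
  have h2 := (Finset.eventually_all D.wts).2 fun β _ => h ⟪β, a⟫
  obtain ⟨c, ⟨h3, h4⟩, h5⟩ := ((h1.and h2).and self_mem_nhdsWithin).exists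
  exact ⟨c, h5, h3, fun β hβ hp => (h4 β hβ hp).le⟩

theorem exists_sel {X Y B : Type} [MeasurableSpace X] [StandardBorelSpace X] [MeasurableSpace Y]
    [StandardBorelSpace Y] [Nonempty Y] [MeasurableSpace B] [StandardBorelSpace B] {Φ : X → Y → B}
    (hΦ : Measurable fun p : X × Y => Φ p.1 p.2) {X0 : Set X} (h0 : MeasurableSet X0)
    (hi : ∀ x ∈ X0, Function.Injective (Φ x)) :
    ∃ g : X → B → Y, (Measurable fun p : X × B => g p.1 p.2) ∧ ∀ x ∈ X0, ∀ y, g x (Φ x y) = y := by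
  have := h0.standardBorel
  let F : X0 × Y → X × B := fun p => (p.1, Φ p.1 p.2)
  have h1 : Measurable fun p : X0 × Y => (p.1 : X) := measurable_subtype_coe.comp measurable_fst
  have hF : Measurable F := h1.prodMk (hΦ.comp (h1.prodMk measurable_snd))
  have hinj : Function.Injective F := by
    rintro ⟨x, y⟩ ⟨x', y'⟩ e
    obtain rfl : x = x' := Subtype.ext (congrArg Prod.fst e)
    exact congrArg (Prod.mk x) (hi x x.2 (congrArg Prod.snd e))
  obtain ⟨g, hg, e⟩ := (hF.measurableEmbedding hinj).exists_measurable_extend measurable_snd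
    fun _ => ‹_›
  exact ⟨fun x b => g (x, b), hg, fun x hx y => congrFun e (⟨x, hx⟩, y)⟩

end Pool.Agent.P.MP_d483fb_an.Z.Geo
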