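import Pool.Agent.P.MP_d483fb_an.Z.Geo.Near
import Pool.Agent.P.MP_d483fb_an.Z.Geo.Gnr
import Pool.Agent.P.MP_d483fb_an.Z.Geo.Blk
import Pool.Agent.P.MP_d483fb_an.Z.Geo.Base
import Pool.Agent.P.MP_d483fb_an.Z.NF.Meas

/-!
The unstable leaf structure of the suspension: the leaf relation and the algebraic data.
-/

open scoped Matrix Matrix.Norms.Operator InnerProductSpace RealInnerProductSpace Topology
open MeasureTheory Filter Set NormedSpace

set_option linter.unusedSectionVars false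

noncomputable section

namespace Pool.Agent.P.MP_d483fb_an.Z.Geo.Asm

open Os NF

variable {G : Type} [Group G] [TopologicalSpace G] [IsTopologicalGroup G] [ConnectedSpace G]
  [T2Space G] [MeasurableSpace G] [BorelSpace G] {n k : ℕ} {D : Std G n k} {B : Type}
  [MetricSpace B] [ProperSpace B] [MeasurableSpace B] [BorelSpace B] [MulAction G B]
  [ContinuousSMul G B] {X Γ M : Type} [MetricSpace X] [ProperSpace X] [MeasurableSpace X]
  [BorelSpace X] [MulAction G X] {μ : Measure X} [Group Γ] [MeasurableSpace Γ] [Countable Γ]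
  [DiscreteMeasurableSpace Γ] [MetricSpace M] [MeasurableSpace M] [BorelSpace M]
  [SecondCountableTopology M] {α : Γ →* Equiv.Perm M} {len : Γ → ℝ} {d : ℕ}
  {S : Sys (Euc k) X μ} {J : Jets α len d} {K : Skew S J} {lam : Fin d → Euc k →L[ℝ] ℝ}
  {κ : Type} [Fintype κ] [DecidableEq κ]

/-- All the inputs of the construction. -/
structure Dat (D : Std G n k) (B : Type) [TopologicalSpace B] [MeasurableSpace B] [MulAction G B]
    (K : Skew S J) (lam : Fin d → Euc k →L[ℝ] ℝ) (κ : Type) [Fintype κ] [DecidableEq κ] where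
  I : Inp D B K
  a : Euc k
  Ph : Euc k
  s1 : ℝ
  s2 : ℝ
  F : Fib K lam a s1 s2 κ
  gnr : Gnr D lam a Ph
  erg : Ergodic (S.act a) μ
  pos : 0 < s1
  lt : s1 < s2
  gap : ∀ β ∈ D.wts, 0 < ⟪β, a⟫ → s2 ≤ ⟪β, a⟫

theorem pt_mem (K : Skew S J) (a : Euc k) (s : ℝ) (x : X) : K.pt x ∈ K.Wu a s x :=
  ⟨0, fun i => by rw [Skew.mv, ← K.pt_act, dist_self, zero_mul]⟩

namespace Dat

variable (A : Dat D B K lam κ) {x y z : X}

theorem free (hx : x ∈ A.F.X0) {Y : Mat n} (hY : Y ∈ D.np A.a)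
    (h : D.ex Y • A.I.π x = A.I.π x) : Y = 0 := by
  have h2 := A.pos.trans A.lt
  obtain ⟨q, E⟩ := A.F.est (A.s2 / 4) (by positivity)
  exact A.I.free A.gap (by linarith) (q0 := q x) (ε := A.s2 / 4)
    (fun i => (E.h_le _ (A.F.inv0 _ _ hx)).trans (E.slow_b i x hx)) hY h

theorem inj (hx : x ∈ A.F.X0) {Y Z : Mat n} (hY : Y ∈ D.np A.a) (hZ : Z ∈ D.np A.a)
    (h : D.ex Y • A.I.π x = D.ex Z • A.I.π x) : Y = Z := by
  obtain ⟨W, hW, e⟩ := D.mem_N.1 ((D.N A.a).mul_mem ((D.N A.a).inv_mem (D.ex_mem_N hZ))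
    (D.ex_mem_N hY))
  have h0 := A.free hx hW (by rw [← e, mul_smul, h, inv_smul_smul])
  rw [h0, D.ex_zero, inv_mul_eq_one] at e
  exact (D.ex_inj_np hZ hY e).symm

theorem exists_Y : ∃ Y : X → X → Mat n, (Measurable fun p : X × X => Y p.1 p.2) ∧
    (∀ x y, Y x y ∈ D.np A.a) ∧ ∀ x ∈ A.F.X0, ∀ y, ∀ Z ∈ D.np A.a,
      A.I.π y = D.ex Z • A.I.π x → Y x y = Z := by
  have h1 : MeasurableSet (D.np A.a : Set (Mat n)) :=
    (D.np A.a).closed_of_finiteDimensional.measurableSet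
  have : StandardBorelSpace (D.np A.a) := h1.standardBorel
  have hc : Continuous fun p : X × D.np A.a => D.ex p.2 • A.I.π p.1 :=
    (D.ex_cont.comp_continuous (continuous_subtype_val.comp continuous_snd)
      fun p => p.2.2.1).smul (A.I.π_cont.comp continuous_fst)
  obtain ⟨g, hg, h⟩ := exists_sel (Φ := fun x (Y : D.np A.a) => D.ex Y • A.I.π x) hc.measurable
    A.F.meas0 fun x hx Y Z e => Subtype.ext (A.inj hx Y.2 Z.2 e)
  refine ⟨fun x y => g x (A.I.π y), measurable_subtype_coe.comp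
    (hg.comp (measurable_fst.prodMk (A.I.π_cont.measurable.comp measurable_snd))),
    fun x y => (g x _).2, fun x hx y Z hZ e => ?_⟩
  show (g x (A.I.π y) : Mat n) = Z
  rw [e, h x hx ⟨Z, hZ⟩]

/-- The position of the base point of `y` with respect to the base point of `x`. -/
def Y : X → X → Mat n := A.exists_Y.choose

theorem measY : Measurable fun p : X × X => A.Y p.1 p.2 := A.exists_Y.choose_spec.1

theorem Y_mem (x y : X) : A.Y x y ∈ D.np A.a := A.exists_Y.choose_spec.2.1 x y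

theorem Y_eq (hx : x ∈ A.F.X0) {Z : Mat n} (hZ : Z ∈ D.np A.a)
    (h : A.I.π y = D.ex Z • A.I.π x) : A.Y x y = Z := A.exists_Y.choose_spec.2.2 x hx y Z hZ h

/-- The group element between the base points. -/
def u (x y : X) : G := D.ex (A.Y x y)

/-- The holonomy. -/
def γ (x y : X) : Γ := A.I.c (A.u x y)⁻¹ (A.I.π y)

/-- The leaf relation. -/
structure R (x y : X) : Prop where
  left : x ∈ A.F.X0
  right : y ∈ A.F.X0
  base : A.I.π y = A.u x y • A.I.π x
  mem : α (A.γ x y) (K.pt y) ∈ K.Wu A.a A.s1 x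

theorem u_mem (x y : X) : A.u x y ∈ D.N A.a := D.ex_mem_N (A.Y_mem x y)

theorem u_eq (hx : x ∈ A.F.X0) {g : G} (hg : g ∈ D.N A.a) (h : A.I.π y = g • A.I.π x) :
    A.u x y = g := by
  obtain ⟨Z, hZ, rfl⟩ := D.mem_N.1 hg
  rw [u, A.Y_eq hx hZ h]

theorem exp_neg (x y : X) : exp (-A.Y x y) = D.ρ (A.u x y)⁻¹ := by
  rw [u, ← D.ex_neg (A.Y_mem x y).1, D.ρ_ex _ (neg_mem (A.Y_mem x y).1)]

theorem measu : Measurable fun p : X × X => A.u p.1 p.2 := by
  have hc : Continuous fun Y : D.np A.a => D.ex Y :=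
    D.ex_cont.comp_continuous continuous_subtype_val fun p => p.2.1
  exact hc.measurable.comp (A.measY.subtype_mk (h := fun p => A.Y_mem p.1 p.2))

theorem measγ : Measurable fun p : X × X => A.γ p.1 p.2 :=
  A.I.meas_c.comp (A.measu.inv.prodMk (A.I.π_cont.measurable.comp measurable_snd))

theorem measR : MeasurableSet {p : X × X | A.R p.1 p.2} := by
  have := D.nm.polish
  have h1 : Measurable fun p : X × X => A.u p.1 p.2 • A.I.π p.1 :=
    (continuous_smul (M := G) (X := B)).measurable.comp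
      (A.measu.prodMk (A.I.π_cont.measurable.comp measurable_fst))
  have h2 : Measurable fun p : X × X => (p.1, α (A.γ p.1 p.2) (K.pt p.2)) :=
    measurable_fst.prodMk (K.measurable_α.comp (A.measγ.prodMk (K.measPt.comp measurable_snd)))
  have h := (measurable_fst A.F.meas0).inter ((measurable_snd A.F.meas0).inter
    ((measurableSet_eq_fun (A.I.π_cont.measurable.comp measurable_snd) h1).inter
      (h2 (K.measurableSet_Wu A.a A.s1))))
  convert h using 1
  ext p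
  exact ⟨fun h => ⟨h.1, h.2, h.3, h.4⟩, fun h => ⟨h.1, h.2.1, h.2.2.1, h.2.2.2⟩⟩

variable {A}

theorem R.hol (h : A.R x y) : K.Hol A.a (K.L * (1 + ‖A.Y x y‖)) x y (A.γ x y) ∧
    K.Hol A.a (K.L * (1 + ‖A.Y x y‖)) y x (A.γ x y)⁻¹ := A.I.hol_np (A.Y_mem x y) h.base

theorem R.ok (h : A.R x y) : Ok K A.F.X0 A.a A.s1 x y (A.γ x y) := ⟨h.1, h.2, ⟨_, h.hol⟩, h.mem⟩

theorem R.eq (h : A.R x y) : y = A.u x y • A.I.j (A.I.π x) (α (A.γ x y) (K.pt y)) := by
  rw [A.I.smul_j, ← Equiv.Perm.mul_apply, ← map_mul, γ, h.base, A.I.c_inv, mul_inv_cancel,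
    map_one, Equiv.Perm.one_apply, ← h.base, A.I.j_pt]

theorem pos_of (hx : x ∈ A.F.X0) {Z : Mat n} (hZ : Z ∈ D.np A.a) {p : M}
    (h : y = D.ex Z • A.I.j (A.I.π x) p) :
    A.Y x y = Z ∧ A.I.π y = A.u x y • A.I.π x ∧ α (A.γ x y) (K.pt y) = p := by
  have h1 : A.I.π y = D.ex Z • A.I.π x := by rw [h, A.I.π_smul, A.I.π_j]
  have h2 := A.Y_eq hx hZ h1
  refine ⟨h2, by rwa [u, h2], ?_⟩
  rw [γ, u, h2, ← A.I.pt_smul, h, inv_smul_smul, A.I.pt_j]

theorem u_self (hx : x ∈ A.F.X0) : A.u x x = 1 := A.u_eq hx (one_mem _) (one_smul _ _).symm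

theorem γ_self (hx : x ∈ A.F.X0) : A.γ x x = 1 := by rw [γ, u_self hx, inv_one, A.I.c_one]

theorem R_refl (hx : x ∈ A.F.X0) : A.R x x :=
  ⟨hx, hx, by rw [u_self hx, one_smul], by
    rw [γ_self hx, map_one]
    exact pt_mem K _ _ _⟩

theorem R.u_symm (h : A.R x y) : A.u y x = (A.u x y)⁻¹ :=
  A.u_eq h.2 (inv_mem (A.u_mem x y)) (by rw [h.base, inv_smul_smul])

theorem R.Y_symm (h : A.R x y) : A.Y y x = -A.Y x y :=
  A.Y_eq h.2 (neg_mem (A.Y_mem x y)) (by
    rw [D.ex_neg (A.Y_mem x y).1, h.base, u, inv_smul_smul])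

theorem R.γ_symm (h : A.R x y) : A.γ y x = (A.γ x y)⁻¹ := by
  rw [γ, γ, h.u_symm, h.base, A.I.c_inv, inv_inv, inv_inv]

theorem R.symm (h : A.R x y) : A.R y x :=
  ⟨h.2, h.1, by rw [h.u_symm, h.base, inv_smul_smul], by
    rw [h.γ_symm]
    exact (A.F.ok_symm _ _ _ h.ok).mem⟩

theorem R.u_mul (h : A.R x y) (h' : A.R y z) : A.u x z = A.u y z * A.u x y :=
  A.u_eq h.1 (mul_mem (A.u_mem y z) (A.u_mem x y)) (by rw [mul_smul, ← h.base, ← h'.base])

theorem R.γ_mul (h : A.R x y) (h' : A.R y z) : A.γ x z = A.γ x y * A.γ y z := by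
  rw [γ, γ, γ, h.u_mul h', mul_inv_rev, A.I.c_mul, h'.base, inv_smul_smul]

theorem R.trans (h : A.R x y) (h' : A.R y z) : A.R x z :=
  ⟨h.1, h'.2, by rw [h.u_mul h', mul_smul, ← h.base, ← h'.base], by
    rw [h.γ_mul h', map_mul]
    exact A.F.ok_mem _ _ _ h.ok _ h'.mem⟩

theorem R.u_act (h : A.R x y) (s : Euc k) :
    A.u (S.act s x) (S.act s y) = D.a s * A.u x y * (D.a s)⁻¹ :=
  A.u_eq (A.F.inv0 s x h.1) (D.a_conj_N s _ (A.u_mem x y)) (by
    rw [A.I.act_eq, A.I.act_eq, A.I.π_smul, A.I.π_smul, mul_smul, mul_smul, inv_smul_smul,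
      ← h.base])

theorem R.γ_act (h : A.R x y) (s : Euc k) :
    A.γ (S.act s x) (S.act s y) = K.β s x * A.γ x y * (K.β s y)⁻¹ := by
  have e : (A.u x y)⁻¹ • A.I.π y = A.I.π x := by rw [h.base, inv_smul_smul]
  rw [γ, γ, h.u_act, mul_inv_rev, mul_inv_rev, inv_inv, A.I.act_eq, A.I.π_smul, ← mul_assoc,
    A.I.c_mul, inv_smul_smul, A.I.c_inv, A.I.c_mul, e, A.I.β_eq, A.I.β_eq]

theorem R.act (h : A.R x y) (s : Euc k) : A.R (S.act s x) (S.act s y) :=
  ⟨A.F.inv0 s x h.1, A.F.inv0 s y h.2, by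
    rw [h.u_act, A.I.act_eq, A.I.act_eq, A.I.π_smul, A.I.π_smul, mul_smul, mul_smul,
      inv_smul_smul, ← h.base], by
    rw [h.γ_act, K.pt_act, ← Equiv.Perm.mul_apply, ← map_mul, inv_mul_cancel_right, map_mul]
    exact A.F.mv_mem s x h.1 _ h.mem⟩

variable (A)

/-- The weights. -/
def om : Fin n ⊕ κ → Euc k := Sum.elim D.lam fun m => vec (A.F.om m)

theorem om_mem (i : Fin n ⊕ κ) : A.om i ∈ Lam D lam := by
  cases i with
  | inl i => exact lam_mem D lam i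
  | inr m => exact vec_mem D (A.F.om_mem m)

theorem om_eq {i j : Fin n ⊕ κ} (h : ⟪A.om i, A.a⟫ = ⟪A.om j, A.a⟫) : A.om i = A.om j :=
  sub_eq_zero.1 (A.gnr.g1 _ (sub_mem (A.om_mem i) (A.om_mem j))
    (by rw [inner_sub_left, h, sub_self]))

/-- The grading. -/
def w : Wt (Fin n ⊕ κ) where
  wa i := ⟪A.om i, A.a⟫
  wb i := ⟪A.om i, A.Ph⟫
  hab i j h := by rw [A.om_eq h]

theorem wa_inl (i : Fin n) : A.w.wa (.inl i) = ⟪D.lam i, A.a⟫ := rfl

theorem wa_inr (m : κ) : A.w.wa (.inr m) = A.F.om m A.a := inner_vec _ _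

/-- The element of the Cartan subspace with coordinates `s`. -/
def v (s : ℝ × ℝ) : Euc k := s.1 • A.a + s.2 • A.Ph

/-- The change of charts. -/
def T (x y : X) : Matrix (Fin n ⊕ κ) (Fin n ⊕ κ) ℝ :=
  blk (exp (-A.Y x y)) (A.F.Tm x y (A.γ x y))

/-- The flow in the charts. -/
def L (s : ℝ × ℝ) (x : X) : Matrix (Fin n ⊕ κ) (Fin n ⊕ κ) ℝ :=
  blk (D.ρ (D.a (A.v s))) (A.F.Lm (A.v s) x)

theorem v_zero : A.v 0 = 0 := by simp [v]

theorem v_add (s t : ℝ × ℝ) : A.v (s + t) = A.v s + A.v t := by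
  simp only [v, Prod.fst_add, Prod.snd_add, add_smul]
  abel

theorem v_fst (t : ℝ) : A.v (t, 0) = t • A.a := by simp [v]

theorem dil_eq (s t : ℝ) : A.w.dil s t =
    blk (D.ρ (D.a (A.v (s, t)))) (Matrix.diagonal fun m => Real.exp (A.F.om m (A.v (s, t)))) := by
  rw [Wt.dil, ← blk_diagonal, D.ρ_a]
  congr 2
  · funext i
    simp [w, v, om, inner_add_right, inner_smul_right]
  · funext m
    simp [w, v, om, inner_vec]

theorem exp_str (x y : X) (i j : Fin n) (h : (exp (-A.Y x y) - 1) i j ≠ 0) :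
    A.w.wa (.inl j) < A.w.wa (.inl i) := by
  have h1 := neg_mem (D.one_sub_exp_mem (Std.pos_half A.a) (neg_mem (A.Y_mem x y).2))
  rw [neg_sub] at h1
  have h2 : 0 < ⟪D.lam i - D.lam j, A.a⟫ := h1 i j h
  rwa [inner_sub_left, sub_pos] at h2

theorem ρ_unit (g : G) : IsUnit (D.ρ g).det := Matrix.isUnit_det_of_left_inverse (D.ρ_inv_mul g)

variable {A}

theorem R.T_tri (h : A.R x y) : A.w.Tri (A.T x y) := by
  rintro (i | i) (j | j) hij
  · by_cases e : i = j
    · rw [e]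
    · refine (A.exp_str x y i j ?_).le
      rwa [Matrix.sub_apply, Matrix.one_apply_ne e, sub_zero]
  · exact absurd rfl hij
  · exact absurd rfl hij
  · rw [wa_inr, wa_inr]
    exact A.F.T_tri _ _ _ h.ok i j hij

theorem R.T_inj (h : A.R x y) (hl : A.w.Lev (A.T x y)) : x = y := by
  have h1 : exp (-A.Y x y) = 1 := by
    ext i j
    by_contra hne
    have h2 := A.exp_str x y i j (by rwa [Matrix.sub_apply, sub_ne_zero])
    have e : i ≠ j := fun e => h2.ne (by rw [e])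
    rw [Matrix.one_apply_ne e] at hne
    exact h2.ne' (hl (.inl i) (.inl j) hne)
  have h2 : A.u x y = 1 := by
    rw [A.exp_neg, ← map_one D.ρ] at h1
    exact inv_eq_one.1 (D.ρ_inj_N (inv_mem (A.u_mem x y)) (one_mem _) h1)
  have h3 := A.F.T_inj x y x _ _ h.ok (R_refl h.1).ok fun m => by
    rw [γ_self h.1, A.F.T_self x h.1]
    by_cases e : m = A.F.e0
    · rw [e, A.F.Gen_e0 _ (A.F.T_mem _ _ _ h.ok), Matrix.one_apply_eq]
    · rw [Matrix.one_apply_ne e]
      by_contra hne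
      have h4 := hl (.inr m) (.inr A.F.e0) hne
      rw [wa_inr, wa_inr, A.F.om_e0] at h4
      exact (A.F.om_pos m e).ne' h4
  have h4 := h.eq
  rw [h3, h2, γ_self h.1, map_one, one_smul, Equiv.Perm.one_apply, A.I.j_pt] at h4
  exact h4.symm

theorem R.P1 {y' : X} (h : A.R x y) (h' : A.R x y')
    (e : ∀ m, A.T x y (.inr m) (.inr A.F.e0) = A.T x y' (.inr m) (.inr A.F.e0)) {Z : Mat n}
    (hZ : Z ∈ D.np A.a) (e' : exp (-A.Y x y') = exp (-A.Y x y) * exp Z) : y' = D.ex (-Z) • y := by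
  rw [A.exp_neg, A.exp_neg, ← D.ρ_ex _ hZ.1, ← map_mul] at e'
  have e1 := D.ρ_inj_N (inv_mem (A.u_mem _ _)) (mul_mem (inv_mem (A.u_mem _ _)) (D.ex_mem_N hZ)) e'
  rw [inv_eq_iff_eq_inv, mul_inv_rev, inv_inv] at e1
  rw [h'.eq, ← A.F.T_inj x y y' _ _ h.ok h'.ok e, e1, mul_smul, ← h.eq, D.ex_neg hZ.1]

variable (A)

/-- The algebraic part of the leaf structure. -/
def pre : Pre X μ (Fin n ⊕ κ) where
  w := A.w
  f s := S.act (A.v s)
  f_zero x := by rw [v_zero, S.zero]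
  f_add s t x := by rw [v_add, S.add]
  mp s := S.mp _
  erg := by
    rw [v_fst, one_smul]
    exact A.erg
  X0 := A.F.X0
  meas0 := A.F.meas0
  ae0 := A.F.ae0
  inv0 s := A.F.inv0 _
  R := A.R
  measR := A.measR
  R_mem _ _ h := h.1
  R_refl _ := R_refl
  R_symm _ _ := R.symm
  R_trans _ _ _ := R.trans
  R_f _ _ _ h := h.act _
  T := A.T
  measT := measurable_blk (measurable_exp_neg.comp A.measY)
    (A.F.measT.comp (measurable_fst.prodMk (measurable_snd.prodMk A.measγ)))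
  T_self x hx := by
    rw [T, A.exp_neg, u_self hx, γ_self hx, inv_one, map_one, A.F.T_self x hx, blk_one]
  T_mul x y z h h' := by
    have h2 := (h.trans h').ok
    rw [h.γ_mul h'] at h2
    rw [T, T, T, blk_mul, A.exp_neg, A.exp_neg, A.exp_neg, ← map_mul, ← mul_inv_rev,
      ← h.u_mul h', A.F.T_mul x y z _ _ h.ok h'.ok h2, h.γ_mul h']
  T_tri _ _ := R.T_tri
  T_inj _ _ := R.T_inj
  L := A.L
  measL s := measurable_blk measurable_const (A.F.measL _)
  L_zero x hx := by rw [L, v_zero, D.a_zero, map_one, A.F.L_zero x hx, blk_one]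
  L_add s t x hx := by rw [L, L, L, blk_mul, v_add, D.a_add, map_mul, A.F.L_add _ _ x hx]
  L_lev s x hx := by
    rintro (i | i) (j | j) hij
    · rw [L, blk_ll, D.ρ_a] at hij
      obtain rfl : i = j := by
        by_contra hne
        exact hij (Matrix.diagonal_apply_ne _ hne)
      rfl
    · exact absurd rfl hij
    · exact absurd rfl hij
    · rw [wa_inr, wa_inr, A.F.L_res _ x hx i j hij]
  T_f s x y h := by
    have h2 := (h.act (A.v s)).ok
    rw [h.γ_act] at h2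
    rw [T, T, L, L, blk_inv _ _ (ρ_unit _) (A.F.Gen_unit _ (A.F.L_mem _ y h.2)), blk_mul, blk_mul,
      h.γ_act, A.F.T_act _ x y _ h.ok h2, A.exp_neg, A.exp_neg, h.u_act, ← D.ρ_inv_eq, ← map_mul,
      ← map_mul]
    congr 2
    group

end Dat

end Pool.Agent.P.MP_d483fb_an.Z.Geo.Asm
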