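import Pool.Agent.P.MP_d483fb_an.Z.LS.Defs
import Pool.Agent.P.MP_d483fb_an.Z.Grp.Gauge

/-!
The leaf structure of an extension of a homogeneous space is a leaf structure: bounds for the
changes of charts and flow boxes follow from the metric estimates along orbits.
-/

open scoped Matrix Matrix.Norms.Operator Topology ENNReal
open MeasureTheory Filter Set

set_option linter.unusedSectionVars false
set_option linter.unusedVariables false

noncomputable section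

namespace Pool.Agent.P.MP_d483fb_an.Z

namespace Geo

section Alg

variable {X : Type} [MeasurableSpace X] {μ : Measure X} {ι : Type} [Fintype ι] [DecidableEq ι]
  (S : Pre X μ ι) {x y : X} {ε : ℝ} {q : X → ℝ}

theorem a_add (i j : ℤ) (x : X) : S.a (i + j) x = S.a i (S.a j x) := by
  unfold Pre.a
  rw [← S.f_add]
  simp

theorem a_zero (x : X) : S.a 0 x = x := by
  have e : ((((0 : ℤ) : ℝ), (0 : ℝ)) : ℝ × ℝ) = 0 := by simp
  unfold Pre.a
  rw [e, S.f_zero]

theorem a_comp {i j l : ℤ} (h : i + j = l) (x : X) : S.a i (S.a j x) = S.a l x := by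
  rw [← a_add, h]

theorem a_mem (hx : x ∈ S.X0) (i : ℤ) : S.a i x ∈ S.X0 := S.inv0 _ _ hx

theorem R_a (h : S.R x y) (i : ℤ) : S.R (S.a i x) (S.a i y) := S.R_f _ _ _ h

theorem R_mem' (h : S.R x y) : y ∈ S.X0 := S.R_mem _ _ (S.R_symm _ _ h)

theorem T_mul_T (h : S.R x y) : S.T x y * S.T y x = 1 := by
  rw [S.T_mul x y x h (S.R_symm _ _ h), S.T_self x (S.R_mem _ _ h)]

theorem T_unit (h : S.R x y) : IsUnit (S.T x y).det :=
  Matrix.isUnit_det_of_right_inverse (T_mul_T S h)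

theorem T_inv (h : S.R x y) : (S.T x y)⁻¹ = S.T y x := Matrix.inv_eq_right_inv (T_mul_T S h)

theorem L_unit (hx : x ∈ S.X0) (s : ℝ × ℝ) : IsUnit (S.L s x).det := by
  refine Matrix.isUnit_det_of_left_inverse (B := S.L (-s) (S.f s x)) ?_
  rw [← S.L_add _ _ _ hx, neg_add_cancel, S.L_zero _ hx]

theorem n_nil (h : S.R x y) : S.w.Nil univ (S.n x y) := (S.T_tri _ _ h).nil_nil (T_unit S h)

theorem T_a (h : S.R x y) (i : ℤ) :
    S.T (S.a i x) (S.a i y) = S.La i x * S.T x y * (S.La i y)⁻¹ := S.T_f _ _ _ h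

theorem n_a (h : S.R x y) (i : ℤ) :
    S.n (S.a i x) (S.a i y) = S.La i x * S.n x y * (S.La i x)⁻¹ := by
  unfold Pre.n
  rw [T_a S h]
  refine (S.T_tri _ _ h).nil_conj (S.L_lev _ _ (S.R_mem _ _ h)) (S.L_lev _ _ (R_mem' S h)).inv ?_
  exact Matrix.isUnit_nonsing_inv_det _ (L_unit S (R_mem' S h) _)

/-- A bound for all first weights. -/
def wt (w : Wt ι) : ℝ := ∑ i, |w.wa i|

theorem wt_nonneg (w : Wt ι) : 0 ≤ wt w := Finset.sum_nonneg fun _ _ => abs_nonneg _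

theorem norm_dil (w : Wt ι) (s : ℝ) : ‖w.dil s 0‖ ≤ Real.exp (wt w * |s|) := by
  unfold Wt.dil
  rw [Matrix.linfty_opNorm_diagonal]
  refine (pi_norm_le_iff_of_nonneg (Real.exp_pos _).le).2 fun i => ?_
  rw [Real.norm_eq_abs, abs_of_pos (Real.exp_pos _)]
  refine Real.exp_le_exp.2 ?_
  have h1 : |w.wa i| ≤ wt w :=
    Finset.single_le_sum (f := fun i => |w.wa i|) (fun _ _ => abs_nonneg _) (Finset.mem_univ i)
  have h2 : s * w.wa i ≤ |s| * |w.wa i| := (le_abs_self _).trans_eq (abs_mul _ _)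
  have h3 := mul_le_mul_of_nonneg_left h1 (abs_nonneg s)
  nlinarith

theorem norm_pair (s : ℝ) : ‖((s, 0) : ℝ × ℝ)‖ = |s| := by simp [Prod.norm_def]

variable {S}

theorem grow_a (hq : S.Temp ε q) (hx : x ∈ S.X0) (i : ℤ) :
    ‖S.La i x * S.w.dil (-(i : ℝ)) 0‖ ≤ q x * Real.exp (ε * |(i : ℝ)|) ∧
      ‖S.w.dil i 0 * (S.La i x)⁻¹‖ ≤ q x * Real.exp (ε * |(i : ℝ)|) := by
  have h := hq.grow x hx ((i : ℝ), 0)
  rw [norm_pair] at h
  simpa [Pre.La] using h

theorem norm_La (hq : S.Temp ε q) (hx : x ∈ S.X0) (i : ℤ) :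
    ‖S.La i x‖ ≤ q x * Real.exp ((ε + wt S.w) * |(i : ℝ)|) ∧
      ‖(S.La i x)⁻¹‖ ≤ q x * Real.exp ((ε + wt S.w) * |(i : ℝ)|) := by
  obtain ⟨h1, h2⟩ := grow_a hq hx i
  have e : S.w.dil (-(i : ℝ)) 0 * S.w.dil i 0 = 1 := by simpa using S.w.dil_neg_mul i 0
  have hq0 : 0 ≤ q x * Real.exp (ε * |(i : ℝ)|) := (norm_nonneg _).trans h1
  have e2 : q x * Real.exp ((ε + wt S.w) * |(i : ℝ)|) =
      q x * Real.exp (ε * |(i : ℝ)|) * Real.exp (wt S.w * |(i : ℝ)|) := by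
    rw [add_mul, Real.exp_add, mul_assoc]
  rw [e2]
  constructor
  · have : S.La i x = S.La i x * S.w.dil (-(i : ℝ)) 0 * S.w.dil i 0 := by
      rw [mul_assoc, e, mul_one]
    rw [this]
    exact (norm_mul_le _ _).trans (mul_le_mul h1 (norm_dil _ _) (norm_nonneg _) hq0)
  · have : (S.La i x)⁻¹ = S.w.dil (-(i : ℝ)) 0 * (S.w.dil i 0 * (S.La i x)⁻¹) := by
      rw [← mul_assoc, e, one_mul]
    rw [this, mul_comm (q x * _)]
    have h3 := norm_dil S.w (-(i : ℝ))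
    rw [abs_neg] at h3
    exact (norm_mul_le _ _).trans (mul_le_mul h3 h2 (norm_nonneg _) (Real.exp_pos _).le)

theorem N_le_of_T (h : S.R x y) {B : ℝ} (hB : 1 ≤ B) (h1 : ‖S.T x y‖ ≤ B) (h2 : ‖S.T y x‖ ≤ B) :
    S.N x y ≤ (B * B) ^ S.w.gi := by
  refine Wt.N_le_of_norm (one_le_mul_of_one_le_of_one_le hB hB) ?_
  unfold Pre.n Wt.nil
  rw [← (S.T_tri _ _ h).lev_inv (T_unit S h), T_inv S h]
  exact (norm_mul_le _ _).trans
    (mul_le_mul h1 ((S.w.norm_lev_le _).trans h2) (norm_nonneg _) (by linarith))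

/-- The gauge after `i` steps. -/
theorem N_a (hq : S.Temp ε q) (hε : 0 ≤ ε) (h : S.R x y) (i : ℤ) :
    S.N (S.a i x) (S.a i y) ≤
      S.w.C * (q x * Real.exp (ε * |(i : ℝ)|)) ^ S.w.C * (Real.exp i * S.N x y) := by
  have hx := S.R_mem _ _ h
  obtain ⟨h1, h2⟩ := grow_a hq hx i
  have e : S.w.dil (-(i : ℝ)) 0 * S.w.dil i 0 = 1 := by simpa using S.w.dil_neg_mul i 0
  have e1 : S.n (S.a i x) (S.a i y) = (S.La i x * S.w.dil (-(i : ℝ)) 0) *
      (S.w.dil i 0 * S.n x y * S.w.dil (-(i : ℝ)) 0) * (S.w.dil i 0 * (S.La i x)⁻¹) := by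
    rw [n_a S h]
    simp only [mul_assoc]
    rw [← mul_assoc (S.w.dil (-(i : ℝ)) 0) (S.w.dil i 0) (S.n x y * _), e, one_mul,
      ← mul_assoc (S.w.dil (-(i : ℝ)) 0) (S.w.dil i 0), e, one_mul]
  have hn : S.w.Nil univ (S.w.dil i 0 * S.n x y * S.w.dil (-(i : ℝ)) 0) := by
    simpa using (n_nil S h).dil_conj (i : ℝ) 0
  have hl : S.w.Lev (S.La i x) := S.L_lev _ _ hx
  have hB : 1 ≤ q x * Real.exp (ε * |(i : ℝ)|) :=
    one_le_mul_of_one_le_of_one_le (hq.one_le x) (Real.one_le_exp (by positivity))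
  unfold Pre.N
  rw [e1, ← Wt.N_dil]
  exact hn.N_conj_le (hl.mul (S.w.dil_lev _ _)) ((S.w.dil_lev _ _).mul hl.inv) hB h1 h2

theorem temp_pow (hq : S.Temp ε q) (hε : 0 ≤ ε) {C ε' : ℝ} {p : ℕ} (hC : 1 ≤ C) (hp : 1 ≤ p)
    (h : p * ε ≤ ε') : S.Temp ε' fun x => C * q x ^ p := by
  have hp' : (1 : ℝ) ≤ p := by exact_mod_cast hp
  have hεε : ε ≤ ε' := le_trans (le_mul_of_one_le_left hε hp') h
  have q0 : ∀ x, 0 ≤ q x := fun x => zero_le_one.trans (hq.one_le x)
  have hle : ∀ x, q x ≤ C * q x ^ p := fun x =>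
    (le_self_pow₀ (hq.one_le x) (by omega)).trans
      (le_mul_of_one_le_left (pow_nonneg (q0 x) _) hC)
  have key : ∀ (u v c t : ℝ), 0 ≤ u → 0 ≤ v → 0 ≤ c → 0 ≤ t → u ≤ c * v * Real.exp (ε * t) →
      C * u ^ p ≤ c ^ p * (C * v ^ p) * Real.exp (ε' * t) := by
    intro u v c t hu hv hc ht huv
    have h1 := pow_le_pow_left₀ hu huv p
    rw [mul_pow, mul_pow, ← Real.exp_nat_mul] at h1
    have h2 : Real.exp (p * (ε * t)) ≤ Real.exp (ε' * t) :=
      Real.exp_le_exp.2 (by rw [← mul_assoc]; exact mul_le_mul_of_nonneg_right h ht)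
    have h3 := h1.trans (mul_le_mul_of_nonneg_left h2 (by positivity))
    calc C * u ^ p ≤ C * (c ^ p * v ^ p * Real.exp (ε' * t)) :=
          mul_le_mul_of_nonneg_left h3 (by linarith)
      _ = _ := by ring
  refine ⟨(hq.meas.pow_const p).const_mul C, fun x => (hq.one_le x).trans (hle x),
    fun x hx i => ?_, ?_, fun x hx s => ?_⟩
  · have := key _ _ 1 _ (q0 _) (q0 x) zero_le_one (abs_nonneg (i : ℝ))
      (by rw [one_mul]; exact hq.slow x hx i)
    simpa using this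
  · obtain ⟨c, hc⟩ := hq.slowC
    refine ⟨|c| ^ p, fun x hx s => key _ _ _ _ (q0 _) (q0 x) (abs_nonneg c) (norm_nonneg s) ?_⟩
    exact (hc x hx s).trans (mul_le_mul_of_nonneg_right
      (mul_le_mul_of_nonneg_right (le_abs_self c) (q0 x)) (Real.exp_pos _).le)
  · have h2 : q x * Real.exp (ε * ‖s‖) ≤ C * q x ^ p * Real.exp (ε' * ‖s‖) :=
      mul_le_mul (hle x) (Real.exp_le_exp.2 (mul_le_mul_of_nonneg_right hεε (norm_nonneg s)))
        (Real.exp_pos _).le ((q0 x).trans (hle x))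
    exact ⟨(hq.grow x hx s).1.trans h2, (hq.grow x hx s).2.trans h2⟩

theorem temp_mono (hq : S.Temp ε q) (hε : 0 ≤ ε) {ε' : ℝ} (h : ε ≤ ε') : S.Temp ε' q := by
  simpa using temp_pow hq hε (C := 1) (p := 1) (ε' := ε') le_rfl le_rfl (by simpa using h)

end Alg

section Met

variable {G : Type} [Group G] [TopologicalSpace G] {n k : ℕ} {D : Std G n k} {B : Type}
  [TopologicalSpace B] [MeasurableSpace B] [MulAction G B] {X : Type} [MetricSpace X]
  [MeasurableSpace X] [MulAction G X] {μ : Measure X} {κ : Type} [Fintype κ] [DecidableEq κ]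
  {S : GeoPre D B X μ κ} {x y : X} {ε : ℝ} {q : X → ℝ}

/-- The backward orbits approach each other at the rate `c` with the constant `K`. -/
def Sh (S : GeoPre D B X μ κ) (c K : ℝ) (x y : X) : Prop :=
  ∀ i : ℕ, dist (S.toPre.a (-i) x) (S.toPre.a (-i) y) ≤ K * Real.exp (-c * i)

theorem est_mono (h : S.Est ε q) (h1 : ∀ x, 1 ≤ q x) {ε' : ℝ} {q' : X → ℝ} (hε : ε ≤ ε')
    (hq : ∀ x, q x ≤ q' x) : S.Est ε' q' := by
  have q0 : ∀ x, 0 < q x := fun x => one_pos.trans_le (h1 x)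
  have hi : ∀ x, 1 / q' x ≤ 1 / q x := fun x => one_div_le_one_div_of_le (q0 x) (hq x)
  refine ⟨fun r => ?_, fun x hx y hy hs => ?_, fun x hx y t ht i hit => ?_, ?_⟩
  · obtain ⟨K, hK⟩ := h.G1 r
    refine ⟨|K|, fun x y hR hN i => (hK x y hR hN i).trans ?_⟩
    exact mul_le_mul_of_nonneg_right (mul_le_mul (le_abs_self K) (hq x) (q0 x).le (abs_nonneg K))
      (Real.exp_pos _).le
  · have h2 := h.G2c x hx y hy fun i => (hs i).trans
      (div_le_div_of_nonneg_left (Real.exp_pos _).le (q0 x) (hq x))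
    have h3 : q x * q y ≤ q' x * q' y := mul_le_mul (hq x) (hq y) (q0 y).le ((q0 x).le.trans (hq x))
    exact ⟨h2.1.trans h3, h2.2.trans h3⟩
  · refine (h.G3 x hx y t (fun i hi' => (ht i hi').trans (hi _)) i hit).trans (add_le_add ?_ ?_)
    · exact mul_le_mul_of_nonneg_right (hq _) (Real.exp_pos _).le
    · refine mul_le_mul_of_nonneg_right (mul_le_mul (hq x) (Real.exp_le_exp.2 ?_)
        (Real.exp_pos _).le ((q0 x).le.trans (hq x))) dist_nonneg
      exact mul_le_mul_of_nonneg_right hε (Nat.cast_nonneg t)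
  · obtain ⟨C, hC⟩ := h.G7
    exact ⟨C, fun x hx y t ht => hC x hx y t fun i hi' => (ht i hi').trans (hi _)⟩

theorem slow_nat (hq : S.toPre.Temp ε q) (hx : x ∈ S.X0) (m : ℕ) :
    q (S.toPre.a m x) ≤ q x * Real.exp (ε * m) ∧
      q (S.toPre.a (-m) x) ≤ q x * Real.exp (ε * m) := by
  have h1 := hq.slow x hx m
  have h2 := hq.slow x hx (-m)
  simp only [Int.cast_neg, Int.cast_natCast, abs_neg, Nat.abs_cast] at h1 h2
  exact ⟨h1, h2⟩

theorem exp_lim {c : ℝ} (hc : 0 < c) (K : ℝ) :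
    Tendsto (fun m : ℕ => K * Real.exp (-c * m)) atTop (𝓝 0) := by
  have h : Tendsto (fun m : ℕ => -c * (m : ℝ)) atTop atBot :=
    tendsto_natCast_atTop_atTop.const_mul_atTop_of_neg (by linarith)
  simpa using (Real.tendsto_exp_atBot.comp h).const_mul K

theorem exists_nat_exp {c : ℝ} (hc : 0 < c) (K : ℝ) {r : ℝ} (hr : 0 < r) :
    ∃ m0 : ℕ, ∀ m ≥ m0, K * Real.exp (-c * m) ≤ r :=
  eventually_atTop.1 ((exp_lim hc K).eventually (ge_mem_nhds hr))

/-- Close backward orbits approach each other at the better rate. -/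
theorem upgrade (hq : S.toPre.Temp ε q) (hE : S.Est ε q) (hε : 2 * ε < S.kap) (hx : x ∈ S.X0)
    {K : ℝ} (hs : Sh S S.kap K x y)
    (hc : ∀ j : ℕ, dist (S.toPre.a (-j) x) (S.toPre.a (-j) y) ≤ 1 / q (S.toPre.a (-j) x)) :
    Sh S S.kap' (q x) x y := by
  intro j
  have hl := (exp_lim (c := S.kap - 2 * ε) (by linarith) (q x * K)).const_add
    (q x * Real.exp (-S.kap' * j))
  rw [add_zero] at hl
  refine ge_of_tendsto hl (eventually_atTop.2 ⟨j, fun m hm => ?_⟩)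
  have e : ∀ i ≤ m, ∀ z, S.toPre.a (i : ℕ) (S.toPre.a (-m) z) = S.toPre.a (-((m - i : ℕ) : ℤ)) z :=
    fun i hi z => a_comp _ (by omega) z
  have h3 := hE.G3 _ (a_mem _ hx (-m)) (S.toPre.a (-m) y) m (fun i hi => by
    rw [e i hi, e i hi]; exact hc _) (m - j) (Nat.sub_le _ _)
  rw [e _ (Nat.sub_le _ _), e _ (Nat.sub_le _ _), e m le_rfl, Nat.sub_sub_self hm, Nat.sub_self,
    Nat.cast_sub hm] at h3
  simp only [Nat.cast_zero, neg_zero, a_zero, sub_sub_cancel] at h3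
  refine h3.trans (add_le_add le_rfl ?_)
  have h4 := (slow_nat hq hx m).2
  have h5 := hs m
  have q0 : 0 ≤ q x := zero_le_one.trans (hq.one_le x)
  calc q (S.toPre.a (-m) x) * Real.exp (ε * m) * dist (S.toPre.a (-m) x) (S.toPre.a (-m) y)
      ≤ q x * Real.exp (ε * m) * Real.exp (ε * m) * (K * Real.exp (-S.kap * m)) :=
        mul_le_mul (mul_le_mul_of_nonneg_right h4 (Real.exp_pos _).le) h5 dist_nonneg
          (by positivity)
    _ = q x * K * Real.exp (-(S.kap - 2 * ε) * m) := by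
        rw [show -(S.kap - 2 * ε) * (m : ℝ) = ε * m + ε * m + -S.kap * m by ring, Real.exp_add,
          Real.exp_add]
        ring

theorem lip' (S : GeoPre D B X μ κ) (i : ℤ) {m : ℕ} (h : |(i : ℝ)| ≤ m) (x y : X) :
    dist (S.toPre.a i x) (S.toPre.a i y) ≤ Real.exp (|S.Lp| * m) * dist x y := by
  refine (S.lip i x y).trans (mul_le_mul_of_nonneg_right (Real.exp_le_exp.2 ?_) dist_nonneg)
  exact mul_le_mul (le_abs_self _) h (abs_nonneg _) (abs_nonneg _)

theorem exists_upgrade (hq : S.toPre.Temp ε q) (hE : S.Est ε q) (hε0 : 0 ≤ ε)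
    (hε : 2 * ε < S.kap) (q0 K : ℝ) : ∃ η, 0 < η ∧ ∀ x ∈ S.X0, ∀ y, q x ≤ q0 → Sh S S.kap K x y →
      dist x y ≤ η → Sh S S.kap' q0 x y := by
  obtain ⟨m0, hm0⟩ := exists_nat_exp (c := S.kap - ε) (by linarith) (K * q0) one_pos
  refine ⟨Real.exp (-(|S.Lp| + ε) * m0) / max q0 1, by positivity, fun x hx y h0 hs hd j => ?_⟩
  have q1 : 1 ≤ q0 := (hq.one_le x).trans h0
  rw [max_eq_left q1] at hd
  refine (upgrade hq hE hε hx hs (fun i => ?_) j).trans
    (mul_le_mul_of_nonneg_right h0 (Real.exp_pos _).le)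
  have h4 : q (S.toPre.a (-i) x) ≤ q0 * Real.exp (ε * i) :=
    (slow_nat hq hx i).2.trans (mul_le_mul_of_nonneg_right h0 (Real.exp_pos _).le)
  refine le_trans ?_ (one_div_le_one_div_of_le (one_pos.trans_le (hq.one_le _)) h4)
  rw [le_div_iff₀ (by positivity)]
  rcases le_total m0 i with hi | hi
  · refine le_trans (mul_le_mul_of_nonneg_right (hs i) (by positivity)) (le_trans (le_of_eq ?_)
      (hm0 i hi))
    rw [show -(S.kap - ε) * (i : ℝ) = -S.kap * i + ε * i by ring, Real.exp_add]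
    ring
  · have hi' : (i : ℝ) ≤ m0 := by exact_mod_cast hi
    have h5 := (lip' S (-i) (m := m0) (by simpa using hi') x y).trans
      (mul_le_mul_of_nonneg_left hd (Real.exp_pos _).le)
    refine (mul_le_mul_of_nonneg_right h5 (by positivity)).trans ?_
    have e : Real.exp (|S.Lp| * m0) * (Real.exp (-(|S.Lp| + ε) * m0) / q0) *
        (q0 * Real.exp (ε * i)) = Real.exp (ε * i - ε * m0) := by
      rw [show ε * (i : ℝ) - ε * m0 = |S.Lp| * m0 + -(|S.Lp| + ε) * m0 + ε * i by ring,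
        Real.exp_add, Real.exp_add]
      field_simp
    rw [e]
    exact Real.exp_le_one_iff.2 (by nlinarith)

/-- Close points of a leaf whose backward orbits stay close have a small gauge. -/
theorem exists_N_le (hq : S.toPre.Temp ε q) (hE : S.Est ε q) (hε0 : 0 ≤ ε)
    (hε : ε * (2 * S.w.C + 4 * S.w.gi) < 1) (q0 : ℝ) {r : ℝ} (hr : 0 < r) :
    ∃ η, 0 < η ∧ ∀ x ∈ S.X0, ∀ y ∈ S.X0, q x ≤ q0 → q y ≤ q0 → S.R x y → Sh S S.kap' q0 x y →
      dist x y ≤ η → S.toPre.N x y ≤ r := by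
  obtain ⟨t, ht⟩ := exists_nat_exp (c := 1 - ε * (2 * S.w.C + 4 * S.w.gi)) (by linarith)
    (S.w.C * q0 ^ S.w.C * (q0 ^ 4) ^ S.w.gi) hr
  obtain ⟨m0, hm0⟩ := exists_nat_exp (c := S.kap' - S.kap) (by linarith [S.kap_lt])
    (q0 * q0 * Real.exp ((ε + S.kap') * t)) one_pos
  refine ⟨Real.exp (-(|S.Lp| * (t + (m0 + t) : ℕ)) - S.kap * (m0 + t) - ε * t) / max q0 1,
    by positivity, fun x hx y hy h0 h0' hR hs hd => ?_⟩
  have q1 : 1 ≤ q0 := (hq.one_le x).trans h0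
  rw [max_eq_left q1] at hd
  have hQ : ∀ z ∈ S.X0, q z ≤ q0 → q (S.toPre.a t z) ≤ q0 * Real.exp (ε * t) := fun z hz h =>
    (slow_nat hq hz t).1.trans (mul_le_mul_of_nonneg_right h (Real.exp_pos _).le)
  have hQ1 : 1 ≤ q0 * Real.exp (ε * t) := (hq.one_le _).trans (hQ x hx h0)
  have h2 := hE.G2c _ (a_mem _ hx t) _ (a_mem _ hy t) fun i => by
    refine le_trans ?_ (div_le_div_of_nonneg_left (Real.exp_pos _).le
      (one_pos.trans_le (hq.one_le _)) (hQ x hx h0))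
    rw [le_div_iff₀ (by positivity)]
    rcases le_total (m0 + t) i with hi | hi
    · have e : ∀ z, S.toPre.a (-i) (S.toPre.a t z) = S.toPre.a (-((i - t : ℕ) : ℤ)) z :=
        fun z => a_comp _ (by omega) z
      rw [e, e]
      refine (mul_le_mul_of_nonneg_right (hs (i - t)) (by positivity)).trans ?_
      have h3 := mul_le_mul_of_nonneg_right (hm0 i (by omega)) (Real.exp_pos (-S.kap * i)).le
      rw [one_mul] at h3
      refine le_trans (le_of_eq ?_) h3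
      rw [Nat.cast_sub (by omega), mul_assoc (q0 * q0 * _), mul_assoc (q0 * q0), ← Real.exp_add,
        ← Real.exp_add, show (ε + S.kap') * (t : ℝ) + (-(S.kap' - S.kap) * i + -S.kap * i) =
          -S.kap' * (i - t) + ε * t by ring, Real.exp_add]
      ring
    · have hi' : (i : ℝ) ≤ m0 + t := by exact_mod_cast hi
      rw [a_comp _ rfl, a_comp _ rfl]
      have h5 := (lip' S (-i + t) (m := t + (m0 + t)) (by
        push_cast
        have : (0 : ℝ) ≤ i := Nat.cast_nonneg i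
        have : (0 : ℝ) ≤ t := Nat.cast_nonneg t
        have : (0 : ℝ) ≤ m0 := Nat.cast_nonneg m0
        exact abs_le.2 ⟨by linarith, by linarith⟩) x y).trans
        (mul_le_mul_of_nonneg_left hd (Real.exp_pos _).le)
      refine (mul_le_mul_of_nonneg_right h5 (by positivity)).trans ?_
      have e : Real.exp (|S.Lp| * (t + (m0 + t) : ℕ)) * (Real.exp (-(|S.Lp| * (t + (m0 + t) : ℕ)) -
          S.kap * (m0 + t) - ε * t) / q0) * (q0 * Real.exp (ε * t)) =
          Real.exp (-S.kap * (m0 + t)) := by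
        rw [show -S.kap * ((m0 : ℝ) + t) = |S.Lp| * (t + (m0 + t) : ℕ) + (-(|S.Lp| *
          (t + (m0 + t) : ℕ)) - S.kap * (m0 + t) - ε * t) + ε * t by ring, Real.exp_add,
          Real.exp_add]
        field_simp
      rw [e]
      exact Real.exp_le_exp.2 (by nlinarith [S.kap_pos])
  have hQQ : q (S.toPre.a t x) * q (S.toPre.a t y) ≤ q0 * Real.exp (ε * t) * (q0 * Real.exp (ε * t)) :=
    mul_le_mul (hQ x hx h0) (hQ y hy h0') (zero_le_one.trans (hq.one_le _)) (by positivity)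
  have h3 := N_le_of_T (R_a S.toPre hR t) (one_le_mul_of_one_le_of_one_le hQ1 hQ1)
    (h2.1.trans hQQ) (h2.2.trans hQQ)
  have h4 := N_a hq hε0 (R_a S.toPre hR t) (-t)
  rw [a_comp _ (neg_add_cancel _), a_comp _ (neg_add_cancel _), a_zero, a_zero] at h4
  simp only [Int.cast_neg, Int.cast_natCast, abs_neg, Nat.abs_cast] at h4
  refine h4.trans (le_trans ?_ (ht t le_rfl))
  have h5 : (q (S.toPre.a t x) * Real.exp (ε * t)) ^ S.w.C ≤
      q0 ^ S.w.C * Real.exp (2 * ε * t * S.w.C) := by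
    rw [Real.exp_mul (2 * ε * t), ← Real.mul_rpow (by positivity) (by positivity)]
    refine Real.rpow_le_rpow (mul_nonneg (zero_le_one.trans (hq.one_le _)) (by positivity)) ?_
      S.w.C_pos.le
    refine (mul_le_mul_of_nonneg_right (hQ x hx h0) (by positivity)).trans (le_of_eq ?_)
    rw [mul_assoc, ← Real.exp_add]
    congr 2
    ring
  have h6 : (q0 * Real.exp (ε * t) * (q0 * Real.exp (ε * t)) *
      (q0 * Real.exp (ε * t) * (q0 * Real.exp (ε * t)))) ^ S.w.gi =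
      (q0 ^ 4) ^ S.w.gi * Real.exp (4 * ε * t * S.w.gi) := by
    rw [Real.exp_mul (4 * ε * t), ← Real.mul_rpow (by positivity) (by positivity)]
    congr 1
    rw [show 4 * ε * (t : ℝ) = ε * t + ε * t + ε * t + ε * t by ring, Real.exp_add, Real.exp_add,
      Real.exp_add]
    ring
  rw [h6] at h3
  have hC := S.w.C_pos
  calc S.w.C * (q (S.toPre.a t x) * Real.exp (ε * t)) ^ S.w.C *
        (Real.exp (-(t : ℝ)) * S.toPre.N (S.toPre.a t x) (S.toPre.a t y))
      ≤ S.w.C * (q0 ^ S.w.C * Real.exp (2 * ε * t * S.w.C)) *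
        (Real.exp (-(t : ℝ)) * ((q0 ^ 4) ^ S.w.gi * Real.exp (4 * ε * t * S.w.gi))) :=
        mul_le_mul (mul_le_mul_of_nonneg_left h5 hC.le)
          (mul_le_mul_of_nonneg_left h3 (Real.exp_pos _).le)
          (mul_nonneg (Real.exp_pos _).le (S.w.N_nonneg _)) (by positivity)
    _ = _ := by
        rw [show -(1 - ε * (2 * S.w.C + 4 * S.w.gi)) * (t : ℝ) =
          2 * ε * t * S.w.C + -(t : ℝ) + 4 * ε * t * S.w.gi by ring, Real.exp_add, Real.exp_add]
        ring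

theorem exists_bd (S : GeoPre D B X μ κ) : ∃ p : ℕ, 1 ≤ p ∧ ∀ (ε : ℝ) (q : X → ℝ), 0 ≤ ε →
    ε ≤ 1 → 2 * ε ≤ S.kap' → S.toPre.Temp ε q → S.Est ε q →
    ∃ C, 1 ≤ C ∧ S.toPre.Bd fun x => C * q x ^ p := by
  have hk : 0 < S.kap' := S.kap_pos.trans S.kap_lt
  have hW := wt_nonneg S.w
  obtain ⟨p, hp⟩ := exists_nat_ge (2 * (6 + 2 * wt S.w) / S.kap')
  refine ⟨2 + 2 * p, by omega, fun ε q hε0 hε1 hε hq hE => ?_⟩
  obtain ⟨K0, hK0⟩ := hE.G1 1
  obtain ⟨K, hK1, hK⟩ : ∃ K, 1 ≤ K ∧ K0 ≤ K := ⟨max 1 K0, le_max_left _ _, le_max_right _ _⟩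
  have hC : 1 ≤ Real.exp (6 + 2 * wt S.w) * K ^ p :=
    one_le_mul_of_one_le_of_one_le (Real.one_le_exp (by positivity)) (one_le_pow₀ hK1)
  refine ⟨_, hC, fun x y hR hN => ?_⟩
  have hx := S.R_mem _ _ hR
  have hy := R_mem' _ hR
  have q1 := hq.one_le
  have q0 : ∀ x, 0 < q x := fun x => one_pos.trans_le (q1 x)
  have hu1 : 1 ≤ K * q x ^ 2 := one_le_mul_of_one_le_of_one_le hK1 (one_le_pow₀ (q1 x))
  have hl0 : 0 ≤ Real.log (K * q x ^ 2) := Real.log_nonneg hu1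
  obtain ⟨m, hm1, hm2⟩ : ∃ m : ℕ, 2 * Real.log (K * q x ^ 2) / S.kap' ≤ m ∧
      (m : ℝ) ≤ 2 * Real.log (K * q x ^ 2) / S.kap' + 1 :=
    ⟨_, Nat.le_ceil _, (Nat.ceil_lt_add_one (by positivity)).le⟩
  have hm0 : (0 : ℝ) ≤ m := Nat.cast_nonneg m
  have hm3 : K * q x ^ 2 ≤ Real.exp ((S.kap' - ε) * m) := by
    rw [← Real.log_le_iff_le_exp (by positivity)]
    rw [div_le_iff₀ hk] at hm1
    nlinarith
  have hm4 : Real.exp ((6 + 2 * wt S.w) * m) ≤
      Real.exp (6 + 2 * wt S.w) * K ^ p * q x ^ (2 * p) := by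
    rw [mul_assoc, pow_mul, ← mul_pow, ← Real.exp_log (x := K * q x ^ 2) (by positivity),
      ← Real.exp_nat_mul, ← Real.exp_add]
    refine Real.exp_le_exp.2 ?_
    have h1 := mul_le_mul_of_nonneg_left hm2 (show 0 ≤ 6 + 2 * wt S.w by positivity)
    have h2 := mul_le_mul_of_nonneg_right hp hl0
    have e : (6 + 2 * wt S.w) * (2 * Real.log (K * q x ^ 2) / S.kap' + 1) =
        2 * (6 + 2 * wt S.w) / S.kap' * Real.log (K * q x ^ 2) + (6 + 2 * wt S.w) := by ring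
    linarith
  have hx' := (slow_nat hq hx m).2
  have hy' := (slow_nat hq hy m).2
  have h2 := hE.G2c _ (a_mem _ hx (-m)) _ (a_mem _ hy (-m)) fun i => by
    have e : ∀ z, S.toPre.a (-i) (S.toPre.a (-m) z) = S.toPre.a (-((i + m : ℕ) : ℤ)) z :=
      fun z => a_comp _ (by push_cast; ring) z
    rw [e, e]
    refine (hK0 x y hR hN (i + m)).trans (le_trans ?_
      (div_le_div_of_nonneg_left (Real.exp_pos _).le (q0 _) hx'))
    rw [le_div_iff₀ (mul_pos (q0 x) (Real.exp_pos _))]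
    have h3 : Real.exp (-S.kap' * (i + m : ℕ)) * Real.exp (ε * m) * Real.exp ((S.kap' - ε) * m) ≤
        Real.exp (-S.kap * i) := by
      rw [← Real.exp_add, ← Real.exp_add]
      refine Real.exp_le_exp.2 ?_
      push_cast
      have := mul_le_mul_of_nonneg_right S.kap_lt.le (Nat.cast_nonneg (α := ℝ) i)
      nlinarith
    have h4 := mul_le_mul_of_nonneg_left hm3
      (show 0 ≤ Real.exp (-S.kap' * (i + m : ℕ)) * Real.exp (ε * m) by positivity)
    have h5 : K0 * (q x * Real.exp (-S.kap' * (i + m : ℕ)) * (q x * Real.exp (ε * m))) ≤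
        K * (q x * Real.exp (-S.kap' * (i + m : ℕ)) * (q x * Real.exp (ε * m))) :=
      mul_le_mul_of_nonneg_right hK (by have := q0 x; positivity)
    calc K0 * q x * Real.exp (-S.kap' * (i + m : ℕ)) * (q x * Real.exp (ε * m))
        = K0 * (q x * Real.exp (-S.kap' * (i + m : ℕ)) * (q x * Real.exp (ε * m))) := by ring
      _ ≤ _ := h5
      _ = Real.exp (-S.kap' * (i + m : ℕ)) * Real.exp (ε * m) * (K * q x ^ 2) := by ring
      _ ≤ _ := h4.trans h3
  have key : ∀ u v, S.R u v → q (S.toPre.a (-m) u) * q (S.toPre.a (-m) v) =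
      q (S.toPre.a (-m) x) * q (S.toPre.a (-m) y) →
      ‖S.T (S.toPre.a (-m) u) (S.toPre.a (-m) v)‖ ≤ q (S.toPre.a (-m) x) * q (S.toPre.a (-m) y) →
      ‖S.T u v‖ ≤ Real.exp (6 + 2 * wt S.w) * K ^ p * q x ^ (2 + 2 * p) *
        (Real.exp (6 + 2 * wt S.w) * K ^ p * q y ^ (2 + 2 * p)) := by
    intro u v huv e1 h3
    have h4 := T_a S.toPre (R_a S.toPre huv (-m)) m
    rw [a_comp _ (add_neg_cancel _), a_comp _ (add_neg_cancel _), a_zero, a_zero] at h4
    have h5 := (norm_La hq (a_mem _ (S.R_mem _ _ huv) (-m)) m).1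
    have h6 := (norm_La hq (a_mem _ (R_mem' _ huv) (-m)) m).2
    simp only [Int.cast_natCast, Nat.abs_cast] at h5 h6
    have h7 : q (S.toPre.a (-m) x) * q (S.toPre.a (-m) y) ≤
        q x * Real.exp (ε * m) * (q y * Real.exp (ε * m)) :=
      mul_le_mul hx' hy' (q0 _).le ((q0 _).le.trans hx')
    have h8 : Real.exp ((ε + wt S.w) * m) ^ 2 * Real.exp (ε * m) ^ 4 ≤
        Real.exp ((6 + 2 * wt S.w) * m) := by
      rw [← Real.exp_nat_mul, ← Real.exp_nat_mul, ← Real.exp_add]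
      refine Real.exp_le_exp.2 ?_
      push_cast
      nlinarith
    have h9 : q y ^ 2 ≤ Real.exp (6 + 2 * wt S.w) * K ^ p * q y ^ (2 + 2 * p) :=
      (pow_le_pow_right₀ (q1 y) (by omega)).trans
        (le_mul_of_one_le_left (pow_nonneg (q0 y).le _) hC)
    have hqu := q0 (S.toPre.a (-m) u)
    have hqx := q0 (S.toPre.a (-m) x)
    have hqy := q0 (S.toPre.a (-m) y)
    have hqx0 := q0 x
    have hqy0 := q0 y
    rw [h4]
    calc _ ≤ q (S.toPre.a (-m) u) * Real.exp ((ε + wt S.w) * m) *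
          (q (S.toPre.a (-m) x) * q (S.toPre.a (-m) y)) *
          (q (S.toPre.a (-m) v) * Real.exp ((ε + wt S.w) * m)) :=
          (norm_mul_le _ _).trans (mul_le_mul ((norm_mul_le _ _).trans
            (mul_le_mul h5 h3 (norm_nonneg _) (by positivity))) h6 (norm_nonneg _) (by positivity))
      _ = (q (S.toPre.a (-m) u) * q (S.toPre.a (-m) v)) *
          (q (S.toPre.a (-m) x) * q (S.toPre.a (-m) y)) * Real.exp ((ε + wt S.w) * m) ^ 2 := by ring
      _ ≤ (q x * Real.exp (ε * m) * (q y * Real.exp (ε * m))) *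
          (q x * Real.exp (ε * m) * (q y * Real.exp (ε * m))) *
          Real.exp ((ε + wt S.w) * m) ^ 2 := by
          rw [e1]
          exact mul_le_mul_of_nonneg_right (mul_le_mul h7 h7 (by positivity) (by positivity))
            (by positivity)
      _ = q x ^ 2 * (Real.exp ((ε + wt S.w) * m) ^ 2 * Real.exp (ε * m) ^ 4) * q y ^ 2 := by ring
      _ ≤ q x ^ 2 * (Real.exp (6 + 2 * wt S.w) * K ^ p * q x ^ (2 * p)) *
          (Real.exp (6 + 2 * wt S.w) * K ^ p * q y ^ (2 + 2 * p)) :=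
          mul_le_mul (mul_le_mul_of_nonneg_left (h8.trans hm4) (by positivity)) h9 (by positivity)
            (by positivity)
      _ = _ := by ring
  exact ⟨key x y hR rfl h2.1, key y x (S.R_symm _ _ hR) (mul_comm _ _) h2.2⟩

/-- Compact flow boxes whose plaques are described by the backward orbits. -/
def BoxG (S : GeoPre D B X μ κ) (q : X → ℝ) : Prop :=
  ∀ (q0 : ℝ) (A : Set X), MeasurableSet A → A ⊆ {x | q x ≤ q0} → μ A ≠ 0 →
    ∀ r1 : ℝ, 0 < r1 → ∀ r2 K1 η : ℝ, 0 < η →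
    ∃ (K : ℝ) (K0 : Set X) (lab : X → ℕ → ℝ), K1 ≤ K ∧ IsCompact K0 ∧ K0 ⊆ A ∧ μ K0 ≠ 0 ∧
      Measurable lab ∧ (∀ y ∈ K0, y ∈ S.X0 ∧ q y ≤ q0) ∧ ∀ y ∈ K0, ∀ y' ∈ K0, dist y y' ≤ η ∧
        (lab y = lab y' ↔ Sh S S.kap K y y') ∧
        (lab y = lab y' → S.R y y' ∧ S.toPre.N y y' ≤ r1 ∧ Sh S S.kap' q0 y y') ∧
        (S.R y y' → S.toPre.N y y' ≤ r2 → lab y = lab y')

theorem continuous_a (S : GeoPre D B X μ κ) (i : ℤ) : Continuous (S.toPre.a i) :=
  (LipschitzWith.of_dist_le' (S.lip i)).continuous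

theorem Sh.mono {c c' K K' : ℝ} (h : Sh S c K x y) (hc : c' ≤ c) (hK : K ≤ K') (hK0 : 0 ≤ K') :
    Sh S c' K' x y := fun i => (h i).trans (mul_le_mul hK
      (Real.exp_le_exp.2 (mul_le_mul_of_nonneg_right (by linarith) (Nat.cast_nonneg i)))
      (Real.exp_pos _).le hK0)

/-- A measurable label for a closed equivalence relation on a compact set. -/
theorem exists_lab {Y : Type} [MetricSpace Y] [SecondCountableTopology Y] [MeasurableSpace Y]
    [BorelSpace Y] {K0 : Set Y} (hK : IsCompact K0) {E : Y → Y → Prop}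
    (hc : IsClosed {p : Y × Y | E p.1 p.2}) (hr : ∀ y ∈ K0, E y y)
    (hs : ∀ y ∈ K0, ∀ y' ∈ K0, E y y' → E y' y)
    (ht : ∀ y ∈ K0, ∀ y' ∈ K0, ∀ y'' ∈ K0, E y y' → E y' y'' → E y y'') :
    ∃ lab : Y → ℕ → ℝ, Measurable lab ∧ ∀ y ∈ K0, ∀ y' ∈ K0, (lab y = lab y' ↔ E y y') := by
  classical
  rcases isEmpty_or_nonempty Y with he | he
  · exact ⟨fun _ _ => 0, measurable_const, fun y => isEmptyElim y⟩
  have hcl : ∀ y, IsCompact (K0 ∩ {z | E y z}) := fun y =>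
    hK.inter_right (hc.preimage (Continuous.prodMk_right y))
  refine ⟨fun y j => if y ∈ K0 then
    Metric.infDist (TopologicalSpace.denseSeq Y j) (K0 ∩ {z | E y z}) else 0,
    measurable_pi_lambda _ fun j => measurable_of_Iic fun c => ?_, fun y hy y' hy' => ⟨?_, ?_⟩⟩
  · have h1 : IsCompact (Prod.fst '' ((K0 ×ˢ K0) ∩ ({p : Y × Y | E p.1 p.2} ∩
        {p | dist (TopologicalSpace.denseSeq Y j) p.2 ≤ c}))) :=
      ((hK.prod hK).inter_right (hc.inter (isClosed_le (by fun_prop) continuous_const))).image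
        continuous_fst
    have h2 : MeasurableSet (K0ᶜ ∩ {_y : Y | (0 : ℝ) ≤ c}) :=
      hK.measurableSet.compl.inter (MeasurableSet.const _)
    refine (congrArg MeasurableSet ?_).mpr (h1.measurableSet.union h2)
    ext y
    by_cases hy : y ∈ K0
    · simp only [mem_preimage, if_pos hy, mem_Iic, mem_union, mem_inter_iff, mem_compl_iff, hy,
        not_true, false_and, or_false]
      constructor
      · intro h
        obtain ⟨z, hz, e⟩ := (hcl y).exists_infDist_eq_dist ⟨y, hy, hr y hy⟩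
          (TopologicalSpace.denseSeq Y j)
        exact ⟨(y, z), ⟨⟨hy, hz.1⟩, hz.2, e.symm.le.trans h⟩, rfl⟩
      · rintro ⟨⟨y1, z⟩, ⟨⟨-, hz⟩, hE, hd⟩, rfl⟩
        exact (Metric.infDist_le_dist_of_mem (s := K0 ∩ {z | E y1 z}) ⟨hz, hE⟩).trans hd
    · simp only [mem_preimage, if_neg hy, mem_Iic, mem_union, mem_inter_iff, mem_compl_iff, hy,
        not_false_iff, true_and, mem_setOf_eq]
      refine ⟨Or.inr, fun h => h.resolve_left ?_⟩
      rintro ⟨p, ⟨⟨hp, -⟩, -⟩, rfl⟩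
      exact hy hp
  · intro h
    have h1 : (fun u => Metric.infDist u (K0 ∩ {z | E y z})) =
        fun u => Metric.infDist u (K0 ∩ {z | E y' z}) :=
      (TopologicalSpace.denseRange_denseSeq Y).equalizer (Metric.continuous_infDist_pt _)
        (Metric.continuous_infDist_pt _) (funext fun j => by
          simpa only [if_pos hy, if_pos hy', Function.comp_apply] using congrFun h j)
    have h2 := congrFun h1 y'
    rw [Metric.infDist_zero_of_mem (s := K0 ∩ {z | E y' z}) ⟨hy', hr y' hy'⟩] at h2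
    exact (((hcl y).isClosed.mem_iff_infDist_zero ⟨y, hy, hr y hy⟩).2 h2).2
  · intro h
    have e : K0 ∩ {z | E y z} = K0 ∩ {z | E y' z} := by
      ext z
      exact and_congr_right fun hz =>
        ⟨ht y' hy' y hy z hz (hs y hy y' hy' h), ht y hy y' hy' z hz h⟩
    funext j
    simp only [if_pos hy, if_pos hy', e]

variable [ProperSpace X] [BorelSpace X] [IsFiniteMeasure μ]

theorem boxG (hq : S.toPre.Temp ε q) (hE : S.Est ε q) (hε0 : 0 ≤ ε) (hε : 2 * ε < S.kap)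
    (hε' : ε * (2 * S.w.C + 4 * S.w.gi) < 1) : BoxG S q := by
  intro q0 A hAm hAq hq0 r1 hr1 r2 K1 η hη
  obtain ⟨K2, hK2⟩ := hE.G1 r2
  obtain ⟨K, hK1, hK3, hK4, hK0⟩ : ∃ K, K1 ≤ K ∧ q0 ≤ K ∧ |K2| * q0 ≤ K ∧ 0 ≤ K :=
    ⟨max (max K1 q0) (max (|K2| * q0) 0), (le_max_left _ _).trans (le_max_left _ _),
      (le_max_right _ _).trans (le_max_left _ _), (le_max_left _ _).trans (le_max_right _ _),
      (le_max_right _ _).trans (le_max_right _ _)⟩
  obtain ⟨η1, h1, H1⟩ := exists_upgrade hq hE hε0 hε q0 (2 * K)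
  obtain ⟨η2, h2, H2⟩ := exists_N_le hq hE hε0 hε' q0 hr1
  obtain ⟨δ, hδ, d0, d1, d2⟩ : ∃ δ, 0 < δ ∧ δ ≤ η ∧ δ ≤ η1 ∧ δ ≤ η2 :=
    ⟨min η (min η1 η2), by positivity, min_le_left _ _, (min_le_right _ _).trans (min_le_left _ _),
      (min_le_right _ _).trans (min_le_right _ _)⟩
  have hA : MeasurableSet (S.X0 ∩ A) := S.meas0.inter hAm
  have hA0 : μ (S.X0 ∩ A) ≠ 0 := by
    rwa [Measure.measure_inter_eq_of_ae S.ae0]
  obtain ⟨z, hz⟩ : ∃ z, μ (S.X0 ∩ A ∩ Metric.ball z (δ / 2)) ≠ 0 := by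
    by_contra hc
    simp only [not_exists, not_not] at hc
    exact hA0 (measure_null_of_locally_null _ fun z _ =>
      ⟨_, inter_mem_nhdsWithin _ (Metric.ball_mem_nhds z (half_pos hδ)), hc z⟩)
  obtain ⟨K0, hsub', hK0c, hpos⟩ :=
    (hA.inter Metric.isOpen_ball.measurableSet).exists_lt_isCompact_of_ne_top
    (measure_ne_top μ _) (pos_iff_ne_zero.2 hz)
  have hsub : ∀ {y}, y ∈ K0 → (y ∈ S.X0 ∧ q y ≤ q0) ∧ y ∈ Metric.ball z (δ / 2) := fun hy =>
    ⟨⟨(hsub' hy).1.1, hAq (hsub' hy).1.2⟩, (hsub' hy).2⟩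
  have hd : ∀ y ∈ K0, ∀ y' ∈ K0, dist y y' ≤ δ := fun y hy y' hy' =>
    (Metric.dist_lt_add_of_nonempty_ball_inter_ball (ε₁ := 0 + δ / 2) (ε₂ := δ / 2)
      ⟨z, by simpa [dist_comm] using (hsub hy).2, by simpa [dist_comm] using (hsub hy').2⟩).le.trans_eq
      (by ring)
  have hup : ∀ y ∈ K0, ∀ y' ∈ K0, Sh S S.kap (2 * K) y y' → Sh S S.kap' q0 y y' :=
    fun y hy y' hy' h => H1 y (hsub hy).1.1 y' (hsub hy).1.2 h ((hd y hy y' hy').trans d1)
  obtain ⟨lab, hlab, hE'⟩ := exists_lab hK0c (E := Sh S S.kap K) (by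
      simp only [Sh, setOf_forall]
      exact isClosed_iInter fun i => isClosed_le
        (((continuous_a S _).comp continuous_fst).dist ((continuous_a S _).comp continuous_snd))
        continuous_const)
    (fun y _ i => by rw [dist_self]; positivity)
    (fun y _ y' _ h i => by rw [dist_comm]; exact h i)
    (fun y hy y' _ y'' hy'' h h' => (hup y hy y'' hy'' fun i => by
      linarith [dist_triangle (S.toPre.a (-i) y) (S.toPre.a (-i) y') (S.toPre.a (-i) y''), h i,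
        h' i]).mono S.kap_lt.le hK3 hK0)
  refine ⟨K, K0, lab, hK1, hK0c, fun y hy => (hsub' hy).1.2, hpos.ne', hlab, fun y hy => (hsub hy).1, fun y hy y' hy' =>
    ⟨(hd y hy y' hy').trans d0, hE' y hy y' hy', fun h => ?_, fun hR hN => ?_⟩⟩
  · have h3 := (hE' y hy y' hy').1 h
    have h4 := S.G2a y (hsub hy).1.1 y' (hsub hy').1.1 K h3
    have h5 := hup y hy y' hy' (h3.mono le_rfl (by linarith) (by linarith))
    exact ⟨h4, H2 y (hsub hy).1.1 y' (hsub hy').1.1 (hsub hy).1.2 (hsub hy').1.2 h4 h5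
      ((hd y hy y' hy').trans d2), h5⟩
  · refine (hE' y hy y' hy').2 (Sh.mono (hK2 y y' hR hN) S.kap_lt.le (le_trans ?_ hK4) hK0)
    exact mul_le_mul (le_abs_self _) (hsub hy).1.2 (zero_le_one.trans (hq.one_le y)) (abs_nonneg _)

theorem BoxG.box (h : BoxG S q) (hq : Measurable q) : S.toPre.Box q := by
  intro q0 hq0 r1 hr1 r2
  obtain ⟨K, K0, lab, -, h1, -, h2, h3, h4, h5⟩ := h q0 _ (measurableSet_le hq measurable_const)
    subset_rfl hq0 r1 hr1 r2 0 1 one_pos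
  exact ⟨K0, lab, h1.measurableSet, h2, h3, h4, fun y hy y' hy' =>
    ⟨fun e => ⟨((h5 y hy y' hy').2.2.1 e).1, ((h5 y hy y' hy').2.2.1 e).2.1⟩,
      (h5 y hy y' hy').2.2.2⟩⟩

end Met

end Geo

section Main

variable {G : Type} [Group G] [TopologicalSpace G] {n k : ℕ} {D : Std G n k} {B : Type}
  [TopologicalSpace B] [MeasurableSpace B] [MulAction G B] {X : Type} [MetricSpace X]
  [MeasurableSpace X] [MulAction G X] {μ : Measure X} {κ : Type} [Fintype κ] [DecidableEq κ]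
  [ProperSpace X] [BorelSpace X] [IsFiniteMeasure μ]

/-- One tempered function for all the estimates. -/
theorem GeoLS.good (S : GeoLS D B X μ κ) {ε : ℝ} (hε : 0 < ε) :
    ∃ q, S.toPre.Temp ε q ∧ S.toGeoPre.Est ε q ∧ S.toPre.Bd q ∧ S.toPre.Box q ∧
      Geo.BoxG S.toGeoPre q := by
  obtain ⟨p, hp, H⟩ := Geo.exists_bd S.toGeoPre
  have hp' : (1 : ℝ) ≤ p := by exact_mod_cast hp
  have hC := S.w.C_pos
  have hg := S.w.gi_pos
  have hk := S.kap_pos
  obtain ⟨δ, hδ, d0, d1, d2, d3⟩ : ∃ δ, 0 < δ ∧ δ ≤ ε ∧ δ ≤ 1 ∧ δ ≤ S.kap / 3 ∧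
      δ ≤ 1 / (2 * (2 * S.w.C + 4 * S.w.gi)) :=
    ⟨min (min ε 1) (min (S.kap / 3) (1 / (2 * (2 * S.w.C + 4 * S.w.gi)))), by positivity,
      (min_le_left _ _).trans (min_le_left _ _), (min_le_left _ _).trans (min_le_right _ _),
      (min_le_right _ _).trans (min_le_left _ _), (min_le_right _ _).trans (min_le_right _ _)⟩
  have hle : δ / p ≤ δ := div_le_self hδ.le hp'
  obtain ⟨q, hq, hE⟩ := S.geo (δ / p) (by positivity)
  obtain ⟨C, hC1, hB⟩ := H (δ / p) q (by positivity) (hle.trans d1)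
    (by linarith [S.kap_lt]) hq hE
  have hq' := Geo.temp_pow hq (by positivity) (ε' := δ) hC1 hp
    (le_of_eq (mul_div_cancel₀ _ (by positivity)))
  have hE' : S.toGeoPre.Est δ fun x => C * q x ^ p := Geo.est_mono hE hq.one_le hle fun x =>
    (le_self_pow₀ (hq.one_le x) (by omega)).trans
      (le_mul_of_one_le_left (pow_nonneg (zero_le_one.trans (hq.one_le x)) _) hC1)
  have hG := Geo.boxG hq' hE' hδ.le (by linarith) (by
    rw [le_div_iff₀ (by positivity)] at d3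
    linarith)
  exact ⟨_, Geo.temp_mono hq' hδ.le d0, Geo.est_mono hE' hq'.one_le d0 fun _ => le_rfl, hB,
    hG.box hq'.meas, hG⟩

/-- The underlying leaf structure. -/
def GeoLS.toLS (S : GeoLS D B X μ κ) : LS X μ (Fin n ⊕ κ) where
  toPre := S.toPre
  temp ε hε := (S.good hε).imp fun _ h => ⟨h.1, h.2.2.1, h.2.2.2.1⟩

theorem GeoLS.toLS_toPre (S : GeoLS D B X μ κ) : S.toLS.toPre = S.toPre := rfl

end Main

end Pool.Agent.P.MP_d483fb_an.Z
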