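import Pool.Agent.P.MP_d483fb_an.Z.Geo.Asm1
import Pool.Agent.P.MP_d483fb_an.Z.Geo.ToLS

/-!
The unstable leaf structure of the suspension: metric estimates along orbits.
-/

open scoped Matrix Matrix.Norms.Operator InnerProductSpace RealInnerProductSpace Topology
open MeasureTheory Filter Set NormedSpace

set_option linter.unusedSectionVars false

noncomputable section

namespace Pool.Agent.P.MP_d483fb_an.Z.Geo.Asm

open Os NF

variable {G : Type} [Group G] [TopologicalSpace G] [IsTopologicalGroup G] [ConnectedSpace G]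
  [T2Space G] [MeasurableSpace G] [BorelSpace G] {n k : ℕ} {D : Std G n k} {B : Type}
  [MetricSpace B] [ProperSpace B] [MeasurableSpace B] [BorelSpace B] [MulAction G B]
  [ContinuousSMul G B] {X Γ M : Type} [MetricSpace X] [ProperSpace X] [MeasurableSpace X]
  [BorelSpace X] [MulAction G X] {μ : Measure X} [Group Γ] [MeasurableSpace Γ] [Countable Γ]
  [DiscreteMeasurableSpace Γ] [MetricSpace M] [MeasurableSpace M] [BorelSpace M]
  [SecondCountableTopology M] {α : Γ →* Equiv.Perm M} {len : Γ → ℝ} {d : ℕ}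
  {S : Sys (Euc k) X μ} {J : Jets α len d} {K : Skew S J} {lam : Fin d → Euc k →L[ℝ] ℝ}
  {κ : Type} [Fintype κ] [DecidableEq κ]

theorem Ad_zero (D : Std G n k) (Y : Mat n) : D.Ad (D.a 0) Y = Y := by rw [D.a_zero, D.Ad_one]

theorem norm_exp_le (Y : Mat n) : ‖exp Y‖ ≤ Real.exp ‖Y‖ := by
  have h1 := ExpData.Len_norm_exp_sub_one Y
  have h2 := norm_add_le (exp Y - 1) 1
  rw [sub_add_cancel] at h2
  linarith [norm_one_le' (ι := Fin n)]

namespace Dat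

variable (A : Dat D B K lam κ) {x y z : X} {ε : ℝ} {q : X → ℝ}

/-- The gap between the rates. -/
def η : ℝ := (A.s2 - A.s1) / 3

theorem η_pos : 0 < A.η := div_pos (sub_pos.2 A.lt) three_pos

theorem s2_eq (t : ℝ) : A.s2 * t = A.s1 * t + 3 * (A.η * t) := by
  unfold η
  ring

theorem a_int (i : ℤ) (x : X) : A.pre.a i x = S.act ((i : ℝ) • A.a) x := by
  show S.act (A.v ((i : ℝ), 0)) x = _
  rw [v_fst]

theorem a_nat (i : ℕ) (x : X) : A.pre.a i x = S.act (i • A.a) x := by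
  rw [a_int, Int.cast_natCast, Nat.cast_smul_eq_nsmul]

theorem a_neg (i : ℕ) (x : X) : A.pre.a (-i) x = S.act (-(i • A.a)) x := by
  rw [a_int, Int.cast_neg, Int.cast_natCast, neg_smul, Nat.cast_smul_eq_nsmul]

variable {A}

theorem h_back (E : A.F.Est A.s2 ε q) (hx : x ∈ A.F.X0) (i : ℕ) :
    K.h (S.act (-(i • A.a)) x) ≤ q x + ε * i :=
  (E.h_le _ (A.F.inv0 _ _ hx)).trans (E.slow_b i x hx)

variable (A)

/-- Points whose backward orbits approach exponentially. -/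
theorem back : ∃ δ C : ℝ, 0 < δ ∧ 0 ≤ C ∧ ∀ (ε : ℝ) (q : X → ℝ), A.F.Est A.s2 ε q →
    2 * ε ≤ A.η → K.L * ε ≤ A.η → ∀ x ∈ A.F.X0, ∀ (y : X) (c : ℝ),
    c ≤ δ * Real.exp (-2 * q x) → (∀ i : ℕ, dist (S.act (-(i • A.a)) x) (S.act (-(i • A.a)) y) ≤
      c * Real.exp (-(A.s1 + A.η) * i)) →
    ∃ Y ∈ D.np A.a, ∃ p, y = D.ex Y • A.I.j (A.I.π x) p ∧ ‖Y‖ ≤ C * c ∧
      K.Sh A.a A.s1 (Real.exp (K.L * (1 + q x)) * c) x p := by
  obtain ⟨δ, C, hδ, hC, h⟩ := A.I.orbit (-A.a)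
  refine ⟨δ, C, hδ, hC, fun ε q E h1 h2 x hx y c hc hd => ?_⟩
  have h0 : dist x y ≤ c := by simpa [S.zero] using hd 0
  have c0 : 0 ≤ c := dist_nonneg.trans h0
  have p1 := A.pos
  have p2 := A.η_pos
  have hcl : ∀ i : ℕ, dist (S.act (i • -A.a) x) (S.act (i • -A.a) y) ≤
      δ * Real.exp (-2 * K.h (S.act (i • -A.a) x)) := fun i => by
    rw [smul_neg]
    refine (hd i).trans ((mul_le_mul_of_nonneg_right hc (Real.exp_pos _).le).trans ?_)
    rw [mul_assoc, ← Real.exp_add]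
    refine mul_le_mul_of_nonneg_left (Real.exp_le_exp.2 ?_) hδ.le
    have i0 : (0 : ℝ) ≤ i := i.cast_nonneg
    nlinarith [h_back E hx i, mul_le_mul_of_nonneg_right h1 i0, mul_nonneg p1.le i0]
  obtain ⟨Y, hY, p, e, hb⟩ := h x y (h0.trans (hc.trans (mul_le_of_le_one_right hδ.le
    (Real.exp_le_one_iff.2 (by linarith [E.one_le x])))))
  have hb' := fun i => hb i (fun j _ => hcl j) i le_rfl
  simp only [smul_neg] at hb'
  refine ⟨Y, mem_np D hY ?_, p, e, ?_, fun i => ?_⟩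
  · have h3 : Tendsto (fun i : ℕ => C * (c * Real.exp (-(A.s1 + A.η) * i))) atTop
        (𝓝 (C * (c * 0))) :=
      ((Real.tendsto_exp_atBot.comp (tendsto_natCast_atTop_atTop.const_mul_atTop_of_neg
        (by linarith))).const_mul c).const_mul C
    rw [mul_zero, mul_zero] at h3
    exact squeeze_zero (fun _ => norm_nonneg _)
      (fun i => (hb' i).1.trans (mul_le_mul_of_nonneg_left (hd i) hC)) h3
  · have h3 := (hb' 0).1
    rw [zero_smul, neg_zero, Ad_zero, S.zero, S.zero] at h3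
    exact h3.trans (mul_le_mul_of_nonneg_left h0 hC)
  · refine (hb' i).2.trans ((mul_le_mul_of_nonneg_left (hd i) (Real.exp_pos _).le).trans ?_)
    rw [mul_left_comm, ← Real.exp_add, mul_comm _ c, mul_assoc, ← Real.exp_add]
    refine mul_le_mul_of_nonneg_left (Real.exp_le_exp.2 ?_) c0
    have i0 : (0 : ℝ) ≤ i := i.cast_nonneg
    nlinarith [mul_le_mul_of_nonneg_left (h_back E hx i) K.L_nonneg,
      mul_le_mul_of_nonneg_right h2 i0]

theorem R_of (hx : x ∈ A.F.X0) (hy : y ∈ A.F.X0) {Z : Mat n} (hZ : Z ∈ D.np A.a) {p : M}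
    (h : y = D.ex Z • A.I.j (A.I.π x) p) {c : ℝ} (hp : K.Sh A.a A.s1 c x p) : A.R x y := by
  obtain ⟨-, h2, h3⟩ := pos_of hx hZ h
  exact ⟨hx, hy, h2, c, h3 ▸ hp⟩

theorem G2a (hx : x ∈ A.F.X0) (hy : y ∈ A.F.X0) {c : ℝ}
    (hd : ∀ i : ℕ, dist (S.act (-(i • A.a)) x) (S.act (-(i • A.a)) y) ≤
      c * Real.exp (-(A.s1 + A.η) * i)) : A.R x y := by
  obtain ⟨δ, C, hδ, -, h⟩ := A.back
  have p1 := A.pos
  have p2 := A.η_pos
  have l1 := A.I.one_le
  have l2 : 0 < 2 * K.L := by linarith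
  have e0 : 0 < A.η / (2 * K.L) := div_pos p2 l2
  have e1 : A.η / (2 * K.L) * (2 * K.L) = A.η := div_mul_cancel₀ _ l2.ne'
  obtain ⟨q, E⟩ := A.F.est _ e0
  set ε := A.η / (2 * K.L)
  have h1 : 2 * ε ≤ A.η := by nlinarith
  have h3 : Tendsto (fun i : ℕ => c * Real.exp (-A.s1 * i)) atTop (𝓝 (c * 0)) :=
    (Real.tendsto_exp_atBot.comp (tendsto_natCast_atTop_atTop.const_mul_atTop_of_neg
      (by linarith))).const_mul c
  rw [mul_zero] at h3
  obtain ⟨m, hm⟩ := (h3.eventually (ge_mem_nhds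
    (show 0 < δ * Real.exp (-2 * q x) by positivity))).exists
  obtain ⟨Y, hY, p, e, -, hp⟩ := h ε q E h1 (by nlinarith) _ (A.F.inv0 (-(m • A.a)) x hx)
    (S.act (-(m • A.a)) y) (c * Real.exp (-(A.s1 + A.η) * m)) (by
      have e2 : c * Real.exp (-(A.s1 + A.η) * m) =
          c * Real.exp (-A.s1 * m) * Real.exp (-A.η * m) := by
        rw [mul_assoc, ← Real.exp_add]
        congr 2
        ring
      rw [e2]
      refine (mul_le_mul_of_nonneg_right hm (Real.exp_pos _).le).trans ?_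
      rw [mul_assoc, ← Real.exp_add]
      refine mul_le_mul_of_nonneg_left (Real.exp_le_exp.2 ?_) hδ.le
      nlinarith [E.slow_b m x hx, mul_le_mul_of_nonneg_right h1 (m.cast_nonneg (α := ℝ))])
    fun i => by
      have h4 := hd (i + m)
      rw [add_smul, neg_add, S.add, S.add] at h4
      refine h4.trans_eq ?_
      rw [mul_assoc, ← Real.exp_add]
      congr 2
      push_cast
      ring
  have h5 := (A.R_of (A.F.inv0 _ x hx) (A.F.inv0 _ y hy) hY e hp).act (m • A.a)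
  rwa [← S.add, ← S.add, add_neg_cancel, S.zero, S.zero] at h5

/-- The leaf structure without the tempered estimates. -/
def geoPre : GeoPre D B X μ κ where
  toPre := A.pre
  Ha := A.a
  Ph := A.Ph
  om := A.om
  om_inl _ := rfl
  wa_eq _ := rfl
  wb_eq _ := rfl
  g1 _ _ := A.om_eq
  g2 i j i' j' h h' e := by
    refine A.gnr.g2 _ (sub_mem (A.om_mem i) (A.om_mem j)) _ (sub_mem (A.om_mem i') (A.om_mem j'))
      ?_ ?_ ?_
    · rw [inner_sub_left]
      exact sub_pos.2 h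
    · rw [inner_sub_left]
      exact sub_pos.2 h'
    · simp only [inner_sub_left]
      exact e
  g3 i j i' j' e := sub_eq_zero.1 (A.gnr.g1 _ (sub_mem (sub_mem (A.om_mem i) (A.om_mem j))
    (sub_mem (A.om_mem i') (A.om_mem j'))) (by
      simp only [inner_sub_left]
      exact sub_eq_zero.2 e))
  e0 := A.F.e0
  k1 := A.F.k1
  om_e0 := by
    show vec (A.F.om A.F.e0) = 0
    rw [A.F.om_e0, vec_zero]
  wa_pos m hm := (A.F.om_pos m hm).trans_eq (A.wa_inr m).symm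
  π := A.I.π
  π_cont := A.I.π_cont
  π_smul := A.I.π_smul
  base := A.I.base
  f_eq s x := A.I.act_eq _ x
  Gen := blkM (MonoidHom.mrange D.ρ) A.F.Gen
  Gen_unit := by
    rintro _ ⟨_, ⟨g, rfl⟩, T, hT, rfl⟩
    rw [blk_det]
    exact (ρ_unit g).mul (A.F.Gen_unit T hT)
  Gen_inv := by
    rintro _ ⟨_, ⟨g, rfl⟩, T, hT, rfl⟩
    exact ⟨_, ⟨g⁻¹, D.ρ_inv_eq g⟩, _, A.F.Gen_inv T hT,
      blk_inv _ _ (ρ_unit g) (A.F.Gen_unit T hT)⟩
  Gen_cl T h hT := blkM_cl (U := MonoidHom.mrange D.ρ) D.closed A.F.Gen_cl h hT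
  Gen_blk := by
    rintro _ ⟨_, ⟨g, rfl⟩, T, hT, rfl⟩
    exact ⟨rfl, rfl, g, rfl⟩
  Gen_e0 := by
    rintro _ ⟨_, -, T, hT, rfl⟩
    exact A.F.Gen_e0 T hT
  Gen_lie V h m hm := by
    refine A.F.Gen_lie V.toBlocks₂₂ (fun t => ?_) m hm
    rw [exp_22 fun t => ?_]
    · obtain ⟨_, -, T, hT, e⟩ := (h t).1
      rwa [e]
    · obtain ⟨_, -, T, hT, e⟩ := (h t).1
      rw [e]
      exact ⟨rfl, rfl⟩
  dil_mem s t := ⟨_, ⟨_, rfl⟩, _, A.F.dil_mem _, A.dil_eq s t⟩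
  T_mem x y h := ⟨_, ⟨_, (A.exp_neg x y).symm⟩, _, A.F.T_mem _ _ _ (R.ok h), rfl⟩
  L_mem s x hx := ⟨_, ⟨_, rfl⟩, _, A.F.L_mem _ x hx, rfl⟩
  L_blk _ _ _ := rfl
  P0 x y h := ⟨_, A.Y_mem x y, rfl, R.base h⟩
  P1 _ _ _ h h' e _ hZ e' := R.P1 h h' e hZ e'
  free _ hx _ hY := A.free hx hY
  inj := A.I.inj_cpt
  kap := A.s1 + A.η
  kap' := A.s1 + 2 * A.η
  Lp := (A.I.exists_lip A.a).choose
  kap_pos := add_pos A.pos A.η_pos
  kap_lt := by linarith [A.η_pos]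
  G2a x hx y hy c h := A.G2a hx hy fun i => by simpa only [a_neg] using h i
  lip i x y := by
    rw [a_int, a_int]
    exact (A.I.exists_lip A.a).choose_spec i x y
  cover := A.I.cover

theorem size (r : ℝ) : ∃ R0 : ℝ, 0 ≤ R0 ∧ ∀ x y, A.R x y → A.pre.N x y ≤ r →
    ‖A.Y x y‖ ≤ R0 ∧ ∀ m, |A.F.Tm x y (A.γ x y) m A.F.e0| ≤ Real.exp R0 := by
  obtain ⟨C, hC⟩ := D.norm_exp_le A.a
  set c := |A.w.C * (1 + r) ^ A.w.C|
  have c0 : 0 ≤ c := abs_nonneg _
  refine ⟨c + |C| * (1 + c) ^ n, by positivity, fun x y h hN => ?_⟩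
  have h1 : ‖A.w.nil (A.T x y)‖ ≤ c := ((n_nil A.pre h).norm_le hN).trans (le_abs_self _)
  have hu := T_unit A.pre h
  have h2 : 0 ≤ |C| * (1 + c) ^ n := by positivity
  constructor
  · have h3 := (norm_11_le _).trans h1
    rw [T, nil_11 _ _ A.w h.T_tri hu (A.exp_str x y)] at h3
    have h4 := (hC _ (neg_mem (A.Y_mem x y).2)).2
    rw [norm_neg] at h4
    refine h4.trans (le_add_of_nonneg_of_le c0 ?_)
    exact mul_le_mul (le_abs_self C) (by gcongr) (by positivity) (abs_nonneg C)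
  · intro m
    rw [← nil_col _ _ A.w h.T_tri hu (A.F.Gen_e0 _ (A.F.T_mem _ _ _ h.ok)) (fun m hm => by
      rw [wa_inr, wa_inr, A.F.om_e0]
      exact A.F.om_pos m hm) m]
    refine ((Z.abs_entry_le _ _ _).trans h1).trans ?_
    linarith [Real.add_one_le_exp (c + |C| * (1 + c) ^ n)]

theorem G1 (E : A.F.Est A.s2 ε q) (h2 : K.L * ε ≤ A.η) (h : A.R x y) {R0 : ℝ} (h0 : 0 ≤ R0)
    (hY : ‖A.Y x y‖ ≤ R0) (hT : ∀ m, |A.F.Tm x y (A.γ x y) m A.F.e0| ≤ Real.exp R0) (i : ℕ) :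
    dist (S.act (-(i • A.a)) x) (S.act (-(i • A.a)) y) ≤
      (K.L * R0 + Real.exp (A.F.C * R0)) * Real.exp (K.L * (1 + q x) + A.F.C * q x) *
        Real.exp (-(A.s1 + 2 * A.η) * i) := by
  have i0 : (0 : ℝ) ≤ i := i.cast_nonneg
  have p2 := A.η_pos
  have l0 := K.L_nonneg
  have q0 := E.one_le x
  have c0 := A.F.one_le
  have h3 := A.I.dist_le (-(i • A.a)) x (A.Y_mem x y).1 (α (A.γ x y) (K.pt y))
  rw [← u, ← h.eq] at h3
  have h4 := D.norm_Ad_neg A.gap (A.Y_mem x y) i0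
  rw [Nat.cast_smul_eq_nsmul] at h4
  have h5 := E.sh_of x y _ R0 h.ok h0 hT i
  refine h3.trans ?_
  rw [add_mul, add_mul]
  refine add_le_add ?_ ?_
  · rw [mul_assoc, mul_assoc, ← Real.exp_add]
    refine mul_le_mul_of_nonneg_left (h4.trans ?_) l0
    rw [mul_comm]
    refine mul_le_mul hY (Real.exp_le_exp.2 ?_) (Real.exp_pos _).le h0
    nlinarith [mul_nonneg p2.le i0, A.s2_eq i]
  · refine (mul_le_mul_of_nonneg_left h5 (Real.exp_pos _).le).trans ?_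
    simp only [← Real.exp_add]
    refine Real.exp_le_exp.2 ?_
    nlinarith [mul_le_mul_of_nonneg_left (h_back E h.1 i) l0, mul_le_mul_of_nonneg_right h2 i0,
      A.s2_eq i]

theorem T_le (E : A.F.Est A.s2 ε q) (h : A.R x y) (hY : ‖A.Y x y‖ ≤ 1)
    (hp : K.Sh A.a A.s1 1 x (α (A.γ x y) (K.pt y))) :
    ‖A.T x y‖ ≤ Real.exp (A.F.C * (q x + q y + 2 * K.L)) ∧
      ‖A.T y x‖ ≤ Real.exp (A.F.C * (q x + q y + 2 * K.L)) := by
  have l0 := K.L_nonneg
  have c0 := A.F.one_le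
  have n0 := norm_nonneg (A.Y x y)
  have h1 := E.T_le x h.1 y h.2 _ _ 0 (by positivity) le_rfl h.hol.1 h.hol.2
    (by rwa [Real.exp_zero])
  have h2 : Real.exp (A.F.C * (q x + q y + K.L * (1 + ‖A.Y x y‖) + 0)) ≤
      Real.exp (A.F.C * (q x + q y + 2 * K.L)) :=
    Real.exp_le_exp.2 (mul_le_mul_of_nonneg_left (by nlinarith) (by linarith))
  have h3 : Real.exp ‖A.Y x y‖ ≤ Real.exp (A.F.C * (q x + q y + 2 * K.L)) :=
    Real.exp_le_exp.2 (by nlinarith [E.one_le x, E.one_le y])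
  refine ⟨norm_blk_le _ _ ((norm_exp_le _).trans ?_) (h1.1.trans h2),
    norm_blk_le _ _ ((norm_exp_le _).trans ?_) ?_⟩
  · rwa [norm_neg]
  · rwa [h.Y_symm, neg_neg]
  · rw [h.γ_symm]
    exact h1.2.trans h2

theorem Ad_split {Y : Mat n} (hY : Y ∈ D.g) {i t : ℕ} (hi : i ≤ t) :
    ‖D.Ad (D.a (i • A.a)) Y‖ ≤
      Real.exp (-(A.s2 * (t - i))) * ‖D.Ad (D.a (t • A.a)) Y‖ + ‖Y‖ := by
  set P : Set (Euc k) := {γ | 0 < ⟪γ, A.a⟫}
  have h1 : ‖D.Ad (D.a (i • A.a)) (D.prS Pᶜ Y)‖ ≤ ‖Y‖ := by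
    refine (D.norm_Ad_a_le _ (D.prS_mem_wtS Pᶜ Y) (c := 0) fun β hβ _ => ?_).trans ?_
    · rw [← Nat.cast_smul_eq_nsmul ℝ, real_inner_smul_right]
      exact mul_nonpos_of_nonneg_of_nonpos i.cast_nonneg (not_lt.1 hβ)
    · rw [Real.exp_zero, one_mul]
      exact D.norm_prS_le _ _
  have h2 : D.prS P (D.Ad (D.a (t • A.a)) Y) = D.Ad (D.a (t • A.a)) (D.prS P Y) := by
    ext u v
    rw [D.prS_apply, D.Ad_a_apply, D.Ad_a_apply, D.prS_apply]
    split_ifs <;> simp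
  have h3 := D.norm_Ad_neg A.gap (D.prS_mem P (D.Ad_mem (D.a (t • A.a)) hY))
    (t := (t : ℝ) - i) (sub_nonneg.2 (Nat.cast_le.2 hi))
  have e : -(((t : ℝ) - i) • A.a) + t • A.a = i • A.a := by
    rw [sub_smul, Nat.cast_smul_eq_nsmul, Nat.cast_smul_eq_nsmul]
    abel
  have h4 := h3.trans (mul_le_mul_of_nonneg_left (D.norm_prS_le _ _) (Real.exp_pos _).le)
  rw [h2, ← D.Ad_mul, ← D.a_add, e] at h4
  conv_lhs => rw [← D.prS_add_compl P Y, map_add]
  exact (norm_add_le _ _).trans (add_le_add h4 h1)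

/-- Orbits that stay close during a time interval. -/
theorem fwd : ∃ δ C : ℝ, 0 < δ ∧ 0 ≤ C ∧ ∀ (ε : ℝ) (q : X → ℝ), A.F.Est A.s2 ε q →
    K.L * ε ≤ A.η → ∀ x ∈ A.F.X0, ∀ (y : X) (t : ℕ),
    (∀ i ≤ t, dist (S.act (i • A.a) x) (S.act (i • A.a) y) ≤ min δ 1 *
      Real.exp (-(K.L + (2 + K.L + A.F.C) * q (S.act (i • A.a) x)))) →
    (∃ Y ∈ D.g, A.I.π y = D.ex Y • A.I.π x ∧ ∀ i ≤ t,
      ‖D.Ad (D.a (i • A.a)) Y‖ ≤ C * dist (S.act (i • A.a) x) (S.act (i • A.a) y)) ∧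
    ∀ i ≤ t, dist (S.act (i • A.a) x) (S.act (i • A.a) y) ≤
      (K.L * C + 1) * Real.exp (K.L + (K.L + A.F.C) * q (S.act (t • A.a) x)) *
        Real.exp (-(A.s1 + 2 * A.η) * (t - i)) +
      (K.L * C + 1) * Real.exp (2 * K.L + (2 * K.L + A.F.C) * q x) *
        Real.exp ((K.L + 1) * ε * t) * dist x y := by
  obtain ⟨δ, C, hδ, hC, h⟩ := A.I.orbit A.a
  refine ⟨δ, C, hδ, hC, fun ε q E h2 x hx y t hd => ?_⟩
  have l0 := K.L_nonneg
  have c0 := A.F.one_le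
  have p1 := A.pos
  have p2 := A.η_pos
  have e0 := E.pos
  have hq := E.one_le
  have hh : ∀ s, K.h (S.act s x) ≤ q (S.act s x) := fun s => E.h_le _ (A.F.inv0 s x hx)
  have hcl : ∀ i ≤ t, dist (S.act (i • A.a) x) (S.act (i • A.a) y) ≤
      δ * Real.exp (-2 * K.h (S.act (i • A.a) x)) := fun i hi =>
    (hd i hi).trans (mul_le_mul (min_le_left _ _) (Real.exp_le_exp.2 (by
      nlinarith [hh (i • A.a), hq (S.act (i • A.a) x)])) (Real.exp_pos _).le hδ.le)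
  have hd1 : ∀ i ≤ t, dist (S.act (i • A.a) x) (S.act (i • A.a) y) ≤
      Real.exp (-(K.L + (2 + K.L + A.F.C) * q (S.act (i • A.a) x))) := fun i hi =>
    (hd i hi).trans (mul_le_of_le_one_left (Real.exp_pos _).le (min_le_right _ _))
  obtain ⟨Y, hY, p, e, hb⟩ := h x y (by
    have h3 := hcl 0 t.zero_le
    rw [zero_smul, S.zero, S.zero] at h3
    exact h3.trans (mul_le_of_le_one_right hδ.le
      (Real.exp_le_one_iff.2 (by linarith [K.h_nonneg x]))))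
  have hb' := hb t hcl
  refine ⟨⟨Y, hY, by rw [e, A.I.π_smul, A.I.π_j], fun i hi => (hb' i hi).1⟩, fun i hi => ?_⟩
  have h4 := E.track x hx t p (fun j hj => by
    refine (hb' j hj).2.trans ((mul_le_mul_of_nonneg_left (hd1 j hj) (Real.exp_pos _).le).trans ?_)
    rw [← Real.exp_add]
    refine Real.exp_le_exp.2 ?_
    nlinarith [mul_le_mul_of_nonneg_left (hh (j • A.a)) l0, hq (S.act (j • A.a) x)]) i hi
  have h5 := hb' 0 t.zero_le
  rw [zero_smul, Ad_zero, S.zero, S.zero, Skew.mv, K.β_zero, map_one,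
    Equiv.Perm.one_apply] at h5
  have h6 : ‖D.Ad (D.a (t • A.a)) Y‖ ≤ C := (hb' t le_rfl).1.trans
    (mul_le_of_le_one_right hC ((hd1 t le_rfl).trans (Real.exp_le_one_iff.2 (by
      nlinarith [hq (S.act (t • A.a) x)]))))
  have h7 := A.I.dist_le (i • A.a) x hY p
  rw [← e] at h7
  have i0 : (0 : ℝ) ≤ i := i.cast_nonneg
  have it : (i : ℝ) ≤ t := Nat.cast_le.2 hi
  have h8 : q (S.act (i • A.a) x) ≤ q (S.act (t • A.a) x) + ε * (t - i) := by
    have h9 := E.slow_b (t - i) _ (A.F.inv0 (t • A.a) x hx)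
    rw [← S.add, Nat.cast_sub hi] at h9
    convert h9 using 4
    rw [eq_neg_add_iff_add_eq, ← add_smul, Nat.sub_add_cancel hi]
  have h9 := E.slow_f i x hx
  have d0 : 0 ≤ dist x y := dist_nonneg
  set u1 := Real.exp (K.L + (K.L + A.F.C) * q (S.act (t • A.a) x)) *
    Real.exp (-(A.s1 + 2 * A.η) * (t - i)) with hu1
  set u2 := Real.exp (2 * K.L + (2 * K.L + A.F.C) * q x) * Real.exp ((K.L + 1) * ε * t) with hu2
  have a1 : Real.exp (-(A.s2 * (t - i))) ≤ u1 := by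
    rw [hu1, ← Real.exp_add]
    refine Real.exp_le_exp.2 ?_
    nlinarith [hq (S.act (t • A.a) x), mul_nonneg p2.le (sub_nonneg.2 it), A.s2_eq (t - i)]
  have a2 : 1 ≤ u2 := by
    rw [hu2, ← Real.exp_add]
    refine Real.one_le_exp ?_
    have := hq x
    positivity
  have a3 : Real.exp (K.L * (1 + K.h (S.act (i • A.a) x))) *
      Real.exp (A.F.C * q (S.act (t • A.a) x) - A.s2 * (t - i)) ≤ u1 := by
    rw [hu1, ← Real.exp_add, ← Real.exp_add]
    refine Real.exp_le_exp.2 ?_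
    nlinarith [mul_le_mul_of_nonneg_left ((hh _).trans h8) l0,
      mul_le_mul_of_nonneg_right h2 (sub_nonneg.2 it), A.s2_eq (t - i)]
  have a4 : Real.exp (K.L * (1 + K.h (S.act (i • A.a) x))) * Real.exp (A.F.C * q x + ε * t) *
      Real.exp (K.L * (1 + K.h x)) ≤ u2 := by
    rw [hu2, ← Real.exp_add, ← Real.exp_add, ← Real.exp_add]
    refine Real.exp_le_exp.2 ?_
    nlinarith [mul_le_mul_of_nonneg_left ((hh _).trans h9) l0,
      mul_le_mul_of_nonneg_left (E.h_le x hx) l0,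
      mul_le_mul_of_nonneg_left it (mul_nonneg l0 e0.le)]
  have b1 : ‖D.Ad (D.a (i • A.a)) Y‖ ≤ C * u1 + C * (u2 * dist x y) := by
    refine (A.Ad_split hY hi).trans (add_le_add ?_ (h5.1.trans ?_))
    · rw [mul_comm]
      exact mul_le_mul h6 a1 (Real.exp_pos _).le hC
    · exact mul_le_mul_of_nonneg_left (le_mul_of_one_le_left d0 a2) hC
  have b2 : Real.exp (K.L * (1 + K.h (S.act (i • A.a) x))) *
      dist (K.mv (i • A.a) x p) (K.pt (S.act (i • A.a) x)) ≤ u1 + u2 * dist x y := by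
    refine (mul_le_mul_of_nonneg_left (h4.trans (add_le_add le_rfl
      (mul_le_mul_of_nonneg_left h5.2 (Real.exp_pos _).le))) (Real.exp_pos _).le).trans ?_
    rw [mul_add, ← mul_assoc, ← mul_assoc]
    exact add_le_add a3 (mul_le_mul_of_nonneg_right a4 d0)
  refine h7.trans ((add_le_add (mul_le_mul_of_nonneg_left b1 l0) b2).trans_eq ?_)
  rw [hu1, hu2]
  ring

end Dat

end Pool.Agent.P.MP_d483fb_an.Z.Geo.Asm
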