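import Pool.Agent.P.MP_d483fb_an.Z.Geo.Asm2

/-!
The unstable leaf structure of the suspension: the tempered function.
-/

open scoped Matrix Matrix.Norms.Operator InnerProductSpace RealInnerProductSpace Topology
open MeasureTheory Filter Set NormedSpace

set_option linter.unusedSectionVars false

noncomputable section

namespace Pool.Agent.P.MP_d483fb_an.Z.Geo.Asm

open Os NF

variable {G : Type} [Group G] [TopologicalSpace G] [IsTopologicalGroup G] [ConnectedSpace G]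
  [T2Space G] [MeasurableSpace G] [BorelSpace G] {n k : ℕ} {D : Std G n k} {B : Type}
  [MetricSpace B] [ProperSpace B] [MeasurableSpace B] [BorelSpace B] [MulAction G B]
  [ContinuousSMul G B] {X Γ M : Type} [MetricSpace X] [ProperSpace X] [MeasurableSpace X]
  [BorelSpace X] [MulAction G X] {μ : Measure X} [Group Γ] [MeasurableSpace Γ] [Countable Γ]
  [DiscreteMeasurableSpace Γ] [MetricSpace M] [MeasurableSpace M] [BorelSpace M]
  [SecondCountableTopology M] {α : Γ →* Equiv.Perm M} {len : Γ → ℝ} {d : ℕ}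
  {S : Sys (Euc k) X μ} {J : Jets α len d} {K : Skew S J} {lam : Fin d → Euc k →L[ℝ] ℝ}
  {κ : Type} [Fintype κ] [DecidableEq κ]

namespace Dat

variable (A : Dat D B K lam κ) {ε ε' N P : ℝ} {q : X → ℝ}

theorem norm_v (s : ℝ × ℝ) : ‖A.v s‖ ≤ (‖A.a‖ + ‖A.Ph‖) * ‖s‖ := by
  refine (norm_add_le _ _).trans ?_
  rw [norm_smul, norm_smul, add_mul, mul_comm, mul_comm ‖s.2‖]
  exact add_le_add (mul_le_mul_of_nonneg_left (norm_fst_le s) (norm_nonneg _))
    (mul_le_mul_of_nonneg_left (norm_snd_le s) (norm_nonneg _))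

theorem temp (E : A.F.Est A.s2 ε' q) (hN : 1 ≤ N) (hP : A.F.C ≤ P) (h1 : P * ε' ≤ ε)
    (h2 : P * ε' * (‖A.a‖ + ‖A.Ph‖) ≤ ε) : A.pre.Temp ε fun x => N * Real.exp (P * q x) := by
  have c0 := A.F.one_le
  have e0 := E.pos
  have p0 : 0 ≤ P := by linarith
  have n0 : 0 ≤ N := by linarith
  have ε0 : 0 ≤ ε := (mul_nonneg p0 e0.le).trans h1
  have hq := E.one_le
  have key : ∀ s, P * (ε' * ‖A.v s‖) ≤ ε * ‖s‖ := fun s => by
    have := mul_le_mul_of_nonneg_left (A.norm_v s) (mul_nonneg p0 e0.le)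
    nlinarith [mul_le_mul_of_nonneg_right h2 (norm_nonneg s)]
  have one : ∀ x, 1 ≤ N * Real.exp (P * q x) := fun x =>
    one_le_mul_of_one_le_of_one_le hN (Real.one_le_exp (mul_nonneg p0 (by linarith [hq x])))
  refine ⟨(E.meas.const_mul P).exp.const_mul N, one, fun x hx i => ?_,
    ⟨Real.exp (P * A.F.B), fun x hx s => ?_⟩, fun x hx s => ?_⟩
  · have h3 : q (A.pre.a i x) ≤ q x + ε' * |(i : ℝ)| := by
      obtain ⟨m, rfl | rfl⟩ := i.eq_nat_or_neg
      · simpa only [a_nat, Int.cast_natCast, Nat.abs_cast] using E.slow_f m x hx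
      · simpa only [a_neg, Int.cast_neg, Int.cast_natCast, abs_neg, Nat.abs_cast] using
          E.slow_b m x hx
    rw [mul_assoc, ← Real.exp_add]
    refine mul_le_mul_of_nonneg_left (Real.exp_le_exp.2 ?_) n0
    nlinarith [mul_le_mul_of_nonneg_left h3 p0,
      mul_le_mul_of_nonneg_right h1 (abs_nonneg (i : ℝ))]
  · rw [mul_left_comm, mul_assoc, ← Real.exp_add, ← Real.exp_add]
    refine mul_le_mul_of_nonneg_left (Real.exp_le_exp.2 ?_) n0
    have h3 : q (A.pre.f s x) ≤ _ := E.slowA (A.v s) x hx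
    nlinarith [mul_le_mul_of_nonneg_left h3 p0, key s]
  · have h3 : Real.exp (A.F.C * (q x + ε' * ‖A.v s‖)) ≤
        N * Real.exp (P * q x) * Real.exp (ε * ‖s‖) := by
      rw [mul_assoc, ← Real.exp_add]
      refine le_trans (Real.exp_le_exp.2 ?_) (le_mul_of_one_le_left (Real.exp_pos _).le hN)
      have h4 : 0 ≤ q x + ε' * ‖A.v s‖ := by
        have := hq x
        positivity
      nlinarith [mul_le_mul_of_nonneg_right hP h4, key s]
    have h4 : ‖(1 : Mat n)‖ ≤ N * Real.exp (P * q x) * Real.exp (ε * ‖s‖) :=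
      norm_one_le'.trans (one_le_mul_of_one_le_of_one_le (one x)
        (Real.one_le_exp (by positivity)))
    have e : A.v (-s.1, -s.2) = -A.v s := by simp [v, add_comm]
    obtain ⟨g1, g2⟩ := E.grow (A.v s) x hx
    constructor
    · show ‖A.L s x * A.w.dil (-s.1) (-s.2)‖ ≤ _
      rw [dil_eq, L, blk_mul, e, ← map_mul, D.a_neg, mul_inv_cancel, map_one]
      simp only [map_neg]
      exact norm_blk_le _ _ h4 (g1.trans h3)
    · show ‖A.w.dil s.1 s.2 * (A.L s x)⁻¹‖ ≤ _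
      rw [dil_eq, L, blk_inv _ _ (ρ_unit _) (A.F.Gen_unit _ (A.F.L_mem _ x hx)), blk_mul,
        Matrix.mul_nonsing_inv _ (ρ_unit _)]
      exact norm_blk_le _ _ h4 (g2.trans h3)

theorem geo (ε : ℝ) (hε : 0 < ε) : ∃ q, A.pre.Temp ε q ∧ A.geoPre.Est ε q := by
  obtain ⟨δb, Cb, db, cb, hb⟩ := A.back
  obtain ⟨δf, Cf, df, cf, hf⟩ := A.fwd
  have l1 := A.I.one_le
  have c1 := A.F.one_le
  have p2 := A.η_pos
  have lc : 0 ≤ A.F.C * K.L := by positivity
  obtain ⟨P, P1⟩ : ∃ P, P = 2 + 4 * K.L + A.F.C + A.F.C * K.L := ⟨_, rfl⟩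
  have m0 : 0 < min δf 1 := lt_min df one_pos
  obtain ⟨N, N1, N2, N3, N4, N5⟩ : ∃ N : ℝ, 1 ≤ N ∧ δb⁻¹ ≤ N ∧ Cb ≤ N ∧ (min δf 1)⁻¹ ≤ N ∧
      K.L * Cf + 1 ≤ N := by
    have := inv_pos.2 db
    have := inv_pos.2 m0
    have : 0 ≤ K.L * Cf := by positivity
    exact ⟨1 + δb⁻¹ + Cb + (min δf 1)⁻¹ + K.L * Cf, by linarith, by linarith, by linarith,
      by linarith, by linarith⟩
  have P0 : 0 < P := by linarith
  have V0 : 0 ≤ ‖A.a‖ + ‖A.Ph‖ := by positivity
  obtain ⟨e, e0, e1, e2⟩ : ∃ e : ℝ, 0 < e ∧ P * e * (1 + (‖A.a‖ + ‖A.Ph‖)) ≤ ε ∧ P * e ≤ A.η := by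
    have h1 : 0 < P * (1 + (‖A.a‖ + ‖A.Ph‖)) := by positivity
    refine ⟨min (ε / (P * (1 + (‖A.a‖ + ‖A.Ph‖)))) (A.η / P), by positivity, ?_, ?_⟩
    · rw [mul_right_comm, mul_comm]
      exact (le_div_iff₀ h1).1 (min_le_left _ _)
    · rw [mul_comm]
      exact (le_div_iff₀ P0).1 (min_le_right _ _)
  have pe : 0 < P * e := by positivity
  have e3 : P * e ≤ ε := by nlinarith
  have e4 : K.L * e ≤ A.η := by nlinarith
  obtain ⟨q, E⟩ := A.F.est e e0
  have hq := E.one_le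
  have N0 : 0 < N := by linarith
  have up : ∀ {c u : ℝ} (x : X), c ≤ N → u ≤ P * q x → c * Real.exp u ≤ N * Real.exp (P * q x) :=
    fun x h h' => mul_le_mul h (Real.exp_le_exp.2 h') (Real.exp_pos _).le N0.le
  have dn : ∀ {c u : ℝ} (x : X), 0 < c → c⁻¹ ≤ N → u ≤ P * q x →
      1 / (N * Real.exp (P * q x)) ≤ c * Real.exp (-u) := fun {c u} x h0 h h' => by
    rw [Real.exp_neg, one_div, ← inv_inv c, ← mul_inv]
    exact inv_anti₀ (by positivity) (up x h h')
  refine ⟨fun x => N * Real.exp (P * q x), A.temp E N1 (by linarith) e3 (by nlinarith),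
    fun r => ?_, fun x hx y hy h => ?_, fun x hx y t h i hi => ?_, Cf, fun x hx y t h => ?_⟩
  · obtain ⟨R0, r0, h⟩ := A.size r
    refine ⟨K.L * R0 + Real.exp (A.F.C * R0), fun x y hR hN i => ?_⟩
    show dist (A.pre.a (-i) x) (A.pre.a (-i) y) ≤ _
    rw [a_neg, a_neg]
    refine (A.G1 E e4 hR r0 (h x y hR hN).1 (h x y hR hN).2 i).trans
      (mul_le_mul_of_nonneg_right (mul_le_mul_of_nonneg_left ?_ (by positivity))
        (Real.exp_pos _).le)
    simpa only [one_mul] using up x N1 (by nlinarith [hq x])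
  · obtain ⟨Y, hY, p, e5, h1, h2⟩ := hb e q E (by nlinarith) e4 x hx y
      (1 / (N * Real.exp (P * q x)))
      (by simpa only [neg_mul] using dn (u := 2 * q x) x db N2 (by nlinarith [hq x])) fun i => by
        rw [← a_neg, ← a_neg, mul_comm, mul_one_div]
        exact h i
    obtain ⟨f1, -, f3⟩ := pos_of hx hY e5
    have Q0 : 0 < N * Real.exp (P * q x) := by positivity
    have h3 := A.T_le E (A.R_of hx hy hY e5 h2) (by
      rw [f1]
      refine h1.trans ?_
      rw [mul_one_div, div_le_one Q0]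
      simpa using up (u := 0) x N3 (by nlinarith [hq x])) (by
      rw [f3]
      refine h2.mono le_rfl ?_
      rw [mul_one_div, div_le_one Q0]
      simpa only [one_mul] using up x N1 (by nlinarith [hq x]))
    have h4 : Real.exp (A.F.C * (q x + q y + 2 * K.L)) ≤
        N * Real.exp (P * q x) * (N * Real.exp (P * q y)) := by
      have h5 : ∀ z, Real.exp (A.F.C * (q z + K.L)) ≤ N * Real.exp (P * q z) := fun z => by
        simpa only [one_mul] using up z N1 (by nlinarith [hq z])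
      refine le_trans (le_of_eq ?_) (mul_le_mul (h5 x) (h5 y) (Real.exp_pos _).le Q0.le)
      rw [← Real.exp_add]
      congr 1
      ring
    exact ⟨h3.1.trans h4, h3.2.trans h4⟩
  · have h1 := (hf e q E e4 x hx y t fun j hj => by
      have h2 := h j hj
      simp only [geoPre, a_nat] at h2
      exact h2.trans (dn _ m0 N4 (by nlinarith [hq (S.act (j • A.a) x)]))).2 i hi
    simp only [geoPre, a_nat]
    refine h1.trans (add_le_add (mul_le_mul_of_nonneg_right (up _ N5 ?_) (Real.exp_pos _).le)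
      (mul_le_mul_of_nonneg_right (mul_le_mul (up _ N5 ?_) (Real.exp_le_exp.2 ?_)
        (Real.exp_pos _).le (by positivity)) dist_nonneg))
    · nlinarith [hq (S.act (t • A.a) x)]
    · nlinarith [hq x]
    · exact mul_le_mul_of_nonneg_right (by nlinarith) t.cast_nonneg
  · have h1 := (hf e q E e4 x hx y t fun j hj => by
      have h2 := h j hj
      simp only [geoPre, a_nat] at h2
      exact h2.trans (dn _ m0 N4 (by nlinarith [hq (S.act (j • A.a) x)]))).1
    simpa only [geoPre, a_nat, a_nsmul'] using h1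

/-- The unstable leaf structure. -/
def geoLS : GeoLS D B X μ κ := ⟨A.geoPre, A.geo⟩

end Dat

theorem exists_geoLS (I : Inp D B K) {a Ph : Euc k} {s1 s2 : ℝ} (F : Fib K lam a s1 s2 κ)
    (hg : Gnr D lam a Ph) (he : Ergodic (S.act a) μ) (h1 : 0 < s1) (h2 : s1 < s2)
    (h3 : ∀ β ∈ D.wts, 0 < ⟪β, a⟫ → s2 ≤ ⟪β, a⟫) :
    ∃ T : GeoLS D B X μ κ, T.Ha = a ∧ T.k1 = F.k1 ∧ ∀ j, T.om (.inr j) = vec (F.om j) :=
  ⟨(Dat.mk I a Ph s1 s2 F hg he h1 h2 h3).geoLS, rfl, rfl, fun _ => rfl⟩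

end Pool.Agent.P.MP_d483fb_an.Z.Geo.Asm
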