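import Pool.Agent.P.MP_d483fb_an.Z.NF.Formal
import Pool.Agent.P.MP_d483fb_an.Z.Su.Len2
import Pool.Agent.P.MP_d483fb_an.Z.LS.Defs

/-!
The two inputs of the construction of the unstable leaf structure: normal forms in the fibres as
matrices (`Fib`) and the geometry of the suspension (`Inp`).
-/

open scoped Matrix Matrix.Norms.Operator InnerProductSpace RealInnerProductSpace Topology
open MeasureTheory Filter Set

noncomputable section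

namespace Pool.Agent.P.MP_d483fb_an.Z.Geo

open Os NF

section Fib

variable {W X Γ M : Type} [NormedAddCommGroup W] [NormedSpace ℝ W] [MeasurableSpace W]
  [MeasurableSpace X] {μ : Measure X} [Group Γ] [MeasurableSpace Γ] [MetricSpace M]
  [MeasurableSpace M] {α : Γ →* Equiv.Perm M} {len : Γ → ℝ} {d : ℕ} {S : Sys W X μ}
  {J : Jets α len d}

/-- `γ` is a tempered holonomy from the fibre of `y` to the fibre of `x` which carries `y` in the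
unstable leaf of `x`. -/
structure Ok (K : Skew S J) (X0 : Set X) (a : W) (s1 : ℝ) (x y : X) (γ : Γ) : Prop where
  left : x ∈ X0
  right : y ∈ X0
  hol : ∃ C0, K.Hol a C0 x y γ ∧ K.Hol a C0 y x γ⁻¹
  mem : α γ (K.pt y) ∈ K.Wu a s1 x

/-- Normal forms as matrices: data and qualitative properties. -/
structure Fib0 (K : Skew S J) (lam : Fin d → W →L[ℝ] ℝ) (a : W) (s1 : ℝ) (κ : Type) [Fintype κ]
    [DecidableEq κ] where
  C : ℝ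
  B : ℝ
  X0 : Set X
  om : κ → W →L[ℝ] ℝ
  e0 : κ
  k1 : Finset κ
  Gen : Submonoid (Matrix κ κ ℝ)
  Lm : W → X → Matrix κ κ ℝ
  Tm : X → X → Γ → Matrix κ κ ℝ
  one_le : 1 ≤ C
  meas0 : MeasurableSet X0
  ae0 : ∀ᵐ x ∂μ, x ∈ X0
  inv0 : ∀ s, ∀ x ∈ X0, S.act s x ∈ X0
  om_mem : ∀ m, om m ∈ AddSubgroup.closure (range lam)
  om_e0 : om e0 = 0
  om_pos : ∀ m, m ≠ e0 → 0 < om m a
  card_le : ∀ β, Nat.card {m : κ // m ∈ k1 ∧ om m = β} ≤ Nat.card {i // lam i = β}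
  Gen_unit : ∀ T ∈ Gen, IsUnit T.det
  Gen_inv : ∀ T ∈ Gen, T⁻¹ ∈ Gen
  Gen_cl : ∀ T, IsUnit T.det → T ∈ closure (Gen : Set (Matrix κ κ ℝ)) → T ∈ Gen
  Gen_e0 : ∀ T ∈ Gen, T e0 e0 = 1
  Gen_lie : ∀ V : Matrix κ κ ℝ, (∀ t : ℝ, NormedSpace.exp (t • V) ∈ Gen) → ∀ m ∉ k1, V m e0 = 0
  dil_mem : ∀ s, (Matrix.diagonal fun m => Real.exp (om m s)) ∈ Gen
  measL : ∀ s, Measurable (Lm s)
  L_zero : ∀ x ∈ X0, Lm 0 x = 1
  L_add : ∀ s t, ∀ x ∈ X0, Lm (s + t) x = Lm s (S.act t x) * Lm t x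
  L_res : ∀ s, ∀ x ∈ X0, ∀ m m', Lm s x m m' ≠ 0 → om m = om m'
  L_mem : ∀ s, ∀ x ∈ X0, Lm s x ∈ Gen
  measT : Measurable fun p : X × X × Γ => Tm p.1 p.2.1 p.2.2
  mv_mem : ∀ s, ∀ x ∈ X0, ∀ z ∈ K.Wu a s1 x, K.mv s x z ∈ K.Wu a s1 (S.act s x)
  ok_symm : ∀ x y γ, Ok K X0 a s1 x y γ → Ok K X0 a s1 y x γ⁻¹
  ok_mem : ∀ x y γ, Ok K X0 a s1 x y γ → ∀ z ∈ K.Wu a s1 y, α γ z ∈ K.Wu a s1 x
  T_self : ∀ x ∈ X0, Tm x x 1 = 1
  T_mul : ∀ x y z γ γ', Ok K X0 a s1 x y γ → Ok K X0 a s1 y z γ' → Ok K X0 a s1 x z (γ * γ') →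
    Tm x y γ * Tm y z γ' = Tm x z (γ * γ')
  T_tri : ∀ x y γ, Ok K X0 a s1 x y γ → ∀ m m', Tm x y γ m m' ≠ 0 → om m' a ≤ om m a
  T_mem : ∀ x y γ, Ok K X0 a s1 x y γ → Tm x y γ ∈ Gen
  T_act : ∀ s x y γ, Ok K X0 a s1 x y γ →
    Ok K X0 a s1 (S.act s x) (S.act s y) (K.β s x * γ * (K.β s y)⁻¹) →
    Tm (S.act s x) (S.act s y) (K.β s x * γ * (K.β s y)⁻¹) = Lm s x * Tm x y γ * (Lm s y)⁻¹
  T_inj : ∀ x y y' γ γ', Ok K X0 a s1 x y γ → Ok K X0 a s1 x y' γ' →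
    (∀ m, Tm x y γ m e0 = Tm x y' γ' m e0) → α γ (K.pt y) = α γ' (K.pt y')

variable {K : Skew S J} {lam : Fin d → W →L[ℝ] ℝ} {a : W} {s1 : ℝ} {κ : Type} [Fintype κ]
  [DecidableEq κ]

/-- Normal forms as matrices: the estimates. -/
structure Fib0.Est (F : Fib0 K lam a s1 κ) (s2 ε : ℝ) (q : X → ℝ) : Prop
    extends Slow K F.X0 F.B a ε q where
  grow : ∀ s, ∀ x ∈ F.X0,
    ‖F.Lm s x * Matrix.diagonal fun m => Real.exp (-F.om m s)‖ ≤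
      Real.exp (F.C * (q x + ε * ‖s‖)) ∧
    ‖(Matrix.diagonal fun m => Real.exp (F.om m s)) * (F.Lm s x)⁻¹‖ ≤
      Real.exp (F.C * (q x + ε * ‖s‖))
  T_le : ∀ x ∈ F.X0, ∀ y ∈ F.X0, ∀ γ C0 R, 0 ≤ C0 → 0 ≤ R → K.Hol a C0 x y γ →
    K.Hol a C0 y x γ⁻¹ → K.Sh a s1 (Real.exp R) x (α γ (K.pt y)) →
    ‖F.Tm x y γ‖ ≤ Real.exp (F.C * (q x + q y + C0 + R)) ∧
      ‖F.Tm y x γ⁻¹‖ ≤ Real.exp (F.C * (q x + q y + C0 + R))
  sh_of : ∀ x y γ R, Ok K F.X0 a s1 x y γ → 0 ≤ R → (∀ m, |F.Tm x y γ m F.e0| ≤ Real.exp R) →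
    K.Sh a s2 (Real.exp (F.C * (q x + R))) x (α γ (K.pt y))
  track : ∀ x ∈ F.X0, ∀ (t : ℕ) z,
    (∀ i ≤ t, dist (K.mv (i • a) x z) (K.pt (S.act (i • a) x)) ≤
      Real.exp (-(F.C * q (S.act (i • a) x)))) →
    ∀ i ≤ t, dist (K.mv (i • a) x z) (K.pt (S.act (i • a) x)) ≤
      Real.exp (F.C * q (S.act (t • a) x) - s2 * (t - i)) +
        Real.exp (F.C * q x + ε * t) * dist z (K.pt x)

/-- Normal forms as matrices. -/
structure Fib (K : Skew S J) (lam : Fin d → W →L[ℝ] ℝ) (a : W) (s1 s2 : ℝ) (κ : Type) [Fintype κ]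
    [DecidableEq κ] extends Fib0 K lam a s1 κ where
  est : ∀ ε, 0 < ε → ∃ q, toFib0.Est s2 ε q

end Fib

section Inp

variable {G : Type} [Group G] [TopologicalSpace G] {n k : ℕ} {X Γ M : Type} [MetricSpace X]
  [MeasurableSpace X] [MulAction G X] {μ : Measure X} [Group Γ] [MeasurableSpace Γ]
  [MetricSpace M] [MeasurableSpace M] {α : Γ →* Equiv.Perm M} {len : Γ → ℝ} {d : ℕ}
  {S : Sys (Euc k) X μ} {J : Jets α len d}

/-- The geometry of the suspension. -/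
structure Inp [MeasurableSpace G] (D : Std G n k) (B : Type) [TopologicalSpace B]
    [MeasurableSpace B] [MulAction G B] (K : Skew S J) where
  π : X → B
  j : B → M → X
  c : G → B → Γ
  ht : B → ℝ
  r : ℝ
  act_eq : ∀ s x, S.act s x = D.a s • x
  β_eq : ∀ s x, K.β s x = c (D.a s) (π x)
  h_eq : ∀ x, K.h x = ht (π x)
  one_le : 1 ≤ K.L
  π_cont : Continuous π
  π_smul : ∀ (g : G) x, π (g • x) = g • π x
  base : ∀ g : G, MeasurePreserving (fun b : B => g • b) (μ.map π) (μ.map π)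
  meas_c : Measurable fun p : G × B => c p.1 p.2
  π_j : ∀ b p, π (j b p) = b
  pt_j : ∀ b p, K.pt (j b p) = p
  j_pt : ∀ x, j (π x) (K.pt x) = x
  c_one : ∀ b, c 1 b = 1
  c_mul : ∀ g h b, c (g * h) b = c g (h • b) * c h b
  smul_j : ∀ (g : G) b p, g • j b p = j (g • b) (α (c g b) p)
  ht_cont : Continuous ht
  r_pos : 0 < r
  inj : ∀ (g : G) b, g • b = b → D.len g < r * Real.exp (-2 * ht b) → g = 1
  len_c : ∀ g b, len (c g b) ≤ K.L * (1 + D.len g) + K.L * (ht (g • b) + ht b)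
  dist_smul_self : ∀ (g : G) (x : X), dist (g • x) x ≤ K.L * D.len g
  dist_smul : ∀ (g : G) (x y : X), dist (g • x) (g • y) ≤ Real.exp (K.L * (1 + D.len g)) * dist x y
  dist_j : ∀ b p p', dist (j b p) (j b p') ≤ Real.exp (K.L * (1 + ht b)) * dist p p'
  near : ∀ x y : X, ∃ (g : G) (p : M), y = g • j (π x) p ∧ D.len g ≤ K.L * dist x y ∧
    dist p (K.pt x) ≤ Real.exp (K.L * (1 + ht (π x))) * dist x y
  cover : ∀ Q : Set X, IsCompact Q → ∃ C : ℝ, ∀ ρ : ℝ, 0 < ρ → ρ ≤ 1 →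
    ∃ F : Finset X, (F.card : ℝ) ≤ C * ρ⁻¹ ^ C ∧ Q ⊆ ⋃ z ∈ F, Metric.ball z ρ

/-- The vector that represents a linear form. -/
def vec (l : Euc k →L[ℝ] ℝ) : Euc k := (InnerProductSpace.toDual ℝ (Euc k)).symm l

/-- The group generated by all the weights. -/
def Lam (D : Std G n k) (lam : Fin d → Euc k →L[ℝ] ℝ) : AddSubgroup (Euc k) :=
  AddSubgroup.closure (range D.lam ∪ range fun i => vec (lam i))

/-- A generic pair of directions. -/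
structure Gnr (D : Std G n k) (lam : Fin d → Euc k →L[ℝ] ℝ) (Ha Ph : Euc k) : Prop where
  g1 : ∀ v ∈ Lam D lam, ⟪v, Ha⟫ = 0 → v = 0
  g2 : ∀ v ∈ Lam D lam, ∀ v' ∈ Lam D lam, 0 < ⟪v, Ha⟫ → 0 < ⟪v', Ha⟫ →
    ⟪v, Ph⟫ / ⟪v, Ha⟫ = ⟪v', Ph⟫ / ⟪v', Ha⟫ → v ∈ Std.cls v'

end Inp

end Pool.Agent.P.MP_d483fb_an.Z.Geo
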