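import Pool.Agent.P.MP_d483fb_an.Z.Geo.Asm3
import Pool.Agent.P.MP_d483fb_an.Z.Su.Skew
import Pool.Agent.P.MP_d483fb_an.Z.NF.Main
import Pool.Agent.P.MP_d483fb_an.Z.NF.FibEx

/-!
The suspension of a smooth action has unstable leaf structures in a dense set of directions.
-/

open scoped Manifold ContDiff InnerProductSpace RealInnerProductSpace Topology
open MeasureTheory Filter Set

set_option linter.unusedSectionVars false

noncomputable section

namespace Pool.Agent.P.MP_d483fb_an.Z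

variable {G : Type} [Group G] [TopologicalSpace G] [IsTopologicalGroup G] [ConnectedSpace G]
  [T2Space G] [LocallyCompactSpace G] [SecondCountableTopology G] [MeasurableSpace G]
  [BorelSpace G] {n k : ℕ}

variable {m : ℕ} {M : Type} [MetricSpace M] [CompactSpace M] [MeasurableSpace M] [BorelSpace M]
  [ChartedSpace (EuclideanSpace ℝ (Fin m)) M] [IsManifold (𝓡 m) ∞ M]

theorem Std.exists_susp (D : Std G n k) (Γ : Subgroup G) [DiscreteTopology Γ] [Nonempty M]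
    (m0 : Measure (D.lat Γ).B) [IsProbabilityMeasure m0] [SMulInvariantMeasure G (D.lat Γ).B m0]
    (e : Emb m M) (α : (D.lat Γ).Γ →* Equiv.Perm M)
    (J : NF.Jets α (fun γ => D.len γ) m) :
    ∃ (X : Type) (_ : MetricSpace X) (_ : ProperSpace X) (_ : MeasurableSpace X)
      (_ : BorelSpace X) (_ : MulAction G X) (_ : ContinuousSMul G X) (E : Skw (D.lat Γ) α X),
      Continuous E.π ∧ (∀ K, IsCompact K → IsCompact (E.π ⁻¹' K)) ∧ D.HasGeo m E.π m0 := by
  classical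
  obtain ⟨X, i1, i2, i3, i4, i5, i6, E, h1, h2, h3⟩ := D.susp_of_inp Γ m0 e α J
  refine ⟨X, i1, i2, i3, i4, i5, i6, E, h1, h2, fun ν hν h0 hI hE => ?_⟩
  obtain ⟨S, K, I, -⟩ := h3 ν h0 hI hE
  obtain ⟨c, L, -, hc⟩ := K.tcoc_Dl
  obtain ⟨ι, _, ⟨o⟩⟩ := Os.oseledets_temp hc K.sm_Dl
  obtain ⟨σ, -, hσ⟩ := NF.exists_leaf K o
  refine ⟨fun i => Geo.vec (o.lamL (σ i)), fun O hO hne => ?_⟩
  obtain ⟨a, ha, Ph, hg, he⟩ := Geo.exists_gnr D (fun i => o.lamL (σ i)) S K.measAct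
    (fun U hU h => hE U hU fun s => by simpa only [← I.act_eq] using h s) hO hne
  obtain ⟨s2, p1, p2, p3⟩ := Geo.exists_rates D (fun i => o.lamL (σ i)) a
  obtain ⟨Lf⟩ := hσ a (s2 / 2) s2 (half_pos p1) (half_lt_self p1) p2
  obtain ⟨κ, j1, j2, ⟨F⟩⟩ := Lf.exists_fib
  obtain ⟨T, t1, t2, t3⟩ := Geo.Asm.exists_geoLS I F hg he (half_pos p1) (half_lt_self p1) p3
  refine ⟨κ, j1, j2, T, t1 ▸ ha, fun β => ?_⟩
  obtain ⟨l, rfl⟩ : ∃ l, Geo.vec l = β :=
    (InnerProductSpace.toDual ℝ (Euc k)).symm.surjective β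
  simpa only [t2, t3, Geo.vec_inj.eq_iff] using F.card_le l

end Pool.Agent.P.MP_d483fb_an.Z
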