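import Pool.Agent.P.MP_d483fb_an.Z.Geo.Defs
import Pool.Agent.P.MP_d483fb_an.Z.Lie.Std1

/-!
Close orbits in the suspension differ by one element of the group and one point of the fibre.
-/

open scoped Matrix Matrix.Norms.Operator InnerProductSpace RealInnerProductSpace Topology
open MeasureTheory Filter Set

set_option linter.unusedSectionVars false

noncomputable section

namespace Pool.Agent.P.MP_d483fb_an.Z.Geo

open Os NF

variable {G : Type} [Group G] [TopologicalSpace G] [IsTopologicalGroup G] [ConnectedSpace G]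
  [MeasurableSpace G] {n k : ℕ} {D : Std G n k} {B : Type} [TopologicalSpace B] [MeasurableSpace B]
  [MulAction G B] {X Γ M : Type} [MetricSpace X] [MeasurableSpace X] [MulAction G X]
  {μ : Measure X} [Group Γ] [MeasurableSpace Γ] [MetricSpace M] [MeasurableSpace M]
  {α : Γ →* Equiv.Perm M} {len : Γ → ℝ} {d : ℕ} {S : Sys (Euc k) X μ} {J : Jets α len d}
  {K : Skew S J}

theorem len_a_le (D : Std G n k) (s : Euc k) : D.len (D.a s) ≤ ‖s‖ := by
  refine (D.len_ex_le (D.dg_mem s)).trans ?_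
  rw [D.dg_apply, Matrix.linfty_opNorm_diagonal]
  refine (pi_norm_le_iff_of_nonneg (norm_nonneg s)).2 fun i => ?_
  have h1 := D.frame s s
  rw [real_inner_self_eq_norm_sq] at h1
  have h2 : ⟪D.lam i, s⟫ * ⟪D.lam i, s⟫ ≤ ‖s‖ ^ 2 := by
    rw [← h1]
    exact Finset.single_le_sum (f := fun i => ⟪D.lam i, s⟫ * ⟪D.lam i, s⟫)
      (fun j _ => mul_self_nonneg _) (Finset.mem_univ i)
  rw [Real.norm_eq_abs]
  exact abs_le_of_sq_le_sq' (by nlinarith) (norm_nonneg s) |> abs_le.2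

theorem a_nsmul' (D : Std G n k) (s : Euc k) (i : ℕ) : D.a (i • s) = D.a s ^ i := by
  rw [← Nat.cast_smul_eq_nsmul ℝ, D.a_nsmul]

theorem mem_np (D : Std G n k) {a : Euc k} {Y : Mat n} (hY : Y ∈ D.g)
    (h : Tendsto (fun i : ℕ => ‖D.Ad (D.a (-(i • a))) Y‖) atTop (𝓝 0)) : Y ∈ D.np a := by
  refine ⟨hY, fun j l hjl => ?_⟩
  by_contra hc
  have hc' : ⟪D.lam j - D.lam l, a⟫ ≤ 0 := not_lt.1 hc
  refine absurd (ge_of_tendsto' h fun i => ?_) (not_le.2 (abs_pos.2 hjl))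
  refine le_trans ?_ (Len2_entry_le _ j l)
  rw [D.Ad_a_apply, abs_mul, abs_of_pos (Real.exp_pos _)]
  refine le_mul_of_one_le_left (abs_nonneg _) (Real.one_le_exp ?_)
  rw [← Nat.cast_smul_eq_nsmul ℝ, inner_neg_right, real_inner_smul_right]
  have : (0 : ℝ) ≤ i := Nat.cast_nonneg i
  nlinarith

namespace Inp

variable (I : Inp D B K)

theorem j_inj {b : B} {p p' : M} (h : I.j b p = I.j b p') : p = p' := by
  rw [← I.pt_j b p, h, I.pt_j]

theorem c_inv (g : G) (b : B) : I.c g⁻¹ (g • b) = (I.c g b)⁻¹ := by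
  refine eq_inv_of_mul_eq_one_left ?_
  rw [← I.c_mul, inv_mul_cancel, I.c_one]

theorem pt_smul (g : G) (x : X) : K.pt (g • x) = α (I.c g (I.π x)) (K.pt x) := by
  conv_lhs => rw [← I.j_pt x, I.smul_j, I.pt_j]

theorem act_j (s : Euc k) (x : X) (p : M) :
    S.act s (I.j (I.π x) p) = I.j (I.π (S.act s x)) (K.mv s x p) := by
  rw [I.act_eq, I.smul_j, I.act_eq, I.π_smul, Skew.mv, I.β_eq]

theorem step (H : ℝ) : ∃ δ : ℝ, 0 < δ ∧ ∀ (h g g' : G) (x y : X) (p p' : M), D.len h ≤ H →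
    y = g • I.j (I.π x) p → h • y = g' • I.j (I.π (h • x)) p' →
    D.len g ≤ δ * Real.exp (-2 * I.ht (I.π (h • x))) →
    D.len g' ≤ δ * Real.exp (-2 * I.ht (I.π (h • x))) →
    g' = h * g * h⁻¹ ∧ p' = α (I.c h (I.π x)) p ∧ D.lg g' = D.Ad h (D.lg g) := by
  obtain ⟨r0, hr0, -, h1, h2⟩ := D.len_chart
  have hr := I.r_pos
  set E := Real.exp (2 * H) with hE
  have hE0 : 0 < E := Real.exp_pos _
  set ρ := min I.r r0 with hρ
  have hρ0 : 0 < ρ := lt_min hr hr0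
  refine ⟨ρ / (4 * (1 + E)), by positivity, fun h g g' x y p p' hh hy hy' hg hg' => ?_⟩
  set δ := ρ / (4 * (1 + E)) with hδ
  have hδ0 : 0 < δ := by positivity
  have hδ1 : δ * (4 * (1 + E)) = ρ := div_mul_cancel₀ _ (by positivity)
  set e := Real.exp (-2 * I.ht (I.π (h • x))) with he
  have he0 : 0 < e := Real.exp_pos _
  have he1 : e ≤ 1 := by
    rw [he, ← I.h_eq, Real.exp_le_one_iff]
    linarith [K.h_nonneg (h • x)]
  have hEh : Real.exp (2 * D.len h) ≤ E := Real.exp_le_exp.2 (by linarith)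
  have e1 : (h * g * h⁻¹) • I.j (I.π (h • x)) (α (I.c h (I.π x)) p) =
      g' • I.j (I.π (h • x)) p' := by
    rw [← hy', hy, I.π_smul, ← I.smul_j, smul_smul, smul_smul, inv_mul_cancel_right]
  have e2 : ((h * g * h⁻¹)⁻¹ * g') • I.π (h • x) = I.π (h • x) := by
    have := congrArg I.π e1
    rw [I.π_smul, I.π_smul g', I.π_j, I.π_j] at this
    rw [mul_smul, ← this, inv_smul_smul]
  have l1 : D.len (h * g * h⁻¹) ≤ E * (δ * e) :=
    (D.len_conj h g).trans (mul_le_mul hEh hg (D.len_nonneg _) hE0.le)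
  have e3 : (h * g * h⁻¹)⁻¹ * g' = 1 := by
    refine I.inj _ _ e2 ?_
    have l2 := D.len_mul (h * g * h⁻¹)⁻¹ g'
    rw [D.len_inv] at l2
    have l3 : ρ * e ≤ I.r * e := mul_le_mul_of_nonneg_right (min_le_left _ _) he0.le
    have l4 : 0 < δ * e * (1 + E) := by positivity
    rw [← hδ1] at l3
    nlinarith
  have e4 : g' = h * g * h⁻¹ := (inv_mul_eq_one.1 e3).symm
  refine ⟨e4, ?_, ?_⟩
  · rw [e4] at e1
    exact (I.j_inj (MulAction.injective _ e1)).symm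
  · have l3 : ρ ≤ r0 := min_le_right _ _
    have l4 : δ * e ≤ δ := mul_le_of_le_one_right hδ0.le he1
    have l5 : 0 < δ * E := by positivity
    obtain ⟨m1, m2, m3, -⟩ := h1 g (by nlinarith)
    have l6 : ‖D.Ad h (D.lg g)‖ < r0 := by
      have := (D.norm_Ad_len h (D.lg g)).trans
        (mul_le_mul hEh (show ‖D.lg g‖ ≤ 3 * δ by linarith) (norm_nonneg _) hE0.le)
      nlinarith
    have e5 : g' = D.ex (D.Ad h (D.lg g)) := by rw [← D.conj_ex h m1, m2, e4]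
    rw [e5]
    exact (h2 _ (D.Ad_mem h m1) _ (D.Ad_mem h m1) l6 l6).1

theorem orbit (a : Euc k) : ∃ δ C : ℝ, 0 < δ ∧ 0 ≤ C ∧ ∀ x y : X,
    dist x y ≤ δ → ∃ Y ∈ D.g, ∃ p, y = D.ex Y • I.j (I.π x) p ∧ ∀ t : ℕ,
      (∀ i ≤ t, dist (S.act (i • a) x) (S.act (i • a) y) ≤
        δ * Real.exp (-2 * K.h (S.act (i • a) x))) → ∀ i ≤ t,
      ‖D.Ad (D.a (i • a)) Y‖ ≤ C * dist (S.act (i • a) x) (S.act (i • a) y) ∧
      dist (K.mv (i • a) x p) (K.pt (S.act (i • a) x)) ≤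
        Real.exp (K.L * (1 + K.h (S.act (i • a) x))) *
          dist (S.act (i • a) x) (S.act (i • a) y) := by
  obtain ⟨r0, hr0, -, h1, -⟩ := D.len_chart
  obtain ⟨δ1, hδ1, hs⟩ := I.step ‖a‖
  choose gg pp hgp hlen hpt using I.near
  have hL := I.one_le
  set E := Real.exp (2 * (K.L * (‖a‖ + 1))) with hE
  have hE1 : 1 ≤ E := Real.one_le_exp (by positivity)
  set ρ := min δ1 (r0 / 2) with hρ
  have hρ0 : 0 < ρ := lt_min hδ1 (half_pos hr0)
  set δ := ρ / (K.L * E) with hδ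
  have hδ0 : 0 < δ := by positivity
  have hδ2 : K.L * δ * E = ρ := by
    rw [hδ]
    field_simp
  have hδ3 : K.L * δ ≤ ρ := by
    rw [← hδ2]
    exact le_mul_of_one_le_right (by positivity) hE1
  have hρ1 : ρ ≤ δ1 := min_le_left _ _
  have hρ2 : ρ ≤ r0 / 2 := min_le_right _ _
  have hsm : ∀ x y : X, dist x y ≤ δ → D.len (gg x y) < r0 := fun x y h => by
    have := (hlen x y).trans (mul_le_mul_of_nonneg_left h K.L_nonneg)
    linarith
  refine ⟨δ, 3 * K.L, hδ0, by positivity, fun x y hxy => ?_⟩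
  obtain ⟨m1, m2, -, -⟩ := h1 _ (hsm x y hxy)
  refine ⟨_, m1, pp x y, by rw [m2]; exact hgp x y, fun t ht => ?_⟩
  have hact : ∀ (i : ℕ) (z : X), D.a a • S.act (i • a) z = S.act ((i + 1) • a) z := fun i z => by
    rw [succ_nsmul', S.add, I.act_eq a]
  have key : ∀ i ≤ t, D.lg (gg (S.act (i • a) x) (S.act (i • a) y)) =
      D.Ad (D.a (i • a)) (D.lg (gg x y)) ∧
      pp (S.act (i • a) x) (S.act (i • a) y) = K.mv (i • a) x (pp x y) := by
    intro i
    induction i with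
    | zero =>
      intro _
      simp [S.zero, D.a_zero, D.Ad_one, Skew.mv, K.β_zero]
    | succ i ih =>
      intro hi
      obtain ⟨i1, i2⟩ := ih (by omega)
      have he0 := Real.exp_pos (-2 * K.h (S.act ((i + 1) • a) x))
      have b1 : Real.exp (-2 * K.h (S.act (i • a) x)) ≤
          E * Real.exp (-2 * K.h (S.act ((i + 1) • a) x)) := by
        have := K.h_lip a (S.act (i • a) x)
        rw [← S.add, ← succ_nsmul'] at this
        rw [hE, ← Real.exp_add]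
        exact Real.exp_le_exp.2 (by linarith)
      obtain ⟨-, s2, s3⟩ := hs (D.a a) _ (gg (S.act ((i + 1) • a) x) (S.act ((i + 1) • a) y))
        (S.act (i • a) x) (S.act (i • a) y) _
        (pp (S.act ((i + 1) • a) x) (S.act ((i + 1) • a) y)) (len_a_le D a) (hgp _ _)
        (by rw [hact, hact]; exact hgp _ _)
        (by
          rw [hact, ← I.h_eq]
          refine (hlen _ _).trans ?_
          have b2 := mul_le_mul_of_nonneg_left ((ht i (by omega)).trans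
            (mul_le_mul_of_nonneg_left b1 hδ0.le)) K.L_nonneg
          have b3 := mul_le_mul_of_nonneg_right (hδ2.le.trans hρ1) he0.le
          linarith)
        (by
          rw [hact, ← I.h_eq]
          refine (hlen _ _).trans ?_
          have b2 := mul_le_mul_of_nonneg_left (ht (i + 1) hi) K.L_nonneg
          have b3 := mul_le_mul_of_nonneg_right (hδ3.trans hρ1) he0.le
          linarith)
      refine ⟨?_, ?_⟩
      · rw [s3, i1, ← D.Ad_mul, ← D.a_add, ← succ_nsmul']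
      · rw [s2, i2, ← I.β_eq, Skew.mv, Skew.mv, succ_nsmul', K.β_add, map_mul,
          Equiv.Perm.mul_apply]
  intro i hi
  obtain ⟨k1, k2⟩ := key i hi
  have b1 : Real.exp (-2 * K.h (S.act (i • a) x)) ≤ 1 := by
    rw [Real.exp_le_one_iff]
    linarith [K.h_nonneg (S.act (i • a) x)]
  have b2 := (h1 _ (hsm _ _ ((ht i hi).trans (mul_le_of_le_one_right hδ0.le b1)))).2.2.1
  refine ⟨?_, ?_⟩
  · rw [← k1]
    linarith [hlen (S.act (i • a) x) (S.act (i • a) y)]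
  · rw [← k2, I.h_eq]
    exact hpt _ _

theorem dist_le (s : Euc k) (x : X) {Y : Mat n} (hY : Y ∈ D.g) (p : M) :
    dist (S.act s x) (S.act s (D.ex Y • I.j (I.π x) p)) ≤ K.L * ‖D.Ad (D.a s) Y‖ +
      Real.exp (K.L * (1 + K.h (S.act s x))) * dist (K.mv s x p) (K.pt (S.act s x)) := by
  have e1 : S.act s (D.ex Y • I.j (I.π x) p) =
      D.ex (D.Ad (D.a s) Y) • I.j (I.π (S.act s x)) (K.mv s x p) := by
    rw [← I.act_j, ← D.conj_ex _ hY, I.act_eq, I.act_eq, smul_smul, smul_smul,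
      inv_mul_cancel_right]
  have h1 := I.dist_smul_self (D.ex (D.Ad (D.a s) Y)) (I.j (I.π (S.act s x)) (K.mv s x p))
  have h2 := I.dist_j (I.π (S.act s x)) (K.mv s x p) (K.pt (S.act s x))
  have h3 := mul_le_mul_of_nonneg_left (D.len_ex_le (D.Ad_mem (D.a s) hY)) K.L_nonneg
  rw [I.j_pt, ← I.h_eq] at h2
  rw [e1, dist_comm]
  linarith [dist_triangle (D.ex (D.Ad (D.a s) Y) • I.j (I.π (S.act s x)) (K.mv s x p))
    (I.j (I.π (S.act s x)) (K.mv s x p)) (S.act s x)]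

theorem free {a : Euc k} {c q0 ε : ℝ} (hc : ∀ β ∈ D.wts, 0 < ⟪β, a⟫ → c ≤ ⟪β, a⟫)
    (hε : 2 * ε < c) {x : X} (hx : ∀ i : ℕ, K.h (S.act (-(i • a)) x) ≤ q0 + ε * i) {Y : Mat n}
    (hY : Y ∈ D.np a) (h : D.ex Y • I.π x = I.π x) : Y = 0 := by
  obtain ⟨r0, hr0, -, -, h2⟩ := D.len_chart
  set ρ := min I.r r0 with hρ
  have hρ0 : 0 < ρ := lt_min I.r_pos hr0
  have ht : Tendsto (fun i : ℕ => Real.exp (-((c - 2 * ε) * i)) * ‖Y‖) atTop (𝓝 (0 * ‖Y‖)) :=
    (Real.tendsto_exp_neg_atTop_nhds_zero.comp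
      (tendsto_natCast_atTop_atTop.const_mul_atTop (by linarith))).mul_const _
  rw [zero_mul] at ht
  obtain ⟨i, hi⟩ := (ht.eventually_lt_const
    (show 0 < ρ * Real.exp (-2 * q0) by positivity)).exists
  have hZ : D.Ad (D.a (-(i • a))) Y ∈ D.g := D.Ad_mem _ hY.1
  have b1 : ‖D.Ad (D.a (-(i • a))) Y‖ ≤ Real.exp (-(c * i)) * ‖Y‖ := by
    refine D.norm_Ad_a_le _ hY.2 fun β hβ hw => ?_
    rw [← Nat.cast_smul_eq_nsmul ℝ, inner_neg_right, real_inner_smul_right, mul_comm]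
    exact neg_le_neg (mul_le_mul_of_nonneg_right (hc β hw hβ) (Nat.cast_nonneg i))
  have b2 : ‖D.Ad (D.a (-(i • a))) Y‖ < ρ * Real.exp (-2 * K.h (S.act (-(i • a)) x)) := by
    have e1 : Real.exp (-(c * i)) = Real.exp (-(2 * ε * i)) * Real.exp (-((c - 2 * ε) * i)) := by
      rw [← Real.exp_add]
      congr 1
      ring
    have e2 : Real.exp (-(2 * ε * i)) * Real.exp (-2 * q0) ≤
        Real.exp (-2 * K.h (S.act (-(i • a)) x)) := by
      rw [← Real.exp_add]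
      exact Real.exp_le_exp.2 (by linarith [hx i])
    have e3 := mul_lt_mul_of_pos_left hi (Real.exp_pos (-(2 * ε * i)))
    have e4 := mul_le_mul_of_nonneg_left e2 hρ0.le
    rw [e1] at b1
    linarith
  have b3 : Real.exp (-2 * K.h (S.act (-(i • a)) x)) ≤ 1 := by
    rw [Real.exp_le_one_iff]
    linarith [K.h_nonneg (S.act (-(i • a)) x)]
  have b4 : ‖D.Ad (D.a (-(i • a))) Y‖ < r0 :=
    b2.trans_le ((mul_le_of_le_one_right hρ0.le b3).trans (min_le_right _ _))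
  have e1 : D.ex (D.Ad (D.a (-(i • a))) Y) = 1 := by
    refine I.inj _ (I.π (S.act (-(i • a)) x)) ?_ ?_
    · rw [← D.conj_ex _ hY.1, I.act_eq, I.π_smul, smul_smul, inv_mul_cancel_right, mul_smul, h]
    · rw [← I.h_eq]
      exact (D.len_ex_le hZ).trans_lt (b2.trans_le
        (mul_le_mul_of_nonneg_right (min_le_left _ _) (Real.exp_pos _).le))
  have e2 := (h2 _ hZ _ hZ b4 b4).1
  rw [e1, D.lg_one] at e2
  rw [← D.Ad_inv_Ad (D.a (-(i • a))) Y, ← e2, map_zero]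

include I in
theorem inj_cpt (Q : Set B) (hQ : IsCompact Q) :
    ∃ W ∈ 𝓝 (1 : G), ∀ b ∈ Q, ∀ g ∈ W, g • b = b → g = 1 := by
  obtain ⟨R, hR⟩ := hQ.bddAbove_image I.ht_cont.continuousOn
  refine ⟨{g | D.len g < I.r * Real.exp (-2 * R)}, ?_, fun b hb g hg h => I.inj g b h ?_⟩
  · refine (isOpen_lt D.continuous_len continuous_const).mem_nhds ?_
    simp only [mem_ofPred_eq, D.len_one]
    exact mul_pos I.r_pos (Real.exp_pos _)
  · refine lt_of_lt_of_le hg (mul_le_mul_of_nonneg_left (Real.exp_le_exp.2 ?_) I.r_pos.le)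
    linarith [hR (mem_image_of_mem _ hb)]

include I in
theorem exists_lip (a : Euc k) : ∃ Lp : ℝ, ∀ (i : ℤ) (x y : X),
    dist (S.act ((i : ℝ) • a) x) (S.act ((i : ℝ) • a) y) ≤
      Real.exp (Lp * |(i : ℝ)|) * dist x y := by
  refine ⟨K.L * (1 + ‖a‖), fun i x y => ?_⟩
  by_cases hi : i = 0
  · simp [hi, S.zero]
  rw [I.act_eq, I.act_eq]
  refine (I.dist_smul _ x y).trans (mul_le_mul_of_nonneg_right (Real.exp_le_exp.2 ?_) dist_nonneg)
  have h1 := len_a_le D ((i : ℝ) • a)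
  rw [norm_smul, Real.norm_eq_abs] at h1
  have h2 : (1 : ℝ) ≤ |(i : ℝ)| := by exact_mod_cast Int.one_le_abs hi
  rw [mul_assoc]
  refine mul_le_mul_of_nonneg_left ?_ K.L_nonneg
  linarith

theorem hol_eq (a : Euc k) (i : ℕ) {x y : X} {u : G} (h : I.π y = u • I.π x) :
    K.hol a i x y (I.c u⁻¹ (I.π y)) =
      I.c (D.a (-(i • a)) * u⁻¹ * (D.a (-(i • a)))⁻¹) (I.π (S.act (-(i • a)) y)) := by
  have e : u⁻¹ • I.π y = I.π x := by rw [h, inv_smul_smul]
  rw [Skew.hol, I.β_eq, I.β_eq, I.act_eq, I.π_smul, I.c_mul, inv_smul_smul, I.c_inv, I.c_mul, e]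

theorem hol_np {a : Euc k} {x y : X} {Y : Mat n} (hY : Y ∈ D.np a)
    (h : I.π y = D.ex Y • I.π x) :
    K.Hol a (K.L * (1 + ‖Y‖)) x y (I.c (D.ex Y)⁻¹ (I.π y)) ∧
      K.Hol a (K.L * (1 + ‖Y‖)) y x (I.c (D.ex Y)⁻¹ (I.π y))⁻¹ := by
  have key : ∀ {x y : X} {Y : Mat n}, Y ∈ D.np a → I.π y = D.ex Y • I.π x →
      K.Hol a (K.L * (1 + ‖Y‖)) x y (I.c (D.ex Y)⁻¹ (I.π y)) := by
    intro x y Y hY h i
    rw [I.hol_eq a i h]
    refine (I.len_c _ _).trans (add_le_add ?_ (le_of_eq ?_))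
    · refine mul_le_mul_of_nonneg_left (add_le_add le_rfl ?_) K.L_nonneg
      have hn := Submodule.neg_mem _ hY
      rw [← D.ex_neg hY.1, D.conj_ex _ hn.1]
      refine (D.len_ex_le (D.Ad_mem _ hn.1)).trans ?_
      refine (D.norm_Ad_a_le _ hn.2 (c := 0) fun β hβ _ => ?_).trans (by simp)
      rw [← Nat.cast_smul_eq_nsmul ℝ, inner_neg_right, real_inner_smul_right]
      exact neg_nonpos.2 (mul_nonneg (Nat.cast_nonneg i) (le_of_lt hβ))
    · rw [I.h_eq, I.h_eq, I.act_eq, I.act_eq, I.π_smul, I.π_smul, h, smul_smul,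
        inv_mul_cancel_right, mul_smul, inv_smul_smul]
  refine ⟨key hY h, ?_⟩
  have e : I.π x = D.ex (-Y) • I.π y := by rw [D.ex_neg hY.1, h, inv_smul_smul]
  have := key (Submodule.neg_mem _ hY) e
  rwa [norm_neg, e, I.c_inv, D.ex_neg hY.1] at this

end Inp

end Pool.Agent.P.MP_d483fb_an.Z.Geo
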